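import Pool.Agent.NCC.Stmts

/-!
# MP_fa3f7f_ag: the solution of the affine system (module AFF)
-/

set_option autoImplicit false

namespace NCC

open MvPolynomial MMCI

noncomputable section

namespace AffM

variable {ι : Type} [Fintype ι] {F : Type*} [Field F] [Algebra ℂ F]

theorem evI_zero (x : ι → F) : evI x (0 : LaurI ι) = 0 := by
  unfold evI
  exact Finsupp.sum_zero_index

theorem evI_add (x : ι → F) (f g : LaurI ι) : evI x (f + g) = evI x f + evI x g := by
  unfold evI
  exact Finsupp.sum_add_index' (by simp) fun m a b => by rw [map_add]; ring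

theorem evI_sub (x : ι → F) (f g : LaurI ι) : evI x (f - g) = evI x f - evI x g := by
  have h := evI_add x (f - g) g
  rw [sub_add_cancel] at h
  rw [h, add_sub_cancel_right]

theorem evI_single (x : ι → F) (m : ι → ℤ) (c : ℂ) :
    evI x (AddMonoidAlgebra.single m c : LaurI ι) = algebraMap ℂ F c * monI x m := by
  unfold evI
  exact Finsupp.sum_single_index (by simp)

theorem evI_sum (x : ι → F) {α : Type*} (s : Finset α) (f : α → LaurI ι) :
    evI x (∑ a ∈ s, f a) = ∑ a ∈ s, evI x (f a) := by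
  classical
  induction s using Finset.induction_on with
  | empty => simp [evI_zero]
  | insert a s ha ih => rw [Finset.sum_insert ha, Finset.sum_insert ha, evI_add, ih]

end AffM

open AffM

variable {k q r : ℕ} {N : Fin k → ℕ} {K : Type} [Field K] [Algebra ℂ K]

theorem monI_affExp (x : Coord N → K) (hx : ∀ s, x s ≠ 0) (z : Fin q → K) (a : Coord N →₀ ℕ)
    (d : Fin k → ℕ) (ha : ∀ l, ∑ i, a ⟨l, i⟩ = d l) :
    monI (Sum.elim (fun s : (l : Fin k) × Fin (N l) => x ⟨s.1, s.2.succ⟩ / x ⟨s.1, 0⟩) z)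
      (affExp q a) = (∏ s, x s ^ a s) / ∏ l, x ⟨l, 0⟩ ^ d l := by
  classical
  unfold monI affExp
  rw [Fintype.prod_sum_type]
  simp only [Sum.elim_inl, Sum.elim_inr, Pi.zero_apply, zpow_zero, Finset.prod_const_one, mul_one,
    zpow_natCast]
  rw [Fintype.prod_sigma, Fintype.prod_sigma, ← Finset.prod_div_distrib]
  refine Finset.prod_congr rfl fun l _ => ?_
  rw [Fin.prod_univ_succ, ← ha l, Fin.sum_univ_succ, pow_add]
  have h0 : x ⟨l, 0⟩ ^ a ⟨l, 0⟩ ≠ 0 := pow_ne_zero _ (hx _)
  rw [mul_div_mul_left _ _ h0, ← Finset.prod_pow_eq_pow_sum, ← Finset.prod_div_distrib]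
  exact Finset.prod_congr rfl fun i _ => by rw [div_pow]

theorem evI_aff (x : Coord N → K) (hx : ∀ s, x s ≠ 0) (z : Fin q → K) (f : Poly N)
    (d : Fin k → ℕ) (hf : IsMultiHom f d) :
    evI (Sum.elim (fun s : (l : Fin k) × Fin (N l) => x ⟨s.1, s.2.succ⟩ / x ⟨s.1, 0⟩) z)
      (aff q f) = aeval x f / ∏ l, x ⟨l, 0⟩ ^ d l := by
  unfold aff
  rw [evI_sum, aeval_def, eval₂_eq', Finset.sum_div]
  refine Finset.sum_congr rfl fun a ha => ?_
  rw [evI_single, monI_affExp x hx z a d (hf a ha)]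
  rw [mul_div_assoc]

theorem t_AFF : S_AFF := by
  intro k q r N g h e d hg hh K _ _ x hx hz i
  rcases i with i | j
  · show evI _ (aff q (g i)) = 0
    rw [evI_aff x hx _ (g i) (e i) (hg i), hz i, zero_div]
  · show evI _ (AddMonoidAlgebra.single (Pi.single (Sum.inr j) 1) 1 - aff q (h j)) = 0
    rw [evI_sub, evI_aff x hx _ (h j) (d j) (hh j), evI_single]
    have : monI (Sum.elim (fun s : (l : Fin k) × Fin (N l) => x ⟨s.1, s.2.succ⟩ / x ⟨s.1, 0⟩)
        fun j => aeval x (h j) / ∏ l, x ⟨l, 0⟩ ^ d j l)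
        (Pi.single (Sum.inr j) 1 : Aff N q → ℤ) = aeval x (h j) / ∏ l, x ⟨l, 0⟩ ^ d j l := by
      classical
      unfold monI
      rw [Finset.prod_eq_single (Sum.inr j)]
      · rw [Pi.single_eq_same, zpow_one, Sum.elim_inr]
      · intro b _ hb
        rw [Pi.single_eq_of_ne hb, zpow_zero]
      · intro hne
        exact absurd (Finset.mem_univ _) hne
    rw [this, map_one, one_mul, sub_self]

end

end NCC
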