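import Pool.Agent.NCC.Stmts

/-!
# The chain rule for a derivation which is zero on the coefficients
-/

set_option autoImplicit false

open MvPolynomial

namespace NCC

namespace CHN_aux

theorem deriv_aeval {σ : Type} [Fintype σ] {F : Subfield ℂ} (D : Derivation F ℂ ℂ) (p : σ → ℂ)
    (f : MvPolynomial σ F) :
    D (aeval p f) = ∑ s, aeval p (pderiv s f) * D (p s) := by
  classical
  induction f using MvPolynomial.induction_on with
  | C a => simp
  | add f g hf hg =>
    simp only [map_add, hf, hg, add_mul, Finset.sum_add_distrib]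
  | mul_X f i hf =>
    have h1 : ∀ s, aeval p (pderiv s (f * X i)) * D (p s) =
        (if s = i then aeval p f * D (p i) else 0) + p i * (aeval p (pderiv s f) * D (p s)) := by
      intro s
      rw [Derivation.leibniz, map_add, smul_eq_mul, smul_eq_mul, map_mul, map_mul, aeval_X,
        pderiv_X]
      by_cases h : s = i
      · subst h
        rw [if_pos rfl, Pi.single_eq_same, map_one]
        ring
      · rw [if_neg h, Pi.single_eq_of_ne (Ne.symm h), map_zero]
        ring
    simp only [h1, Finset.sum_add_distrib, ← Finset.mul_sum]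
    rw [Finset.sum_ite_eq' Finset.univ i, if_pos (Finset.mem_univ i), ← hf, map_mul, aeval_X,
      Derivation.leibniz, smul_eq_mul, smul_eq_mul]

theorem lift {σ : Type} {F : Subfield ℂ} (f : MvPolynomial σ ℂ) (h : ∀ a, f.coeff a ∈ F) :
    ∃ g : MvPolynomial σ F, MvPolynomial.map (algebraMap F ℂ) g = f := by
  classical
  refine ⟨∑ a ∈ f.support, monomial a ⟨f.coeff a, h a⟩, ?_⟩
  rw [map_sum]
  conv_rhs => rw [← support_sum_monomial_coeff f]
  refine Finset.sum_congr rfl fun a _ => ?_
  rw [map_monomial]
  rfl

end CHN_aux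

open CHN_aux in
theorem t_CHN : S_CHN := by
  intro k N F f hf p hp D
  obtain ⟨g, rfl⟩ := lift f hf
  have h1 : ∀ u : MvPolynomial (Coord N) F,
      eval p (MvPolynomial.map (algebraMap F ℂ) u) = aeval p u := by
    intro u
    rw [eval_map, aeval_def]
  have h2 := deriv_aeval D p g
  rw [← h1, hp, map_zero] at h2
  rw [h2]
  refine Finset.sum_congr rfl fun s _ => ?_
  unfold grd
  rw [pderiv_map, h1]

end NCC
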