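import Pool.Agent.NCC.Stmts

set_option autoImplicit false

/-!
# (CNT): the number of algebraically independent elements which are algebraic over `F(b)`
-/

namespace NCC

namespace CNT_aux

open AlgebraicIndependent Set

theorem main (F : Subfield ℂ) {ι κ : Type} [Fintype ι] [Fintype κ] (a : ι → ℂ) (b : κ → ℂ)
    (ha : AlgebraicIndependent F a)
    (h : ∀ i, IsAlgebraic (IntermediateField.adjoin F (Set.range b)) (a i)) :
    Fintype.card ι ≤ Fintype.card κ := by
  have h1 : (matroid F ℂ).Indep (range a) := by
    rw [matroid_indep_iff]
    exact ha.coe_range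
  have h2 : range a ⊆ (matroid F ℂ).closure (range b) := by
    rw [matroid_closure_eq]
    rintro _ ⟨i, rfl⟩
    rw [SetLike.mem_coe, Subalgebra.mem_algebraicClosure]
    exact IntermediateField.isAlgebraic_adjoin_iff.1 (h i)
  have h3 : (range a).encard ≤ (range b).encard := by
    calc (range a).encard ≤ (matroid F ℂ).eRk ((matroid F ℂ).closure (range b)) :=
          h1.encard_le_eRk_of_subset h2
      _ = (matroid F ℂ).eRk (range b) := Matroid.eRk_closure_eq _ _
      _ ≤ (range b).encard := Matroid.eRk_le_encard _ _
  have h4 : (range a).encard = (Fintype.card ι : ℕ∞) := by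
    rw [← image_univ, ha.injective.encard_image, encard_univ, ENat.card_eq_coe_fintype_card]
  have h5 : (range b).encard ≤ (Fintype.card κ : ℕ∞) := by
    rw [← image_univ, ← ENat.card_eq_coe_fintype_card (α := κ), ← encard_univ]
    exact encard_image_le _ _
  rw [h4] at h3
  exact_mod_cast h3.trans h5

end CNT_aux

theorem t_CNT : S_CNT := by
  intro F ι κ _ _ a b ha h
  exact CNT_aux.main F a b ha h

end NCC
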