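import Pool.Agent.NCC.Stmts

set_option autoImplicit false

namespace NCC

open MvPolynomial

namespace CRD_aux

/-- The block matrix with the given entries. -/
noncomputable def mk {k : ℕ} {N : Fin k → ℕ} (a : {z : Coord N × Coord N // z.1.1 = z.2.1} → ℂ) :
    Matrix (Coord N) (Coord N) ℂ :=
  fun s t => if h : s.1 = t.1 then a ⟨(s, t), h⟩ else 0

theorem mk_block {k : ℕ} {N : Fin k → ℕ} (a : {z : Coord N × Coord N // z.1.1 = z.2.1} → ℂ) :
    IsBlock (mk a) := by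
  intro s t h
  simp [mk, h]

theorem ent_mk {k : ℕ} {N : Fin k → ℕ} (a : {z : Coord N × Coord N // z.1.1 = z.2.1} → ℂ) :
    ent (mk a) = a := by
  funext z
  obtain ⟨⟨s, t⟩, h⟩ := z
  simp only at h
  simp [mk, ent, h]

/-- A linear relation with coefficients in `F` between the entries of a row of a block. -/
theorem row_ne {k : ℕ} {N : Fin k → ℕ} (F : Subfield ℂ) (Λ : Matrix (Coord N) (Coord N) ℂ)
    (hΛ : AlgebraicIndependent F (ent Λ)) (s : Coord N) (μ : Fin (N s.1 + 1) → ℂ)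
    (hμ : ∀ i, μ i ∈ F) (h : ∑ i, μ i * Λ s ⟨s.1, i⟩ = 0) : ∀ i, μ i = 0 := by
  have hl := hΛ.linearIndependent
  have hinj : Function.Injective (fun i : Fin (N s.1 + 1) =>
      (⟨(s, ⟨s.1, i⟩), rfl⟩ : {z : Coord N × Coord N // z.1.1 = z.2.1})) := by
    intro i j hij
    simp only [Subtype.mk.injEq, Prod.mk.injEq, true_and] at hij
    exact eq_of_heq (Sigma.mk.inj hij).2
  have hl2 := hl.comp _ hinj
  rw [Fintype.linearIndependent_iff] at hl2
  intro i
  have := hl2 (fun i => (⟨μ i, hμ i⟩ : F)) (by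
    rw [← h]
    refine Finset.sum_congr rfl fun i _ => ?_
    rfl) i
  exact congrArg Subtype.val this

end CRD_aux

open CRD_aux in
theorem t_CRD : S_SUB → S_TC → S_SCL → S_TRC → S_IND → S_INV → S_VTX → S_HYP → S_CRD := by
  intro _ hTC hSCL hTRC hIND hINV hVTX hHYP k q r N g h e d hg hh hnc hg0 hh0 K _ _ x hx
  choose μ hμ0 hμ using fun l : Fin k =>
    hHYP (fun i : Fin (N l + 1) => x ⟨l, i⟩) (hx l)
  let S : Set ℂ := ((⋃ i, Set.range fun a => (g i).coeff a) ∪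
    ⋃ j, Set.range fun a => (h j).coeff a) ∪ ⋃ l, Set.range (μ l)
  have hS : S.Countable := by
    refine Set.Countable.union (Set.Countable.union ?_ ?_) ?_
    · exact Set.countable_iUnion fun i => Set.countable_range _
    · exact Set.countable_iUnion fun i => Set.countable_range _
    · exact Set.countable_iUnion fun i => Set.countable_range _
  obtain ⟨F, a, hSF, ha⟩ := hIND S hS {z : Coord N × Coord N // z.1.1 = z.2.1}
  have hgF : ∀ i a, (g i).coeff a ∈ F := fun i a =>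
    hSF (Or.inl (Or.inl (Set.mem_iUnion.2 ⟨i, a, rfl⟩)))
  have hhF : ∀ i a, (h i).coeff a ∈ F := fun i a =>
    hSF (Or.inl (Or.inr (Set.mem_iUnion.2 ⟨i, a, rfl⟩)))
  have hμF : ∀ l i, μ l i ∈ F := fun l i => hSF (Or.inr (Set.mem_iUnion.2 ⟨l, i, rfl⟩))
  have hA : IsBlock (mk a) := mk_block a
  have hAi : AlgebraicIndependent F (ent (mk a)) := by
    rw [ent_mk]
    exact ha
  obtain ⟨Λ, hΛ, h1, h2, hΛi⟩ := hINV F (mk a) hA hAi
  refine ⟨mk a, Λ, hA, hΛ, h1, h2, ?_, ?_, ?_⟩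
  · exact hTRC g h (mk a) Λ hA hΛ h1 h2
      (hSCL g h e d hg hh Λ hΛ (hTC F g h hnc hgF hhF Λ hΛ hΛi))
  · exact fun v => ⟨fun i => hVTX F (mk a) hA hAi (g i) (hg0 i) (hgF i) v,
      fun j => hVTX F (mk a) hA hAi (h j) (hh0 j) (hhF j) v⟩
  · intro s hs
    have h3 : ∑ i, algebraMap ℂ K (Λ s ⟨s.1, i⟩) * x ⟨s.1, i⟩ = 0 := by
      have h4 : act Λ x s = ∑ l, ∑ i, algebraMap ℂ K (Λ s ⟨l, i⟩) * x ⟨l, i⟩ := by
        rw [act, Fintype.sum_sigma]
      rw [Finset.sum_eq_single s.1] at h4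
      · rw [← h4, hs]
      · intro l _ hl
        refine Finset.sum_eq_zero fun i _ => ?_
        rw [hΛ s ⟨l, i⟩ (Ne.symm hl), map_zero, zero_mul]
      · exact fun h => absurd (Finset.mem_univ _) h
    obtain ⟨i, hi⟩ := hμ0 s.1
    exact hi (row_ne F Λ hΛi s (μ s.1) (hμF s.1) (hμ s.1 _ h3) i)

end NCC
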