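import Pool.Agent.NCC.Stmts

set_option autoImplicit false

namespace NCC

namespace DER1_aux

open KaehlerDifferential

theorem main {F E ι : Type} [Field F] [Field E] [CharZero F] [Algebra F E] (x : ι → E)
    (hT : IsTranscendenceBasis F x) :
    ∃ b : Module.Basis ι E (Ω[E⁄F]), ∀ i, b i = KaehlerDifferential.D F E (x i) := by
  classical
  have hx : AlgebraicIndependent F x := hT.1
  have halg : Algebra.IsAlgebraic (Algebra.adjoin F (Set.range x)) E := hT.isAlgebraic
  let algS : Algebra (MvPolynomial ι F) E := (MvPolynomial.aeval x).toRingHom.toAlgebra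
  have hS : ∀ p : MvPolynomial ι F, algebraMap (MvPolynomial ι F) E p =
    MvPolynomial.aeval x p := fun p => rfl
  have tow : IsScalarTower F (MvPolynomial ι F) E := by
    refine IsScalarTower.of_algebraMap_eq fun c => ?_
    rw [hS, MvPolynomial.algebraMap_eq, MvPolynomial.aeval_C]
  have faith : FaithfulSMul (MvPolynomial ι F) E := by
    rw [faithfulSMul_iff_algebraMap_injective]
    exact hx
  have algSK : Algebra.IsAlgebraic (MvPolynomial ι F) E := by
    constructor
    intro a
    obtain ⟨p, hp, hpa⟩ := halg.isAlgebraic a
    let e := hx.aevalEquiv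
    refine ⟨p.map e.symm.toRingEquiv.toRingHom, ?_, ?_⟩
    · intro h
      apply hp
      have := (Polynomial.map_eq_zero_iff (f := e.symm.toRingEquiv.toRingHom)
        e.symm.injective).1 h
      exact this
    · rw [Polynomial.aeval_def, Polynomial.eval₂_map]
      rw [Polynomial.aeval_def] at hpa
      rw [← hpa]
      congr 1
      ext y
      obtain ⟨q, rfl⟩ := e.surjective y
      simp [hS, e]
  let algF : Algebra (FractionRing (MvPolynomial ι F)) E :=
    FractionRing.liftAlgebra (MvPolynomial ι F) E
  have towF : IsScalarTower (MvPolynomial ι F)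
    (FractionRing (MvPolynomial ι F)) E := FractionRing.isScalarTower_liftAlgebra _ _
  have algFK : Algebra.IsAlgebraic (FractionRing (MvPolynomial ι F)) E :=
    Algebra.IsAlgebraic.extendScalars (R := MvPolynomial ι F)
      (IsFractionRing.injective _ _)
  have et2 : Algebra.FormallyEtale (FractionRing (MvPolynomial ι F)) E :=
    Algebra.FormallyEtale.of_isSeparable _ E
  have et1 : Algebra.FormallyEtale (MvPolynomial ι F)
      (FractionRing (MvPolynomial ι F)) :=
    Algebra.FormallyEtale.of_isLocalization (nonZeroDivisors _)
  have et : Algebra.FormallyEtale (MvPolynomial ι F) E :=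
    Algebra.FormallyEtale.comp _ (FractionRing (MvPolynomial ι F)) _
  refine ⟨((mvPolynomialBasis F ι).baseChange E).map
    (tensorKaehlerEquivOfFormallyEtale F (MvPolynomial ι F) E), fun i => ?_⟩
  have h1 : mvPolynomialBasis F ι i =
      KaehlerDifferential.D F (MvPolynomial ι F) (MvPolynomial.X i) := by
    apply (mvPolynomialBasis F ι).repr.injective
    rw [mvPolynomialBasis_repr_D_X, Module.Basis.repr_self]
  rw [Module.Basis.map_apply, Module.Basis.baseChange_apply, h1,
    ← tensorKaehlerEquivOfFormallyEtale_symm_D_algebraMap, LinearEquiv.apply_symm_apply, hS,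
    MvPolynomial.aeval_X]

end DER1_aux

theorem t_DER1 : S_DER1 := by
  intro F E ι _ _ _ _ x hx
  exact DER1_aux.main x hx

end NCC
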