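import Pool.Agent.NCC.Stmts

/-!
Module NCC_DER2 (MP_fa3f7f_ag): derivations dual to a transcendence basis of an intermediate field.
-/

set_option autoImplicit false

namespace NCC

noncomputable section

namespace DER2_aux

theorem adj {F : Subfield ℂ} {E : IntermediateField F ℂ} (D : Derivation F ℂ ℂ) {s : Set ℂ}
    (hsE : s ⊆ E) (hs : ∀ z ∈ s, D z ∈ E) {z : ℂ} (hz : z ∈ IntermediateField.adjoin F s) :
    D z ∈ E := by
  have hle : IntermediateField.adjoin F s ≤ E := IntermediateField.adjoin_le_iff.2 hsE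
  induction hz using IntermediateField.adjoin_induction with
  | mem x hx => exact hs x hx
  | algebraMap x => rw [Derivation.map_algebraMap]; exact zero_mem _
  | add x y hx hy h1 h2 => rw [map_add]; exact add_mem h1 h2
  | inv x hx h =>
    rw [Derivation.leibniz_inv, smul_eq_mul]
    exact mul_mem (neg_mem (pow_mem (inv_mem (hle hx)) 2)) h
  | mul x y hx hy h1 h2 =>
    rw [Derivation.leibniz, smul_eq_mul, smul_eq_mul]
    exact add_mem (mul_mem (hle hx) h2) (mul_mem (hle hy) h1)

theorem poly {F : Subfield ℂ} {K E : IntermediateField F ℂ} (D : Derivation F ℂ ℂ)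
    (hD : ∀ z ∈ K, D z ∈ E) {z : ℂ} (hz : z ∈ E) (P : Polynomial K) :
    ∃ c ∈ E, D (Polynomial.aeval z P) = c + Polynomial.aeval z P.derivative * D z := by
  induction P using Polynomial.induction_on' with
  | add p q hp hq =>
    obtain ⟨c, hc, h1⟩ := hp
    obtain ⟨d, hd, h2⟩ := hq
    refine ⟨c + d, add_mem hc hd, ?_⟩
    rw [map_add, map_add, h1, h2, Polynomial.derivative_add, map_add]
    ring
  | monomial n a =>
    refine ⟨z ^ n * D (a : ℂ), mul_mem (pow_mem hz n) (hD _ a.2), ?_⟩
    rw [Polynomial.aeval_monomial, Derivation.leibniz, Derivation.leibniz_pow,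
      Polynomial.derivative_monomial, Polynomial.aeval_monomial, map_mul, map_natCast]
    simp only [smul_eq_mul, nsmul_eq_mul]
    have h : algebraMap K ℂ a = (a : ℂ) := rfl
    rw [h]
    ring

theorem alg {F : Subfield ℂ} {K E : IntermediateField F ℂ} (hKE : K ≤ E) (D : Derivation F ℂ ℂ)
    (hD : ∀ z ∈ K, D z ∈ E) {z : ℂ} (hz : z ∈ E) (ha : IsAlgebraic K z) : D z ∈ E := by
  have hi : IsIntegral K z := ha.isIntegral
  have hsep : (minpoly K z).Separable := (minpoly.irreducible hi).separable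
  have hne : Polynomial.aeval z (minpoly K z).derivative ≠ 0 :=
    hsep.aeval_derivative_ne_zero (minpoly.aeval K z)
  obtain ⟨c, hc, h⟩ := poly D hD hz (minpoly K z)
  rw [minpoly.aeval, map_zero] at h
  have hmem : ∀ Q : Polynomial K, Polynomial.aeval z Q ∈ E := by
    intro Q
    rw [Polynomial.aeval_eq_sum_range]
    refine sum_mem fun i _ => ?_
    rw [Algebra.smul_def]
    exact mul_mem (hKE (Q.coeff i).2) (pow_mem hz i)
  have h2 : D z = -c * (Polynomial.aeval z (minpoly K z).derivative)⁻¹ := by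
    rw [eq_mul_inv_iff_mul_eq₀ hne]
    linear_combination -h
  rw [h2]
  exact mul_mem (neg_mem hc) (inv_mem (hmem _))

end DER2_aux

open DER2_aux in
/-- **NCC_DER2.** -/
theorem t_DER2 : S_DER1 → S_DER2 := by
  intro hDER1 F E e b hbE hb halg
  classical
  have : CharZero F := (algebraMap F ℂ).charZero
  have hbr : AlgebraicIndepOn F id (Set.range b) := hb.to_subtype_range
  obtain ⟨t, hst, ht⟩ := exists_isTranscendenceBasis_superset hbr
  obtain ⟨B, hB⟩ := hDER1 (F := F) (E := ℂ) (fun x : t => (x : ℂ)) ht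
  have hmem : ∀ a, b a ∈ t := fun a => hst ⟨a, rfl⟩
  refine ⟨fun a => (B.coord ⟨b a, hmem a⟩).compDer (KaehlerDifferential.D F ℂ), ?_, ?_⟩
  · intro a c
    have h1 : KaehlerDifferential.D F ℂ (b c) = B ⟨b c, hmem c⟩ := (hB ⟨b c, hmem c⟩).symm
    show B.coord ⟨b a, hmem a⟩ (KaehlerDifferential.D F ℂ (b c)) = _
    rw [h1, Module.Basis.coord_apply, Module.Basis.repr_self, Finsupp.single_apply]
    refine if_congr ?_ rfl rfl
    rw [Subtype.mk.injEq, hb.injective.eq_iff]
    exact eq_comm
  · intro a z hz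
    refine alg (K := IntermediateField.adjoin F (Set.range b))
      (IntermediateField.adjoin_le_iff.2 (by rintro - ⟨c, rfl⟩; exact hbE c)) _ ?_ hz (halg z hz)
    intro y hy
    refine adj _ (by rintro - ⟨c, rfl⟩; exact hbE c) ?_ hy
    rintro - ⟨c, rfl⟩
    have h1 : KaehlerDifferential.D F ℂ (b c) = B ⟨b c, hmem c⟩ := (hB ⟨b c, hmem c⟩).symm
    show B.coord ⟨b a, hmem a⟩ (KaehlerDifferential.D F ℂ (b c)) ∈ E
    rw [h1, Module.Basis.coord_apply, Module.Basis.repr_self, Finsupp.single_apply]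
    split_ifs
    · exact one_mem _
    · exact zero_mem _

end

end NCC
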