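import Pool.Agent.NCC.Stmts

/-!
# NCC, module GEN: generators in the new coordinates
-/

set_option autoImplicit false

namespace NCC

open MvPolynomial MMCI

noncomputable section

namespace GENx

theorem act_act {k : ℕ} {N : Fin k → ℕ} {K : Type} [Field K] [Algebra ℂ K]
    {A Λ : Matrix (Coord N) (Coord N) ℂ} (h : A * Λ = 1) (x : Coord N → K) (s : Coord N) :
    x s = ∑ t, algebraMap ℂ K (A s t) * act Λ x t := by
  have h1 : ∀ v : Coord N, ∑ t, algebraMap ℂ K (A s t) * algebraMap ℂ K (Λ t v) =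
      if s = v then 1 else 0 := by
    intro v
    have h2 := congrFun (congrFun h s) v
    rw [Matrix.mul_apply, Matrix.one_apply] at h2
    have h3 := congrArg (algebraMap ℂ K) h2
    rw [map_sum] at h3
    simp only [map_mul] at h3
    rw [h3]
    split_ifs <;> simp
  unfold act
  simp only [Finset.mul_sum]
  rw [Finset.sum_comm]
  have h4 : ∀ v : Coord N, ∑ t, algebraMap ℂ K (A s t) * (algebraMap ℂ K (Λ t v) * x v) =
      (if s = v then 1 else 0) * x v := by
    intro v
    rw [← h1 v, Finset.sum_mul]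
    exact Finset.sum_congr rfl fun t _ => by ring
  simp only [h4]
  simp

theorem prod_zpow_sum {ι K : Type} [Field K] {c : K} (hc : c ≠ 0) (s : Finset ι) (f : ι → ℤ) :
    ∏ j ∈ s, c ^ f j = c ^ ∑ j ∈ s, f j := by
  classical
  induction s using Finset.induction_on with
  | empty => simp
  | insert a s ha ih => rw [Finset.prod_insert ha, Finset.sum_insert ha, zpow_add₀ hc, ih]

end GENx

theorem t_GEN : S_GEN := by
  intro k q r n u N g h d K _ _ x w m κ hc A Λ hA hΛ hAΛ hx'
  have hx := GENx.act_act (K := K) hAΛ x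
  generalize act Λ x = x' at hx hx'
  have hdvd : ∀ a l, ∃ c : ℤ, ∑ j, κ a j * d j l = m a * c := fun a l => hc.unram a l
  choose ν hν using hdvd
  have hP : ∀ a, (∏ l, x' ⟨l, 0⟩ ^ ν a l : K) ≠ 0 := fun a =>
    Finset.prod_ne_zero_iff.2 fun l _ => zpow_ne_zero _ (hx' _)
  refine ⟨fun a => w a / ∏ l, x' ⟨l, 0⟩ ^ ν a l, fun a => ?_, ?_⟩
  · have h1 : (∏ l, x' ⟨l, 0⟩ ^ ν a l : K) ^ m a =
        ∏ j, (∏ l, x' ⟨l, 0⟩ ^ d j l : K) ^ κ a j := by
      rw [← Finset.prod_pow]
      have h2 : ∀ j, (∏ l, x' ⟨l, 0⟩ ^ d j l : K) ^ κ a j =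
          ∏ l, x' ⟨l, 0⟩ ^ (κ a j * d j l) := by
        intro j
        rw [← Finset.prod_zpow]
        refine Finset.prod_congr rfl fun l _ => ?_
        rw [mul_comm, zpow_mul, zpow_natCast]
      rw [Finset.prod_congr rfl fun j _ => h2 j, Finset.prod_comm]
      refine Finset.prod_congr rfl fun l _ => ?_
      rw [GENx.prod_zpow_sum (hx' _), hν a l, mul_comm, zpow_mul, zpow_natCast]
    rw [div_pow, (hc.root a).2, h1]
    unfold monI
    rw [Fintype.prod_sum_type]
    simp only [Sum.elim_inl, Sum.elim_inr, Pi.zero_apply, zpow_zero, Finset.prod_const_one,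
      one_mul]
    rw [← Finset.prod_div_distrib]
    exact Finset.prod_congr rfl fun j _ => (div_zpow _ _ _).symm
  · set E := IntermediateField.adjoin ℂ (Set.range (fun s : (l : Fin k) × Fin (N l) =>
        x' ⟨s.1, s.2.succ⟩ / x' ⟨s.1, 0⟩) ∪ Set.range fun a => w a / ∏ l, x' ⟨l, 0⟩ ^ ν a l)
      with hE
    have h1 : ∀ (l : Fin k) (i : Fin (N l + 1)), x' ⟨l, i⟩ / x' ⟨l, 0⟩ ∈ E := by
      intro l i
      refine Fin.cases ?_ (fun j => ?_) i
      · rw [div_self (hx' _)]
        exact one_mem E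
      · exact IntermediateField.subset_adjoin ℂ _ (Or.inl ⟨⟨l, j⟩, rfl⟩)
    have h2 : ∀ s : Coord N, x s / x' ⟨s.1, 0⟩ ∈ E := by
      intro s
      rw [hx s, Finset.sum_div]
      refine sum_mem fun t _ => ?_
      by_cases hst : s.1 = t.1
      · obtain ⟨l, i⟩ := s
        obtain ⟨l', i'⟩ := t
        obtain rfl : l = l' := hst
        rw [mul_div_assoc]
        exact mul_mem (E.algebraMap_mem _) (h1 l i')
      · rw [hA s t hst, map_zero, zero_mul, zero_div]
        exact zero_mem E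
    have h3 : ∀ l : Fin k, x' ⟨l, 0⟩ ∈ E := by
      intro l
      obtain ⟨i, hi⟩ := hc.one l
      have h4 := h2 ⟨l, i⟩
      rw [hi] at h4
      have h5 := inv_mem h4
      rwa [one_div, inv_inv] at h5
    have h4 : ∀ s, x s ∈ E := by
      intro s
      have h5 := mul_mem (h2 s) (h3 s.1)
      rwa [div_mul_cancel₀ _ (hx' _)] at h5
    have h5 : ∀ a, w a ∈ E := by
      intro a
      have h6 : w a / ∏ l, x' ⟨l, 0⟩ ^ ν a l ∈ E :=
        IntermediateField.subset_adjoin ℂ _ (Or.inr ⟨a, rfl⟩)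
      have h7 : (∏ l, x' ⟨l, 0⟩ ^ ν a l : K) ∈ E := prod_mem fun l _ => zpow_mem (h3 l) _
      have h8 := mul_mem h6 h7
      rwa [div_mul_cancel₀ _ (hP a)] at h8
    rw [eq_top_iff, ← hc.gen, IntermediateField.adjoin_le_iff]
    rintro z (⟨s, rfl⟩ | ⟨a, rfl⟩)
    · exact h4 s
    · exact h5 a

end

end NCC
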