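import Pool.Agent.NCC.Stmts

/-!
# NCC: Euler and scaling for multihomogeneous polynomials
-/

set_option autoImplicit false

namespace NCC

open MvPolynomial MMCI

noncomputable section

namespace HOM_aux

variable {k : ℕ} {N : Fin k → ℕ}

theorem ev_mon (p : Coord N → ℂ) (b : Coord N →₀ ℕ) (c : ℂ) :
    eval p (monomial b c) = c * ∏ s, p s ^ b s := by
  rw [eval_monomial, Finsupp.prod_fintype _ _ (fun i => pow_zero _)]

theorem ev_sum (f : Poly N) (p : Coord N → ℂ) :
    eval p f = ∑ a ∈ f.support, eval p (monomial a (f.coeff a)) := by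
  conv_lhs => rw [← support_sum_monomial_coeff f]
  rw [map_sum]

theorem grd_sum (f : Poly N) (p : Coord N → ℂ) (s : Coord N) :
    grd f p s = ∑ a ∈ f.support, eval p (pderiv s (monomial a (f.coeff a))) := by
  unfold grd
  conv_lhs => rw [← support_sum_monomial_coeff f]
  rw [map_sum, map_sum]

theorem euler_mon (p : Coord N → ℂ) (s : Coord N) (a : Coord N →₀ ℕ) (c : ℂ) :
    p s * eval p (pderiv s (monomial a c)) = (a s : ℂ) * eval p (monomial a c) := by
  have h := congrArg (eval p) (X_mul_pderiv_monomial (R := ℂ) (i := s) (m := a) (r := c))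
  rw [map_mul, eval_X, map_nsmul, nsmul_eq_mul] at h
  exact h

/-- the weight of an exponent of the right multidegree -/
theorem weight (τ : Fin k → ℂ) (a : Coord N →₀ ℕ) (d : Fin k → ℕ)
    (ha : ∀ l, ∑ i, a ⟨l, i⟩ = d l) : ∏ s : Coord N, τ s.1 ^ a s = ∏ l, τ l ^ d l := by
  rw [Fintype.prod_sigma]
  refine Finset.prod_congr rfl fun l _ => ?_
  rw [← ha l, ← Finset.prod_pow_eq_pow_sum]

theorem scale_mon (τ : Fin k → ℂ) (p : Coord N → ℂ) (b : Coord N →₀ ℕ) (c : ℂ) :
    eval (fun s => τ s.1 * p s) (monomial b c) =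
      (∏ s : Coord N, τ s.1 ^ b s) * eval p (monomial b c) := by
  rw [ev_mon, ev_mon]
  have : ∏ s : Coord N, (τ s.1 * p s) ^ b s =
      (∏ s : Coord N, τ s.1 ^ b s) * ∏ s, p s ^ b s := by
    rw [← Finset.prod_mul_distrib]
    exact Finset.prod_congr rfl fun s _ => mul_pow _ _ _
  rw [this]
  ring

theorem scale_der (τ : Fin k → ℂ) (p : Coord N → ℂ) (s : Coord N) (a : Coord N →₀ ℕ) (c : ℂ) :
    τ s.1 * eval (fun s => τ s.1 * p s) (pderiv s (monomial a c)) =
      (∏ t : Coord N, τ t.1 ^ a t) * eval p (pderiv s (monomial a c)) := by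
  rw [pderiv_monomial, scale_mon]
  by_cases h : a s = 0
  · rw [h]
    simp
  · obtain ⟨b, hb⟩ : ∃ b : Coord N →₀ ℕ, b = a - Finsupp.single s 1 := ⟨_, rfl⟩
    have h1 : a = b + Finsupp.single s 1 := by
      rw [hb]
      ext t
      by_cases ht : t = s
      · subst ht
        simp
        omega
      · simp [Ne.symm ht]
    rw [← hb]
    have h2 : ∏ t : Coord N, τ t.1 ^ a t = (∏ t : Coord N, τ t.1 ^ b t) * τ s.1 := by
      have h3 : ∀ t : Coord N, τ t.1 ^ a t = τ t.1 ^ b t * (if t = s then τ s.1 else 1) := by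
        intro t
        rw [h1, Finsupp.add_apply, pow_add]
        congr 1
        by_cases ht : t = s
        · subst ht; simp
        · rw [if_neg ht, Finsupp.single_apply, if_neg (Ne.symm ht), pow_zero]
      rw [Finset.prod_congr rfl fun t _ => h3 t, Finset.prod_mul_distrib, Finset.prod_ite_eq']
      simp
    rw [h2]
    ring

end HOM_aux

open HOM_aux in
theorem t_HOM : S_HOM := by
  intro k N f d hf p
  refine ⟨fun l => ?_, fun τ _ => ⟨?_, fun s => ?_⟩⟩
  · have h1 : ∀ i : Fin (N l + 1), p ⟨l, i⟩ * grd f p ⟨l, i⟩ =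
        ∑ a ∈ f.support, ((a ⟨l, i⟩ : ℕ) : ℂ) * eval p (monomial a (f.coeff a)) := by
      intro i
      rw [grd_sum, Finset.mul_sum]
      exact Finset.sum_congr rfl fun a _ => euler_mon p _ a _
    rw [Finset.sum_congr rfl fun i _ => h1 i, Finset.sum_comm, ev_sum f p, Finset.mul_sum]
    refine Finset.sum_congr rfl fun a ha => ?_
    rw [← Finset.sum_mul, ← hf a ha l]
    push_cast
    rfl
  · rw [ev_sum f p, ev_sum f, Finset.mul_sum]
    refine Finset.sum_congr rfl fun a ha => ?_
    rw [scale_mon, weight τ a d (hf a ha)]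
  · rw [grd_sum f p, grd_sum f, Finset.mul_sum, Finset.mul_sum]
    refine Finset.sum_congr rfl fun a ha => ?_
    rw [scale_der, weight τ a d (hf a ha)]

end

end NCC
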