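import Pool.Agent.NCC.Stmts

/-!
# NCC, module HYP: complex solutions of a linear equation
-/

set_option autoImplicit false

namespace NCC

theorem t_HYP : S_HYP := by
  intro K _ _ M x hx
  obtain ⟨i₀, hi₀⟩ := hx
  have h : ∃ θ : Module.Dual ℂ K, θ (x i₀) ≠ 0 := by
    by_contra hcon
    push Not at hcon
    exact hi₀ ((Module.forall_dual_apply_eq_zero_iff ℂ (x i₀)).1 hcon)
  obtain ⟨θ, hθ⟩ := h
  refine ⟨fun i => θ (x i), ⟨i₀, hθ⟩, fun lam hlam => ?_⟩
  have h1 := congrArg θ hlam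
  rw [map_zero, map_sum] at h1
  rw [← h1]
  refine Finset.sum_congr rfl fun i _ => ?_
  rw [← Algebra.smul_def, map_smul, smul_eq_mul, mul_comm]

end NCC
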