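import Pool.Agent.NCC.Stmts
import Mathlib.SetTheory.Cardinal.Subfield
import Mathlib.FieldTheory.IsAlgClosed.Classification

/-!
# NCC, module IND: algebraically independent families over a countable subfield
-/

set_option autoImplicit false

namespace NCC

open Cardinal

theorem t_IND : S_IND := by
  intro S hS ι _
  have hF : #(Subfield.closure S) ≤ ℵ₀ := by
    refine (Subfield.cardinalMk_closure_le_max S).trans ?_
    exact max_le (Cardinal.le_aleph0_iff_set_countable.2 hS) le_rfl
  have hC : ℵ₀ < #ℂ := by
    rw [Cardinal.mk_complex]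
    exact Cardinal.aleph0_lt_continuum
  obtain ⟨B, hB⟩ := exists_isTranscendenceBasis (Subfield.closure S) ℂ
  have h1 : #ℂ = #B :=
    IsAlgClosed.cardinal_eq_cardinal_transcendence_basis_of_aleph0_lt' _ hB hF hC
  have h2 : #ι ≤ #B := by
    rw [← h1]
    exact (Cardinal.lt_aleph0_of_finite ι).le.trans hC.le
  obtain ⟨φ⟩ := (Cardinal.le_def ι B).1 h2
  exact ⟨Subfield.closure S, fun i => (φ i : ℂ), Subfield.subset_closure,
    hB.1.comp φ φ.injective⟩

end NCC
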