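import Pool.Agent.NCC.Stmts

/-!
# The initial forms of dehomogenized multihomogeneous polynomials
-/

set_option autoImplicit false

namespace NCC

open MvPolynomial MMCI

noncomputable section

namespace INI

variable {k q : ℕ} {N : Fin k → ℕ}

theorem affExp_inj (f : Poly N) (d : Fin k → ℕ) (hf : IsMultiHom f d) {a b : Coord N →₀ ℕ}
    (ha : a ∈ f.support) (hb : b ∈ f.support) (h : affExp q a = affExp q b) : a = b := by
  have h1 : ∀ (l : Fin k) (i : Fin (N l)), a ⟨l, i.succ⟩ = b ⟨l, i.succ⟩ := by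
    intro l i
    have := congrFun h (Sum.inl ⟨l, i⟩)
    simpa [affExp] using this
  have h2 : ∀ l : Fin k, a ⟨l, 0⟩ = b ⟨l, 0⟩ := by
    intro l
    have e1 := hf a ha l
    have e2 := hf b hb l
    rw [Fin.sum_univ_succ] at e1 e2
    have e3 : ∑ i : Fin (N l), a ⟨l, i.succ⟩ = ∑ i : Fin (N l), b ⟨l, i.succ⟩ :=
      Finset.sum_congr rfl fun i _ => h1 l i
    omega
  ext ⟨l, i⟩
  exact Fin.cases (motive := fun i => a ⟨l, i⟩ = b ⟨l, i⟩) (h2 l) (fun i => h1 l i) i

theorem aff_coeff (f : Poly N) : (aff q f).coeff =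
    ∑ a ∈ f.support, Finsupp.single (affExp q a) (f.coeff a) := by
  rw [aff, AddMonoidAlgebra.coeff_sum]
  rfl

theorem aff_coeff_apply (f : Poly N) (d : Fin k → ℕ) (hf : IsMultiHom f d) {a : Coord N →₀ ℕ}
    (ha : a ∈ f.support) : (aff q f).coeff (affExp q a) = f.coeff a := by
  classical
  rw [aff_coeff, Finsupp.finsetSum_apply, Finset.sum_eq_single a]
  · rw [Finsupp.single_eq_same]
  · intro b hb hne
    rw [Finsupp.single_apply, if_neg]
    intro h
    exact hne (affExp_inj f d hf hb ha h)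
  · intro h
    exact absurd ha h

theorem aff_supp (f : Poly N) {m : Aff N q → ℤ} (hm : m ∈ (aff q f).coeff.support) :
    ∃ a ∈ f.support, affExp q a = m := by
  classical
  rw [Finsupp.mem_support_iff, aff_coeff, Finsupp.finsetSum_apply] at hm
  obtain ⟨a, ha, h⟩ := Finset.exists_ne_zero_of_sum_ne_zero hm
  refine ⟨a, ha, ?_⟩
  by_contra hne
  apply h
  rw [Finsupp.single_apply, if_neg hne]

theorem init_sum (f : Poly N) (ν : Aff N q → ℤ) (H : (Aff N q → ℤ) → ℂ → ℂ)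
    (h0 : ∀ m, H m 0 = 0) (hadd : ∀ m c c', H m (c + c') = H m c + H m c') :
    (initI (aff q f) ν).coeff.sum H = ∑ a ∈ f.support,
      if pairI ν (affExp q a) = minOnI (aff q f) ν then H (affExp q a) (f.coeff a) else 0 := by
  classical
  unfold initI
  rw [AddMonoidAlgebra.coeff_ofCoeff]
  have h1 : (aff q f).coeff.filter (fun m => pairI ν m = minOnI (aff q f) ν) =
      ∑ a ∈ f.support, (Finsupp.single (affExp q a) (f.coeff a)).filter
        (fun m => pairI ν m = minOnI (aff q f) ν) := by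
    conv_lhs => rw [aff_coeff f]
    exact map_sum (Finsupp.filterAddHom (M := ℂ) fun m => pairI ν m = minOnI (aff q f) ν) _ _
  rw [h1, ← Finsupp.sum_finsetSum_index h0 hadd]
  apply Finset.sum_congr rfl
  intro a _
  by_cases h : pairI ν (affExp q a) = minOnI (aff q f) ν
  · rw [if_pos h, Finsupp.filter_single_of_pos (fun m => pairI ν m = minOnI (aff q f) ν) h,
      Finsupp.sum_single_index (h0 _)]
  · rw [if_neg h, Finsupp.filter_single_of_neg (fun m => pairI ν m = minOnI (aff q f) ν) h,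
      Finsupp.sum_zero_index]

theorem pair_affExp (ν : Aff N q → ℤ) (a : Coord N →₀ ℕ) :
    pairI ν (affExp q a) = ∑ l, ∑ i : Fin (N l + 1), wt ν ⟨l, i⟩ * (a ⟨l, i⟩ : ℤ) := by
  unfold pairI
  rw [Fintype.sum_sum_type]
  have h2 : ∑ j : Fin q, ν (Sum.inr j) * affExp q a (Sum.inr j) = 0 := by simp [affExp]
  rw [h2, add_zero, Fintype.sum_sigma]
  apply Finset.sum_congr rfl
  intro l _
  rw [Fin.sum_univ_succ]
  simp [wt, affExp]

theorem wmin_le (ν : Aff N q → ℤ) (l : Fin k) (i : Fin (N l + 1)) : wmin ν l ≤ wt ν ⟨l, i⟩ :=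
  Finset.inf'_le _ (Finset.mem_univ i)

theorem wmin_mem (ν : Aff N q → ℤ) (l : Fin k) : ∃ i : Fin (N l + 1), wt ν ⟨l, i⟩ = wmin ν l := by
  obtain ⟨i, -, hi⟩ := Finset.exists_mem_eq_inf' (s := (Finset.univ : Finset (Fin (N l + 1))))
    Finset.univ_nonempty fun i => wt ν ⟨l, i⟩
  exact ⟨i, hi.symm⟩

theorem pair_diff (f : Poly N) (d : Fin k → ℕ) (hf : IsMultiHom f d) (ν : Aff N q → ℤ)
    {a : Coord N →₀ ℕ} (ha : a ∈ f.support) :
    pairI ν (affExp q a) = ∑ l, (d l : ℤ) * wmin ν l +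
      ∑ l, ∑ i : Fin (N l + 1), (wt ν ⟨l, i⟩ - wmin ν l) * (a ⟨l, i⟩ : ℤ) := by
  rw [pair_affExp, ← Finset.sum_add_distrib]
  apply Finset.sum_congr rfl
  intro l _
  have h1 : (d l : ℤ) = ∑ i : Fin (N l + 1), (a ⟨l, i⟩ : ℤ) := by
    rw [← hf a ha l]
    push_cast
    rfl
  rw [h1, Finset.sum_mul, ← Finset.sum_add_distrib]
  apply Finset.sum_congr rfl
  intro i _
  ring

theorem diff_nonneg (ν : Aff N q → ℤ) (a : Coord N →₀ ℕ) (l : Fin k) (i : Fin (N l + 1)) :
    0 ≤ (wt ν ⟨l, i⟩ - wmin ν l) * (a ⟨l, i⟩ : ℤ) :=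
  mul_nonneg (sub_nonneg.mpr (wmin_le ν l i)) (Nat.cast_nonneg _)

theorem pair_ge (f : Poly N) (d : Fin k → ℕ) (hf : IsMultiHom f d) (ν : Aff N q → ℤ)
    {a : Coord N →₀ ℕ} (ha : a ∈ f.support) :
    ∑ l, (d l : ℤ) * wmin ν l ≤ pairI ν (affExp q a) := by
  rw [pair_diff f d hf ν ha]
  have : 0 ≤ ∑ l, ∑ i : Fin (N l + 1), (wt ν ⟨l, i⟩ - wmin ν l) * (a ⟨l, i⟩ : ℤ) :=
    Finset.sum_nonneg fun l _ => Finset.sum_nonneg fun i _ => diff_nonneg ν a l i
  linarith

theorem pair_eq_iff (f : Poly N) (d : Fin k → ℕ) (hf : IsMultiHom f d) (ν : Aff N q → ℤ)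
    {a : Coord N →₀ ℕ} (ha : a ∈ f.support) :
    pairI ν (affExp q a) = ∑ l, (d l : ℤ) * wmin ν l ↔
      ∀ s : Coord N, wt ν s ≠ wmin ν s.1 → a s = 0 := by
  rw [pair_diff f d hf ν ha, add_eq_left]
  constructor
  · intro h s hs
    rw [Finset.sum_eq_zero_iff_of_nonneg
      (fun l _ => Finset.sum_nonneg fun i _ => diff_nonneg ν a l i)] at h
    have h1 := h s.1 (Finset.mem_univ _)
    rw [Finset.sum_eq_zero_iff_of_nonneg (fun i _ => diff_nonneg ν a s.1 i)] at h1
    have h2 := h1 s.2 (Finset.mem_univ _)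
    rcases mul_eq_zero.mp h2 with h3 | h3
    · exact absurd (sub_eq_zero.mp h3) hs
    · exact_mod_cast h3
  · intro h
    apply Finset.sum_eq_zero
    intro l _
    apply Finset.sum_eq_zero
    intro i _
    by_cases hw : wt ν ⟨l, i⟩ = wmin ν l
    · rw [hw, sub_self, zero_mul]
    · rw [h ⟨l, i⟩ hw]
      simp

theorem vertex_exp (f : Poly N) (v : (l : Fin k) → Fin (N l + 1)) (hv : eval (vert v) f ≠ 0) :
    ∃ a ∈ f.support, ∀ s : Coord N, s.2 ≠ v s.1 → a s = 0 := by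
  rw [MvPolynomial.eval_eq'] at hv
  obtain ⟨a, ha, h⟩ := Finset.exists_ne_zero_of_sum_ne_zero hv
  refine ⟨a, ha, fun s hs => ?_⟩
  by_contra hne
  apply h
  have h1 : ∏ i, vert v i ^ a i = 0 := by
    apply Finset.prod_eq_zero (Finset.mem_univ s)
    rw [vert, if_neg hs, zero_pow hne]
  rw [h1, mul_zero]

theorem min_eq (f : Poly N) (d : Fin k → ℕ) (hf : IsMultiHom f d)
    (hv : ∀ v : (l : Fin k) → Fin (N l + 1), eval (vert v) f ≠ 0) (ν : Aff N q → ℤ) :
    minOnI (aff q f) ν = ∑ l, (d l : ℤ) * wmin ν l := by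
  unfold minOnI
  apply IsLeast.csInf_eq
  constructor
  · choose v hvw using fun l => wmin_mem ν l
    obtain ⟨a, ha, ha0⟩ := vertex_exp f v (hv v)
    refine ⟨affExp q a, ?_, ?_⟩
    · rw [Finset.mem_coe, Finsupp.mem_support_iff, aff_coeff_apply f d hf ha]
      exact MvPolynomial.mem_support_iff.mp ha
    · show pairI ν (affExp q a) = _
      rw [pair_eq_iff f d hf ν ha]
      intro s hs
      apply ha0
      intro h
      apply hs
      have : s = ⟨s.1, v s.1⟩ := by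
        rw [← h]
      rw [this]
      exact hvw s.1
  · rintro _ ⟨m, hm, rfl⟩
    obtain ⟨a, ha, rfl⟩ := aff_supp f (Finset.mem_coe.mp hm)
    exact pair_ge f d hf ν ha

/-- the coordinates of the point with the dehomogenization -/
def cc (ξ : Aff N q → ℂ) (s : Coord N) : ℂ :=
  Fin.cases (motive := fun _ => ℂ) 1 (fun i => ξ (Sum.inl ⟨s.1, i⟩)) s.2

theorem monI_affExp (ξ : Aff N q → ℂ) (a : Coord N →₀ ℕ) :
    monI ξ (affExp q a) = ∏ s, cc ξ s ^ a s := by
  unfold monI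
  rw [Fintype.prod_sum_type]
  have h2 : ∏ j : Fin q, ξ (Sum.inr j) ^ affExp q a (Sum.inr j) = 1 := by simp [affExp]
  rw [h2, mul_one, Fintype.prod_sigma, Fintype.prod_sigma]
  apply Finset.prod_congr rfl
  intro l _
  rw [Fin.prod_univ_succ]
  simp [cc, affExp]

theorem pt_eq (ν : Aff N q → ℤ) (ξ : Aff N q → ℂ) (s : Coord N) :
    pt ν ξ s = if wt ν s = wmin ν s.1 then cc ξ s else 0 := rfl

theorem prod_pt (f : Poly N) (d : Fin k → ℕ) (hf : IsMultiHom f d)
    (hv : ∀ v : (l : Fin k) → Fin (N l + 1), eval (vert v) f ≠ 0) (ν : Aff N q → ℤ)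
    (ξ : Aff N q → ℂ) {a : Coord N →₀ ℕ} (ha : a ∈ f.support) :
    ∏ s, pt ν ξ s ^ a s =
      if pairI ν (affExp q a) = minOnI (aff q f) ν then monI ξ (affExp q a) else 0 := by
  rw [min_eq f d hf hv ν]
  by_cases h : pairI ν (affExp q a) = ∑ l, (d l : ℤ) * wmin ν l
  · rw [if_pos h, monI_affExp]
    rw [pair_eq_iff f d hf ν ha] at h
    apply Finset.prod_congr rfl
    intro s _
    rw [pt_eq]
    by_cases hs : wt ν s = wmin ν s.1
    · rw [if_pos hs]
    · rw [if_neg hs, h s hs, pow_zero, pow_zero]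
  · rw [if_neg h]
    rw [pair_eq_iff f d hf ν ha] at h
    push Not at h
    obtain ⟨s, hs, has⟩ := h
    apply Finset.prod_eq_zero (Finset.mem_univ s)
    rw [pt_eq, if_neg hs, zero_pow has]

theorem mul_grd (f : Poly N) (p : Coord N → ℂ) (s : Coord N) :
    p s * grd f p s = ∑ a ∈ f.support, f.coeff a * (a s : ℂ) * ∏ t, p t ^ a t := by
  have h1 : p s * grd f p s = eval p (X s * pderiv s f) := by
    rw [map_mul, eval_X]
    rfl
  rw [h1]
  conv_lhs => rw [MvPolynomial.as_sum f]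
  rw [map_sum, Finset.mul_sum, map_sum]
  apply Finset.sum_congr rfl
  intro a _
  rw [MvPolynomial.X_mul_pderiv_monomial, nsmul_eq_mul, map_mul, map_natCast,
    MvPolynomial.eval_monomial]
  rw [Finsupp.prod_fintype _ _ (fun i => pow_zero _)]
  ring

end INI

open INI in
theorem t_INI : S_INI := by
  intro k q N f d hf hv ν
  refine ⟨min_eq f d hf hv ν, fun ξ _ => ⟨?_, ?_, ?_⟩⟩
  · unfold evI
    rw [init_sum f ν _ (fun m => by simp) (fun m c c' => by rw [map_add, add_mul]),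
      MvPolynomial.eval_eq']
    apply Finset.sum_congr rfl
    intro a ha
    rw [prod_pt f d hf hv ν ξ ha]
    split_ifs
    · rfl
    · rw [mul_zero]
  · intro s
    unfold gradI
    rw [init_sum f ν _ (fun m => by simp) (fun m c c' => by rw [add_mul, add_mul]), mul_grd]
    apply Finset.sum_congr rfl
    intro a ha
    rw [prod_pt f d hf hv ν ξ ha]
    split_ifs
    · have : ((affExp q a (Sum.inl s) : ℤ) : ℂ) = (a ⟨s.1, s.2.succ⟩ : ℂ) := by
        simp [affExp]
      rw [this]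
    · rw [mul_zero]
  · intro j
    unfold gradI
    rw [init_sum f ν _ (fun m => by simp) (fun m c c' => by rw [add_mul, add_mul])]
    apply Finset.sum_eq_zero
    intro a _
    split_ifs
    · simp [affExp]
    · rfl

end

end NCC
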