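import Pool.Agent.NCC.Stmts

/-!
# NCC: the initial forms of `z_j - f`
-/

set_option autoImplicit false
set_option linter.unusedSectionVars false

namespace NCC

open MvPolynomial MMCI

noncomputable section

namespace INJ_aux

variable {ι : Type} [Fintype ι]

/-- linear functionals of the coefficients -/
def Lf (w : (ι → ℤ) → ℂ) (c : (ι → ℤ) →₀ ℂ) : ℂ := Finsupp.linearCombination ℂ w c

theorem evI_eq (ξ : ι → ℂ) (f : LaurI ι) : evI ξ f = Lf (fun m => monI ξ m) f.coeff := by
  unfold evI Lf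
  rw [Finsupp.linearCombination_apply]
  rfl

theorem gradI_eq (ξ : ι → ℂ) (f : LaurI ι) (i : ι) :
    gradI ξ f i = Lf (fun m => (m i : ℂ) * monI ξ m) f.coeff := by
  unfold gradI Lf
  rw [Finsupp.linearCombination_apply]
  refine Finsupp.sum_congr fun m _ => ?_
  rw [smul_eq_mul, mul_assoc]

theorem Lf_sub (w : (ι → ℤ) → ℂ) (c d : (ι → ℤ) →₀ ℂ) : Lf w (c - d) = Lf w c - Lf w d :=
  map_sub _ _ _

theorem Lf_zero (w : (ι → ℤ) → ℂ) : Lf w 0 = 0 := map_zero _

theorem Lf_single (w : (ι → ℤ) → ℂ) (z : ι → ℤ) : Lf w (Finsupp.single z 1) = w z := by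
  unfold Lf
  rw [Finsupp.linearCombination_single, one_smul]

theorem coeff_g (f : LaurI ι) (z : ι → ℤ) :
    (AddMonoidAlgebra.single z 1 - f).coeff = Finsupp.single z 1 - f.coeff := rfl

theorem support_g (f : LaurI ι) (z : ι → ℤ) (hz : z ∉ f.coeff.support) :
    ((Finsupp.single z (1 : ℂ) - f.coeff).support : Set (ι → ℤ)) =
      insert z (f.coeff.support : Set (ι → ℤ)) := by
  ext m
  simp only [Finset.mem_coe, Finsupp.mem_support_iff, Finsupp.sub_apply, Set.mem_insert_iff]
  have hz0 : f.coeff z = 0 := Finsupp.notMem_support_iff.1 hz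
  by_cases h : m = z
  · subst h
    simp [hz0]
  · rw [Finsupp.single_apply, if_neg (Ne.symm h), zero_sub]
    simp [h]

theorem min_bdd (f : LaurI ι) (ν : ι → ℤ) :
    BddBelow ((fun m => pairI ν m) '' (f.coeff.support : Set (ι → ℤ))) :=
  (f.coeff.support.finite_toSet.image _).bddBelow

theorem min_le (f : LaurI ι) (ν m : ι → ℤ) (hm : m ∈ f.coeff.support) :
    minOnI f ν ≤ pairI ν m :=
  csInf_le (min_bdd f ν) ⟨m, hm, rfl⟩

theorem min_g (f : LaurI ι) (hf : f ≠ 0) (ν z : ι → ℤ) (hz : z ∉ f.coeff.support) :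
    minOnI (AddMonoidAlgebra.single z 1 - f) ν = min (pairI ν z) (minOnI f ν) := by
  unfold minOnI
  rw [coeff_g, support_g f z hz, Set.image_insert_eq, csInf_insert (min_bdd f ν)]
  have : f.coeff.support.Nonempty := by
    rw [Finsupp.support_nonempty_iff]
    intro h
    apply hf
    have h2 : f = AddMonoidAlgebra.ofCoeff f.coeff := rfl
    rw [h2, h]
    rfl
  exact ⟨_, this.choose, this.choose_spec, rfl⟩

/-- a functional of the initial form -/
theorem Lf_init (w : (ι → ℤ) → ℂ) (f : LaurI ι) (ν : ι → ℤ) :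
    Lf w (initI f ν).coeff = Lf w (f.coeff.filter fun m => pairI ν m = minOnI f ν) := rfl

/-- the three cases for a functional of the initial form -/
theorem three (w : (ι → ℤ) → ℂ) (f : LaurI ι) (hf : f ≠ 0) (ν z : ι → ℤ)
    (hz : z ∉ f.coeff.support) :
    (pairI ν z < minOnI f ν → Lf w (initI (AddMonoidAlgebra.single z 1 - f) ν).coeff = w z) ∧
    (pairI ν z = minOnI f ν → Lf w (initI (AddMonoidAlgebra.single z 1 - f) ν).coeff =
      w z - Lf w (initI f ν).coeff) ∧
    (minOnI f ν < pairI ν z → Lf w (initI (AddMonoidAlgebra.single z 1 - f) ν).coeff =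
      - Lf w (initI f ν).coeff) := by
  have hm := min_g f hf ν z hz
  refine ⟨fun h => ?_, fun h => ?_, fun h => ?_⟩
  · rw [min_eq_left h.le] at hm
    rw [Lf_init, hm, coeff_g, Finsupp.filter_sub, Lf_sub,
      Finsupp.filter_single_of_pos (p := fun m => pairI ν m = pairI ν z) rfl, Lf_single]
    have h0 : (f.coeff.filter fun m => pairI ν m = pairI ν z) = 0 := by
      rw [Finsupp.filter_eq_zero_iff]
      intro m hm1
      by_contra h2
      have := min_le f ν m (Finsupp.mem_support_iff.2 h2)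
      omega
    rw [h0, Lf_zero, sub_zero]
  · rw [h, min_self] at hm
    rw [Lf_init, hm, coeff_g, Finsupp.filter_sub, Lf_sub,
      Finsupp.filter_single_of_pos (p := fun m => pairI ν m = minOnI f ν) h, Lf_single,
      Lf_init]
  · rw [min_eq_right h.le] at hm
    rw [Lf_init, hm, coeff_g, Finsupp.filter_sub, Lf_sub,
      Finsupp.filter_single_of_neg (p := fun m => pairI ν m = minOnI f ν) h.ne', Lf_zero,
      zero_sub, Lf_init]

theorem pairI_single [DecidableEq ι] (ν : ι → ℤ) (e : ι) : pairI ν (Pi.single e 1) = ν e := by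
  unfold pairI
  rw [Finset.sum_eq_single e]
  · simp
  · intro i _ hi
    simp [hi]
  · intro h
    exact absurd (Finset.mem_univ e) h

theorem monI_single [DecidableEq ι] (ξ : ι → ℂ) (e : ι) : monI ξ (Pi.single e 1) = ξ e := by
  unfold monI
  rw [Finset.prod_eq_single e]
  · simp
  · intro i _ hi
    simp [hi]
  · intro h
    exact absurd (Finset.mem_univ e) h

end INJ_aux

open INJ_aux in
theorem t_INJ : S_INJ := by
  intro k q N f hf hz ν j ξ _
  have hzn : (Pi.single (Sum.inr j) 1 : Aff N q → ℤ) ∉ f.coeff.support := by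
    intro h
    have := hz _ h j
    simp at this
  have hp : pairI ν (Pi.single (Sum.inr j) 1) = ν (Sum.inr j) := pairI_single ν _
  have hw : monI ξ (Pi.single (Sum.inr j) 1) = ξ (Sum.inr j) := monI_single ξ _
  have hg : ∀ i : Aff N q, (((Pi.single (Sum.inr j) 1 : Aff N q → ℤ) i : ℤ) : ℂ) *
      monI ξ (Pi.single (Sum.inr j) 1) = if i = Sum.inr j then ξ (Sum.inr j) else 0 := by
    intro i
    rw [hw]
    by_cases h : i = Sum.inr j
    · subst h; simp
    · rw [if_neg h]; simp [h]
  have t1 := three (fun m => monI ξ m) f hf ν _ hzn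
  have t2 := fun i : Aff N q => three (fun m => (m i : ℂ) * monI ξ m) f hf ν _ hzn
  rw [hp] at t1
  refine ⟨fun h => ?_, fun h => ⟨?_, fun i => ?_⟩, fun h => ⟨?_, fun i => ?_⟩⟩
  · rw [evI_eq, t1.1 h, hw]
  · rw [evI_eq, t1.2.1 h, hw, evI_eq]
  · rw [gradI_eq, (t2 i).2.1 (hp.trans h), hg i, gradI_eq]
  · rw [evI_eq, t1.2.2 h, evI_eq]
  · rw [gradI_eq, (t2 i).2.2 (by rw [hp]; exact h), gradI_eq]

end

end NCC
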