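import Pool.Agent.NCC.Stmts

/-!
# The inverse of a block matrix with algebraically independent entries
-/

set_option autoImplicit false

namespace NCC

open MvPolynomial

namespace INV_aux

variable {k : ℕ} {N : Fin k → ℕ}

/-- the index set of the entries of the blocks -/
abbrev Z (N : Fin k → ℕ) : Type := {z : Coord N × Coord N // z.1.1 = z.2.1}

/-- the generic block matrix -/
noncomputable def gen (F : Type) [CommRing F] (N : Fin k → ℕ) :
    Matrix (Coord N) (Coord N) (MvPolynomial (Z N) F) :=
  fun s t => if h : s.1 = t.1 then X ⟨(s, t), h⟩ else 0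

/-- the determinant polynomial -/
noncomputable def dp (F : Type) [CommRing F] (N : Fin k → ℕ) : MvPolynomial (Z N) F := (gen F N).det

theorem aeval_gen (F : Type) [CommRing F] {R : Type} [CommRing R] [Algebra F R]
    (B : Matrix (Coord N) (Coord N) R) (hB : ∀ s t, s.1 ≠ t.1 → B s t = 0) :
    aeval (fun z : Z N => B z.1.1 z.1.2) (dp F N) = B.det := by
  unfold dp
  rw [AlgHom.map_det]
  congr 1
  ext s t
  rw [AlgHom.mapMatrix_apply, Matrix.map_apply]
  unfold gen
  by_cases h : s.1 = t.1
  · rw [dif_pos h, aeval_X]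
  · rw [dif_neg h, map_zero, hB s t h]

theorem dp_ne (F : Type) [Field F] (N : Fin k → ℕ) : dp F N ≠ 0 := by
  intro h
  have h1 := aeval_gen F (R := F) (1 : Matrix (Coord N) (Coord N) F)
    (fun s t hst => Matrix.one_apply_ne fun he => hst (by rw [he]))
  rw [h, map_zero, Matrix.det_one] at h1
  exact zero_ne_one h1

theorem det_ne {F : Subfield ℂ} {A : Matrix (Coord N) (Coord N) ℂ} (hA : IsBlock A)
    (hind : AlgebraicIndependent F (ent A)) : A.det ≠ 0 := by
  rw [← aeval_gen F A hA]
  intro h
  exact dp_ne F N (hind.eq_zero_of_aeval_eq_zero _ h)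

/-- the inverse of a block matrix is a block matrix -/
theorem block_inv {A B : Matrix (Coord N) (Coord N) ℂ} (hA : IsBlock A) (h1 : A * B = 1)
    (h2 : B * A = 1) : IsBlock B := by
  classical
  intro s t hst
  let E : Matrix (Coord N) (Coord N) ℂ := Matrix.diagonal fun r => if r.1 = t.1 then 1 else 0
  have hAE : A * E = E * A := by
    ext r r'
    rw [Matrix.mul_diagonal, Matrix.diagonal_mul]
    by_cases h : r.1 = r'.1
    · rw [h, mul_comm]
    · rw [hA r r' h, zero_mul, mul_zero]
  have hBE : B * E = E * B := by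
    calc B * E = B * E * (A * B) := by rw [h1, mul_one]
      _ = B * (E * A) * B := by simp only [mul_assoc]
      _ = B * (A * E) * B := by rw [hAE]
      _ = (B * A) * (E * B) := by simp only [mul_assoc]
      _ = E * B := by rw [h2, one_mul]
  have h3 := congrFun (congrFun hBE s) t
  rw [Matrix.mul_diagonal, Matrix.diagonal_mul, if_pos rfl, if_neg hst, mul_one, zero_mul] at h3
  exact h3

end INV_aux

open INV_aux in
theorem t_INV : S_CNT → S_INV := by
  intro _ k N F A hA hind
  classical
  have hdet : IsUnit A.det := (det_ne hA hind).isUnit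
  have h1 : A * A⁻¹ = 1 := Matrix.mul_nonsing_inv A hdet
  have h2 : A⁻¹ * A = 1 := Matrix.nonsing_inv_mul A hdet
  have hB : IsBlock A⁻¹ := block_inv hA h1 h2
  refine ⟨A⁻¹, hB, h1, h2, ?_⟩
  set B : Matrix (Coord N) (Coord N) ℂ := A⁻¹ with hBdef
  -- the field generated by the entries of the inverse
  let L : IntermediateField F ℂ := IntermediateField.adjoin F (Set.range (ent B))
  have hxL : ∀ z : Z N, ent B z ∈ L := fun z => IntermediateField.subset_adjoin F _ ⟨z, rfl⟩
  have hBL : ∀ s t, B s t ∈ L := by
    intro s t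
    by_cases h : s.1 = t.1
    · exact hxL ⟨(s, t), h⟩
    · rw [hB s t h]
      exact zero_mem L
  let B' : Matrix (Coord N) (Coord N) L := fun s t => ⟨B s t, hBL s t⟩
  have hB' : (algebraMap L ℂ).mapMatrix B' = B := by
    ext s t
    rfl
  have hdB' : IsUnit B'.det := by
    refine isUnit_iff_ne_zero.2 fun h => ?_
    have h3 : B.det = 0 := by rw [← hB', ← RingHom.map_det, h, map_zero]
    have h4 : A.det * B.det = 1 := by rw [← Matrix.det_mul, h1, Matrix.det_one]
    rw [h3, mul_zero] at h4
    exact zero_ne_one h4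
  have hAL : (algebraMap L ℂ).mapMatrix B'⁻¹ = A := by
    have h3 : B * (algebraMap L ℂ).mapMatrix B'⁻¹ = 1 := by
      rw [← hB', ← map_mul, Matrix.mul_nonsing_inv _ hdB', map_one]
    calc (algebraMap L ℂ).mapMatrix B'⁻¹ = A * B * (algebraMap L ℂ).mapMatrix B'⁻¹ := by
          rw [h1, one_mul]
      _ = A := by rw [mul_assoc, h3, mul_one]
  let x : Z N → L := fun z => ⟨ent B z, hxL z⟩
  let a : Z N → L := fun z => B'⁻¹ z.1.1 z.1.2
  have ha : (L.val : L → ℂ) ∘ a = ent A := by
    funext z
    exact congrFun (congrFun hAL z.1.1) z.1.2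
  have hx : (L.val : L → ℂ) ∘ x = ent B := rfl
  have hinj : Function.Injective L.val := L.val.injective
  have hai : AlgebraicIndependent F a := by
    rw [← L.val.algebraicIndependent_iff hinj, ha]
    exact hind
  have hle : Cardinal.mk (Z N) ≤ Algebra.trdeg F L := hai.cardinalMk_le_trdeg
  have halg : Algebra.IsAlgebraic (Algebra.adjoin F (Set.range x)) L := by
    refine ⟨fun z => ?_⟩
    obtain ⟨r, hr, s, hs, hz⟩ := IntermediateField.mem_adjoin_iff_div.1 z.2
    have himg : (Algebra.adjoin F (Set.range x)).map L.val = Algebra.adjoin F (Set.range (ent B)) := by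
      rw [AlgHom.map_adjoin, ← Set.range_comp, hx]
    rw [← himg] at hr hs
    obtain ⟨r', hr', hrr⟩ := hr
    obtain ⟨s', hs', hss⟩ := hs
    have hz' : z = r' / s' := by
      apply hinj
      rw [map_div₀]
      show (z : ℂ) = L.val r' / L.val s'
      rw [hz]
      exact congrArg₂ (· / ·) hrr.symm hss.symm
    rw [hz', div_eq_mul_inv]
    have h5 : IsAlgebraic (Algebra.adjoin F (Set.range x)) r' :=
      isAlgebraic_algebraMap (⟨r', hr'⟩ : Algebra.adjoin F (Set.range x))
    have h6 : IsAlgebraic (Algebra.adjoin F (Set.range x)) s' :=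
      isAlgebraic_algebraMap (⟨s', hs'⟩ : Algebra.adjoin F (Set.range x))
    exact h5.mul h6.inv
  have hb : IsTranscendenceBasis F x :=
    Algebra.IsAlgebraic.isTranscendenceBasis_of_le_trdeg_of_finite F x hle
  rw [← hx, L.val.algebraicIndependent_iff hinj]
  exact hb.1

end NCC
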