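import Pool.Agent.NCC.Stmts

/-!
# NCC: module LAT, the lattice of characters of an abelian cover
-/

set_option autoImplicit false

namespace NCC

open MvPolynomial MMCI

namespace LAT_aux

theorem zpow_sum' {K : Type} [Field K] {x : K} (hx : x ≠ 0) {σ : Type} (s : Finset σ)
    (f : σ → ℤ) : x ^ (∑ j ∈ s, f j) = ∏ j ∈ s, x ^ f j := by
  classical
  induction s using Finset.induction_on with
  | empty => simp
  | insert a s ha ih => rw [Finset.sum_insert ha, Finset.prod_insert ha, zpow_add₀ hx, ih]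

/-- a root of unity is a complex number -/
theorem exists_complex {K : Type} [Field K] [Algebra ℂ K] {z : K} {P : ℕ} (hP : 0 < P)
    (hz : z ^ P = 1) : ∃ ζ : ℂ, ζ ≠ 0 ∧ z = algebraMap ℂ K ζ := by
  have hi : IsIntegral ℂ z := by
    refine ⟨Polynomial.X ^ P - 1, Polynomial.monic_X_pow_sub_C 1 hP.ne', ?_⟩
    simp [hz]
  obtain ⟨ζ, hζ⟩ := minpoly.mem_range_of_degree_eq_one ℂ z
    (IsAlgClosed.degree_eq_one_of_irreducible ℂ (minpoly.irreducible hi))
  refine ⟨ζ, fun h => ?_, hζ.symm⟩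
  rw [h, map_zero] at hζ
  rw [← hζ, zero_pow hP.ne'] at hz
  exact zero_ne_one hz

variable {ι : Type} [Fintype ι] {M u : ℕ} {K : Type} [Field K]

/-- the character with the exponents `β`, `C` -/
noncomputable def phi (X : ι → K) (w : Fin u → K) (β : ι → ℤ) (C : Fin u → ℤ) : K :=
  monI X β * ∏ a, w a ^ C a

theorem monI_ne {X : ι → K} (hX : ∀ i, X i ≠ 0) (β : ι → ℤ) : monI X β ≠ 0 :=
  Finset.prod_ne_zero_iff.2 fun i _ => zpow_ne_zero _ (hX i)

theorem phi_ne {X : ι → K} {w : Fin u → K} (hX : ∀ i, X i ≠ 0) (hw : ∀ a, w a ≠ 0) (β : ι → ℤ)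
    (C : Fin u → ℤ) : phi X w β C ≠ 0 :=
  mul_ne_zero (monI_ne hX β) (Finset.prod_ne_zero_iff.2 fun a _ => zpow_ne_zero _ (hw a))

theorem monI_sub {X : ι → K} (hX : ∀ i, X i ≠ 0) (β β' : ι → ℤ) :
    monI X (β - β') = monI X β / monI X β' := by
  unfold monI
  rw [← Finset.prod_div_distrib]
  exact Finset.prod_congr rfl fun i _ => zpow_sub₀ (hX i) _ _

theorem phi_sub {X : ι → K} {w : Fin u → K} (hX : ∀ i, X i ≠ 0) (hw : ∀ a, w a ≠ 0)
    (β β' : ι → ℤ) (C C' : Fin u → ℤ) :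
    phi X w (β - β') (C - C') = phi X w β C / phi X w β' C' := by
  unfold phi
  rw [monI_sub hX, mul_div_mul_comm]
  congr 1
  rw [← Finset.prod_div_distrib]
  exact Finset.prod_congr rfl fun a _ => zpow_sub₀ (hw a) _ _

theorem monI_zpow (X : ι → K) (β : ι → ℤ) (n : ℤ) :
    monI X β ^ n = monI X (fun i => β i * n) := by
  unfold monI
  rw [← Finset.prod_zpow]
  exact Finset.prod_congr rfl fun i _ => (zpow_mul _ _ _).symm

theorem prod_monI {X : ι → K} (hX : ∀ i, X i ≠ 0) {σ : Type} [Fintype σ] (β : σ → ι → ℤ) :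
    ∏ j, monI X (β j) = monI X (fun i => ∑ j, β j i) := by
  unfold monI
  rw [Finset.prod_comm]
  exact Finset.prod_congr rfl fun i _ => (zpow_sum' (hX i) _ _).symm

theorem mon_phi {X : ι → K} {w : Fin u → K} (hX : ∀ i, X i ≠ 0) (hw : ∀ a, w a ≠ 0)
    (α : Fin M → ι → ℤ) (c : Fin M → Fin u → ℤ) (ν : Fin M → ℤ) :
    mon (fun j => phi X w (α j) (c j)) ν =
      phi X w (fun i => ∑ j, α j i * ν j) (fun a => ∑ j, c j a * ν j) := by
  unfold mon phi
  simp only [mul_zpow]
  rw [Finset.prod_mul_distrib]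
  congr 1
  · rw [← prod_monI hX]
    exact Finset.prod_congr rfl fun j _ => monI_zpow X (α j) (ν j)
  · simp only [← Finset.prod_zpow]
    rw [Finset.prod_comm]
    refine Finset.prod_congr rfl fun a _ => ?_
    rw [zpow_sum' (hw a)]
    exact Finset.prod_congr rfl fun j _ => (zpow_mul _ _ _).symm

/-- a character which is zero in the rational lattice is a constant -/
theorem key [Algebra ℂ K] {X : ι → K} {w : Fin u → K} {m : Fin u → ℕ} {κ : Fin u → ι → ℤ}
    (hX : ∀ i, X i ≠ 0) (hm : ∀ a, 0 < m a) (hw : ∀ a, w a ^ m a = monI X (κ a))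
    (β : ι → ℤ) (C : Fin u → ℤ)
    (h : ∀ i, (β i : ℚ) + ∑ a, (C a : ℚ) * κ a i / m a = 0) :
    ∃ ζ : ℂ, ζ ≠ 0 ∧ phi X w β C = algebraMap ℂ K ζ := by
  obtain ⟨P, hP⟩ : ∃ P : ℕ, P = ∏ a, m a := ⟨_, rfl⟩
  have hP0 : 0 < P := by
    rw [hP]
    exact Finset.prod_pos fun a _ => hm a
  obtain ⟨Q, hQ⟩ : ∃ Q : Fin u → ℕ, ∀ a, P = m a * Q a := by
    refine ⟨fun a => ∏ b ∈ Finset.univ.erase a, m b, fun a => ?_⟩
    rw [hP]
    exact (Finset.mul_prod_erase Finset.univ m (Finset.mem_univ a)).symm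
  refine exists_complex hP0 ?_
  have h1 : ∀ a, (w a ^ C a) ^ (P : ℤ) = monI X (fun i => κ a i * (C a * Q a)) := by
    intro a
    have e : C a * (P : ℤ) = (m a : ℤ) * (C a * Q a) := by
      rw [hQ a]
      push_cast
      ring
    rw [← zpow_mul, e, zpow_mul, zpow_natCast, hw, monI_zpow]
  have h2 : phi X w β C ^ (P : ℤ) = 1 := by
    unfold phi
    rw [mul_zpow, monI_zpow, ← Finset.prod_zpow, Finset.prod_congr rfl fun a _ => h1 a,
      prod_monI hX]
    unfold monI
    rw [← Finset.prod_mul_distrib]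
    refine Finset.prod_eq_one fun i _ => ?_
    rw [← zpow_add₀ (hX i)]
    have h3 : β i * (P : ℤ) + ∑ a, κ a i * (C a * Q a) = 0 := by
      have h4 : ((β i * (P : ℤ) + ∑ a, κ a i * (C a * Q a) : ℤ) : ℚ) = 0 := by
        push_cast
        have h5 : ∑ a, (κ a i : ℚ) * ((C a : ℚ) * Q a) =
            (∑ a, (C a : ℚ) * κ a i / m a) * P := by
          rw [Finset.sum_mul]
          refine Finset.sum_congr rfl fun a _ => ?_
          have h6 : (m a : ℚ) ≠ 0 := by exact_mod_cast (hm a).ne'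
          rw [hQ a]
          push_cast
          field_simp
        rw [h5, ← add_mul, h i, zero_mul]
      exact_mod_cast h4
    rw [h3, zpow_zero]
  rw [← zpow_natCast]
  exact h2

/-- a character with given coordinates in the basis -/
theorem main [Algebra ℂ K] {X : ι → K} {w : Fin u → K} {m : Fin u → ℕ} {κ : Fin u → ι → ℤ}
    (hX : ∀ i, X i ≠ 0) (hw0 : ∀ a, w a ≠ 0) (hm : ∀ a, 0 < m a)
    (hw : ∀ a, w a ^ m a = monI X (κ a)) (α : Fin M → ι → ℤ) (c : Fin M → Fin u → ℤ)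
    (β : ι → ℤ) (C : Fin u → ℤ) (ν : Fin M → ℤ)
    (h : ∀ i, (β i : ℚ) + ∑ a, (C a : ℚ) * κ a i / m a =
      ∑ j, (ν j : ℚ) * (α j i + ∑ a, (c j a : ℚ) * κ a i / m a)) :
    ∃ ζ : ℂ, ζ ≠ 0 ∧
      phi X w β C = algebraMap ℂ K ζ * mon (fun j => phi X w (α j) (c j)) ν := by
  obtain ⟨ζ, h0, h1⟩ := key hX hm hw (β - fun i => ∑ j, α j i * ν j)
    (C - fun a => ∑ j, c j a * ν j) fun i => by
      simp only [Pi.sub_apply]
      push_cast
      have h2 : ∑ a, ((C a : ℚ) - ∑ j, (c j a : ℚ) * ν j) * κ a i / m a =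
          ∑ a, (C a : ℚ) * κ a i / m a - ∑ a, (∑ j, (c j a : ℚ) * ν j) * κ a i / m a := by
        rw [← Finset.sum_sub_distrib]
        exact Finset.sum_congr rfl fun a _ => by ring
      have h3 : ∑ a, (∑ j, (c j a : ℚ) * ν j) * κ a i / m a =
          ∑ j, (ν j : ℚ) * ∑ a, (c j a : ℚ) * κ a i / m a := by
        simp only [Finset.sum_mul, Finset.sum_div, Finset.mul_sum]
        rw [Finset.sum_comm]
        exact Finset.sum_congr rfl fun j _ => Finset.sum_congr rfl fun a _ => by ring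
      have h4 := h i
      simp only [mul_add, Finset.sum_add_distrib] at h4
      have h5 : ∑ j, (ν j : ℚ) * (α j i : ℚ) = ∑ j, (α j i : ℚ) * ν j :=
        Finset.sum_congr rfl fun j _ => mul_comm _ _
      rw [h2, h3]
      rw [h5] at h4
      linarith
  refine ⟨ζ, h0, ?_⟩
  rw [← h1, phi_sub hX hw0, mon_phi hX hw0, div_mul_cancel₀ _ (phi_ne hX hw0 _ _)]

end LAT_aux

open LAT_aux

theorem t_LAT : S_LAB → S_LAT := by
  intro hL ι _ _ M u hM K _ _ X w m κ hX hmw
  obtain ⟨α, c, μ, ρ, hμ, h1, h2⟩ := hL hM m κ fun a => (hmw a).1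
  have hw0 : ∀ a, w a ≠ 0 := fun a h => by
    have h3 := (hmw a).2
    rw [h, zero_pow (hmw a).1.ne'] at h3
    exact monI_ne hX (κ a) h3.symm
  have hX1 : ∀ i, ∃ ζ : ℂ, ζ ≠ 0 ∧
      X i = algebraMap ℂ K ζ * mon (fun j => phi X w (α j) (c j)) (μ i) := by
    intro i
    obtain ⟨ζ, h0, h3⟩ := main hX hw0 (fun a => (hmw a).1) (fun a => (hmw a).2) α c
      (Pi.single i 1) 0 (μ i) fun i' => by
        rw [← h1 i i']
        simp only [Pi.zero_apply, Int.cast_zero, zero_mul, zero_div, Finset.sum_const_zero,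
          add_zero]
        by_cases h : i = i'
        · subst h
          simp
        · rw [Pi.single_eq_of_ne (Ne.symm h), if_neg h, Int.cast_zero]
    refine ⟨ζ, h0, ?_⟩
    rw [← h3]
    unfold phi monI
    simp only [Pi.zero_apply, zpow_zero, Finset.prod_const_one, mul_one]
    rw [Finset.prod_eq_single i]
    · simp
    · intro b _ hb
      rw [Pi.single_eq_of_ne hb, zpow_zero]
    · intro hb
      exact absurd (Finset.mem_univ i) hb
  have hw1 : ∀ a, ∃ ζ : ℂ, ζ ≠ 0 ∧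
      w a = algebraMap ℂ K ζ * mon (fun j => phi X w (α j) (c j)) (ρ a) := by
    intro a
    obtain ⟨ζ, h0, h3⟩ := main hX hw0 (fun a => (hmw a).1) (fun a => (hmw a).2) α c
      0 (Pi.single a 1) (ρ a) fun i' => by
        rw [← h2 a i']
        simp only [Pi.zero_apply, Int.cast_zero, zero_add]
        rw [Finset.sum_eq_single a]
        · simp
        · intro b _ hb
          rw [Pi.single_eq_of_ne hb, Int.cast_zero, zero_mul, zero_div]
        · intro hb
          exact absurd (Finset.mem_univ a) hb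
    refine ⟨ζ, h0, ?_⟩
    rw [← h3]
    unfold phi monI
    simp only [Pi.zero_apply, zpow_zero, Finset.prod_const_one, one_mul]
    rw [Finset.prod_eq_single a]
    · simp
    · intro b _ hb
      rw [Pi.single_eq_of_ne hb, zpow_zero]
    · intro hb
      exact absurd (Finset.mem_univ a) hb
  choose ζ hζ hXζ using hX1
  refine ⟨fun j => phi X w (α j) (c j), μ, ζ, fun j => phi_ne hX hw0 _ _, hμ, hζ, hXζ, ?_⟩
  have hmem : ∀ ν : Fin M → ℤ, mon (fun j => phi X w (α j) (c j)) ν ∈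
      IntermediateField.adjoin ℂ (Set.range fun j => phi X w (α j) (c j)) := fun ν =>
    prod_mem fun j _ => zpow_mem (IntermediateField.subset_adjoin _ _ (Set.mem_range_self j)) _
  rw [IntermediateField.adjoin_le_iff]
  rintro x (⟨i, rfl⟩ | ⟨a, rfl⟩)
  · rw [hXζ i]
    exact mul_mem (IntermediateField.algebraMap_mem _ _) (hmem _)
  · obtain ⟨ζ', -, h3⟩ := hw1 a
    rw [h3]
    exact mul_mem (IntermediateField.algebraMap_mem _ _) (hmem _)

end NCC
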