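import Pool.Agent.NCC.Stmts

/-!
# Homogeneous linear equations over a subfield (module LIN of NCC, MP_fa3f7f_ag)
-/

set_option autoImplicit false

namespace NCC

namespace LIN_aux

open Module

/-- Over a field: independent rows, then there are columns which form a basis, and hence a
reduced form of the matrix. -/
theorem reduced {F : Type} [Field F] {ι κ : Type} [Fintype ι] [Fintype κ] [DecidableEq ι]
    (ψ : κ → ι → F) (h : LinearIndependent F ψ) :
    ∃ S : Finset ι, S.card = Fintype.card κ ∧ ∀ s ∈ S, ∃ B : κ → F,
      ∀ t ∈ S, ∑ a, B a * ψ a t = if t = s then 1 else 0 := by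
  classical
  let M : Matrix κ ι F := Matrix.of ψ
  have hM : LinearIndependent F M.row := h
  have hr : M.rank = Fintype.card κ := hM.rank_matrix
  have hspan : Submodule.span F (Set.range M.col) = ⊤ := by
    apply Submodule.eq_top_of_finrank_eq
    rw [← Matrix.rank_eq_finrank_span_cols, hr]
    simp
  obtain ⟨κ', a, ha, hs, hl⟩ := exists_linearIndependent' F M.col
  rw [hspan] at hs
  let b : Basis κ' F (κ → F) := Basis.mk hl (by rw [hs])
  have : Finite κ' := Finite.of_injective a ha
  have : Fintype κ' := Fintype.ofFinite κ'
  have hcard : Fintype.card κ' = Fintype.card κ := by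
    rw [← Module.finrank_eq_card_basis b]; simp
  refine ⟨Finset.univ.image a, ?_, ?_⟩
  · rw [Finset.card_image_of_injective _ ha]; exact hcard
  · intro s hs'
    obtain ⟨i, _, rfl⟩ := Finset.mem_image.mp hs'
    refine ⟨fun k => b.coord i (Pi.single k 1), ?_⟩
    intro t ht
    obtain ⟨j, _, rfl⟩ := Finset.mem_image.mp ht
    have h1 : M.col (a j) = ∑ k, ψ k (a j) • (Pi.single k (1 : F) : κ → F) := by
      funext c
      simp [M, Matrix.col, Pi.single_apply]
    have h2 : b.coord i (M.col (a j)) = ∑ k, b.coord i (Pi.single k 1) * ψ k (a j) := by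
      rw [h1, map_sum]
      refine Finset.sum_congr rfl fun k _ => ?_
      rw [map_smul, smul_eq_mul, mul_comm]
    rw [← h2]
    have h3 : M.col (a j) = b j := by
      simp [b]
    rw [h3, Basis.coord_apply, Basis.repr_self, Finsupp.single_apply]
    by_cases hij : j = i
    · subst hij; simp
    · rw [if_neg hij, if_neg (fun h => hij (ha h))]

end LIN_aux

open LIN_aux in
theorem t_LIN : S_LIN := by
  intro E ι κ _ _ _ φ hφ hli lam hlam
  classical
  let ψ : κ → ι → E := fun a s => ⟨φ a s, hφ a s⟩
  have hψ : LinearIndependent E ψ := by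
    have h1 : LinearIndependent E φ := hli.restrict_scalars (by
      intro x y hxy
      have : (x : ℂ) = (y : ℂ) := by simpa [Subfield.smul_def] using hxy
      exact Subtype.ext this)
    let L : (ι → E) →ₗ[E] (ι → ℂ) :=
      { toFun := fun v s => (v s : ℂ)
        map_add' := by intro x y; funext s; simp
        map_smul' := by intro c x; funext s; simp [Subfield.smul_def] }
    have h2 : LinearIndependent E (L ∘ ψ) := h1
    exact LinearIndependent.of_comp L h2
  obtain ⟨S, hS, hB⟩ := reduced ψ hψ
  refine ⟨Sᶜ, ?_, ?_⟩
  · rw [Finset.card_compl, hS]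
    have : S.card ≤ Fintype.card ι := Finset.card_le_univ S
    omega
  · intro s
    by_cases hs : s ∈ S
    · obtain ⟨B, hB⟩ := hB s hs
      refine ⟨fun t => -((∑ a, B a * ψ a t : E) : ℂ), fun t => neg_mem (Subtype.mem _), ?_⟩
      have h0 : ∑ t, ((∑ a, B a * ψ a t : E) : ℂ) * lam t = 0 := by
        have : ∀ t, ((∑ a, B a * ψ a t : E) : ℂ) * lam t = ∑ a, (B a : ℂ) * (φ a t * lam t) := by
          intro t
          push_cast
          rw [Finset.sum_mul]
          refine Finset.sum_congr rfl fun a _ => ?_
          simp [ψ, mul_assoc]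
        simp_rw [this]
        rw [Finset.sum_comm]
        refine Finset.sum_eq_zero fun a _ => ?_
        rw [← Finset.mul_sum, hlam a, mul_zero]
      rw [← Finset.sum_add_sum_compl S] at h0
      have h1 : ∑ t ∈ S, ((∑ a, B a * ψ a t : E) : ℂ) * lam t = lam s := by
        rw [Finset.sum_eq_single s]
        · rw [hB s hs, if_pos rfl]; simp
        · intro t ht hts
          rw [hB t ht, if_neg hts]; simp
        · intro h; exact absurd hs h
      rw [h1] at h0
      simp only [neg_mul, Finset.sum_neg_distrib]
      linear_combination h0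
    · refine ⟨Pi.single s 1, ?_, ?_⟩
      · intro t
        by_cases hts : t = s
        · subst hts; simp
        · rw [Pi.single_eq_of_ne hts]; exact zero_mem _
      · rw [Finset.sum_eq_single s]
        · simp
        · intro t _ hts
          rw [Pi.single_eq_of_ne hts, zero_mul]
        · intro h
          exact absurd (Finset.mem_compl.mpr hs) h

end NCC
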