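import Pool.Agent.NCC.Stmts

/-!
# The affine system is nondegenerate for all weights
-/

set_option autoImplicit false

namespace NCC

open MvPolynomial MMCI

noncomputable section

namespace NDG_aux

variable {k q r : ℕ} {N : Fin k → ℕ}

theorem wmin_mem (ν : Aff N q → ℤ) (l : Fin k) : ∃ i : Fin (N l + 1), wt ν ⟨l, i⟩ = wmin ν l := by
  obtain ⟨i, -, hi⟩ := Finset.exists_mem_eq_inf' (s := (Finset.univ : Finset (Fin (N l + 1))))
    Finset.univ_nonempty fun i => wt ν ⟨l, i⟩
  exact ⟨i, hi.symm⟩

theorem isPoint_pt (ν : Aff N q → ℤ) (ξ : Aff N q → ℂ) (hξ : ∀ i, ξ i ≠ 0) :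
    IsPoint (pt ν ξ) := by
  intro l
  obtain ⟨i, hi⟩ := wmin_mem ν l
  refine ⟨i, ?_⟩
  unfold pt
  rw [if_pos hi]
  exact Fin.cases (motive := fun i => (Fin.cases (motive := fun _ => ℂ) 1
    (fun i => ξ (Sum.inl ⟨l, i⟩)) i : ℂ) ≠ 0) one_ne_zero (fun i => hξ _) i

theorem aff_supp (f : Poly N) {m : Aff N q → ℤ} (hm : m ∈ (aff q f).coeff.support) :
    ∃ a ∈ f.support, affExp q a = m := by
  classical
  have aff_coeff : (aff q f).coeff =
      ∑ a ∈ f.support, Finsupp.single (affExp q a) (f.coeff a) := by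
    rw [aff, AddMonoidAlgebra.coeff_sum]
    rfl
  rw [Finsupp.mem_support_iff, aff_coeff, Finsupp.finsetSum_apply] at hm
  obtain ⟨a, ha, h⟩ := Finset.exists_ne_zero_of_sum_ne_zero hm
  refine ⟨a, ha, ?_⟩
  by_contra hne
  apply h
  rw [Finsupp.single_apply, if_neg hne]

theorem aff_inr (f : Poly N) : ∀ a ∈ (aff q f).coeff.support, ∀ j, a (Sum.inr j) = 0 := by
  intro a ha j
  obtain ⟨b, -, rfl⟩ := aff_supp f ha
  rfl

theorem aff_ne_zero (hINI : S_INI) (f : Poly N) (d : Fin k → ℕ) (hf : IsMultiHom f d)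
    (hv : ∀ v : (l : Fin k) → Fin (N l + 1), eval (vert v) f ≠ 0) : aff q f ≠ 0 := by
  intro h0
  obtain ⟨-, h2⟩ := hINI (q := q) f d hf hv (fun _ => 1)
  obtain ⟨h3, -, -⟩ := h2 (fun _ => 1) (fun _ => one_ne_zero)
  have h4 : evI (fun _ => (1 : ℂ)) (initI (aff q f) fun _ => 1) = 0 := by
    rw [h0]
    unfold evI initI
    rw [AddMonoidAlgebra.coeff_ofCoeff]
    have h5 : (0 : LaurI (Aff N q)).coeff = 0 := rfl
    rw [h5, Finsupp.filter_zero, Finsupp.sum_zero_index]
  have hw : ∀ l : Fin k, wmin (N := N) (q := q) (fun _ => 1) l = 0 := by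
    intro l
    unfold wmin
    apply le_antisymm
    · exact (Finset.inf'_le _ (Finset.mem_univ (0 : Fin (N l + 1))))
    · apply Finset.le_inf'
      intro i _
      exact Fin.cases (motive := fun i => (0 : ℤ) ≤ wt (N := N) (q := q) (fun _ => 1) ⟨l, i⟩)
        (le_refl _) (fun i => by simp [wt]) i
  have h5 : pt (N := N) (q := q) (fun _ => 1) (fun _ => (1 : ℂ)) = vert (fun _ => 0) := by
    funext s
    obtain ⟨l, i⟩ := s
    unfold pt vert
    rw [hw]
    refine Fin.cases (motive := fun i => (if wt (N := N) (q := q) (fun _ => 1) ⟨l, i⟩ = 0 then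
      Fin.cases (motive := fun _ => ℂ) 1 (fun _ => (1 : ℂ)) i else 0) =
      if i = 0 then (1 : ℂ) else 0) ?_ ?_ i
    · simp [wt]
    · intro i
      simp [wt]
  rw [h4, h5] at h3
  exact hv _ h3.symm

end NDG_aux

open NDG_aux in
theorem t_NDG : S_HOM → S_INI → S_INJ → S_NDG := by
  classical
  intro hHOM hINI hINJ k q r N g h e d hg hh hNCT hVTX
  have hag : ∀ i, aff q (g i) ≠ 0 := fun i => aff_ne_zero hINI _ _ (hg i) fun v => (hVTX v).1 i
  have hah : ∀ j, aff q (h j) ≠ 0 := fun j => aff_ne_zero hINI _ _ (hh j) fun v => (hVTX v).2 j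
  refine ⟨?_, ?_⟩
  · rintro (i | j)
    · exact hag i
    · intro h0
      have h1 : (sys g h (Sum.inr j)).coeff (Pi.single (Sum.inr j) 1) = 0 := by
        rw [h0]; rfl
      have h2 : (aff q (h j)).coeff (Pi.single (Sum.inr j) 1) = 0 := by
        by_contra h3
        have := aff_inr (h j) _ (Finsupp.mem_support_iff.2 h3) j
        simp at this
      simp only [sys, Sum.elim_inr, AddMonoidAlgebra.coeff_sub, AddMonoidAlgebra.coeff_single,
        Finsupp.sub_apply, Finsupp.single_eq_same, h2] at h1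
      norm_num at h1
  · intro ν ξ hξ hz
    have hP := isPoint_pt ν ξ hξ
    set P := pt ν ξ with hPdef
    have Ig := fun i => (hINI (g i) (e i) (hg i) (fun v => (hVTX v).1 i) ν).2 ξ hξ
    have Ih := fun j => (hINI (h j) (d j) (hh j) (fun v => (hVTX v).2 j) ν).2 ξ hξ
    have hgP : ∀ i, eval P (g i) = 0 := by
      intro i
      rw [hPdef, ← (Ig i).1]
      exact hz (Sum.inl i)
    have hcase : ∀ j, (eval P (h j) ≠ 0 ∧ ∀ x, gradI ξ (initI (sys g h (Sum.inr j)) ν) x =
          (if x = Sum.inr j then ξ (Sum.inr j) else 0) - gradI ξ (initI (aff q (h j)) ν) x) ∨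
        (eval P (h j) = 0 ∧ ∀ x, gradI ξ (initI (sys g h (Sum.inr j)) ν) x =
          - gradI ξ (initI (aff q (h j)) ν) x) := by
      intro j
      obtain ⟨c1, c2, c3⟩ := hINJ (aff q (h j)) (hah j) (aff_inr (h j)) ν j ξ hξ
      have hzj := hz (Sum.inr j)
      rcases lt_trichotomy (ν (Sum.inr j)) (minOnI (aff q (h j)) ν) with hlt | heq | hgt
      · exfalso
        have := c1 hlt
        exact hξ (Sum.inr j) (this.symm.trans hzj)
      · left
        obtain ⟨a1, a2⟩ := c2 heq
        refine ⟨?_, a2⟩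
        have h6 : ξ (Sum.inr j) - evI ξ (initI (aff q (h j)) ν) = 0 := a1.symm.trans hzj
        rw [(Ih j).1] at h6
        intro h7
        rw [← hPdef, h7, sub_zero] at h6
        exact hξ _ h6
      · right
        obtain ⟨a1, a2⟩ := c3 hgt
        refine ⟨?_, a2⟩
        have h6 : - evI ξ (initI (aff q (h j)) ν) = 0 := a1.symm.trans hzj
        rw [(Ih j).1] at h6
        exact neg_eq_zero.1 h6
    rw [Fintype.linearIndependent_iff]
    intro c hc
    have hc' : ∀ x, ∑ i, c (Sum.inl i) * gradI ξ (initI (aff q (g i)) ν) x +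
        ∑ j, c (Sum.inr j) * gradI ξ (initI (sys g h (Sum.inr j)) ν) x = 0 := by
      intro x
      have := congrFun hc x
      rw [Finset.sum_apply, Fintype.sum_sum_type] at this
      simpa [sys] using this
    -- the first case
    have hA : ∀ j, eval P (h j) ≠ 0 → c (Sum.inr j) = 0 := by
      intro j hj
      have h1 := hc' (Sum.inr j)
      have h2 : ∑ i, c (Sum.inl i) * gradI ξ (initI (aff q (g i)) ν) (Sum.inr j) = 0 :=
        Finset.sum_eq_zero fun i _ => by rw [(Ig i).2.2 j, mul_zero]
      have h3 : ∑ j', c (Sum.inr j') * gradI ξ (initI (sys g h (Sum.inr j')) ν) (Sum.inr j) =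
          c (Sum.inr j) * ξ (Sum.inr j) := by
        rw [Finset.sum_eq_single j]
        · rcases hcase j with ⟨_, h4⟩ | ⟨h4, _⟩
          · rw [h4, (Ih j).2.2 j, if_pos rfl, sub_zero]
          · exact absurd h4 hj
        · intro j' _ hne
          rcases hcase j' with ⟨_, h4⟩ | ⟨_, h4⟩
          · rw [h4, (Ih j').2.2 j, if_neg (fun h5 => hne (Sum.inr_injective h5).symm), sub_zero,
              mul_zero]
          · rw [h4, (Ih j').2.2 j, neg_zero, mul_zero]
        · intro h5
          exact absurd (Finset.mem_univ j) h5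
      rw [h2, h3, zero_add] at h1
      exact (mul_eq_zero.1 h1).resolve_right (hξ _)
    -- the vector `V`
    set V : Coord N → ℂ := fun s => ∑ i, c (Sum.inl i) * grd (g i) P s -
      ∑ j, c (Sum.inr j) * grd (h j) P s with hV
    have hV1 : ∀ (l : Fin k) (i : Fin (N l)), P ⟨l, i.succ⟩ * V ⟨l, i.succ⟩ = 0 := by
      intro l i
      have h1 := hc' (Sum.inl ⟨l, i⟩)
      have h2 : ∑ i', c (Sum.inl i') * gradI ξ (initI (aff q (g i')) ν) (Sum.inl ⟨l, i⟩) =
          P ⟨l, i.succ⟩ * ∑ i', c (Sum.inl i') * grd (g i') P ⟨l, i.succ⟩ := by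
        rw [Finset.mul_sum]
        apply Finset.sum_congr rfl
        intro i' _
        rw [(Ig i').2.1 ⟨l, i⟩]
        ring
      have h3 : ∑ j, c (Sum.inr j) * gradI ξ (initI (sys g h (Sum.inr j)) ν) (Sum.inl ⟨l, i⟩) =
          - (P ⟨l, i.succ⟩ * ∑ j, c (Sum.inr j) * grd (h j) P ⟨l, i.succ⟩) := by
        rw [Finset.mul_sum, ← Finset.sum_neg_distrib]
        apply Finset.sum_congr rfl
        intro j _
        rcases hcase j with ⟨h4, _⟩ | ⟨_, h4⟩
        · rw [hA j h4]
          ring
        · rw [h4, (Ih j).2.1 ⟨l, i⟩]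
          ring
      rw [h2, h3] at h1
      rw [hV]
      simp only
      rw [mul_sub]
      linear_combination h1
    have hV0 : ∀ l : Fin k, P ⟨l, 0⟩ * V ⟨l, 0⟩ = 0 := by
      intro l
      have h1 : ∑ i : Fin (N l + 1), P ⟨l, i⟩ * V ⟨l, i⟩ = 0 := by
        have h2 : ∑ i : Fin (N l + 1), P ⟨l, i⟩ * V ⟨l, i⟩ =
            ∑ i', c (Sum.inl i') * (∑ i : Fin (N l + 1), P ⟨l, i⟩ * grd (g i') P ⟨l, i⟩) -
            ∑ j, c (Sum.inr j) * (∑ i : Fin (N l + 1), P ⟨l, i⟩ * grd (h j) P ⟨l, i⟩) := by
          simp only [hV, mul_sub, Finset.mul_sum, Finset.sum_sub_distrib]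
          congr 1
          · rw [Finset.sum_comm]
            refine Finset.sum_congr rfl fun _ _ => Finset.sum_congr rfl fun _ _ => by ring
          · rw [Finset.sum_comm]
            refine Finset.sum_congr rfl fun _ _ => Finset.sum_congr rfl fun _ _ => by ring
        rw [h2]
        have h3 : ∑ i', c (Sum.inl i') *
            (∑ i : Fin (N l + 1), P ⟨l, i⟩ * grd (g i') P ⟨l, i⟩) = 0 := by
          apply Finset.sum_eq_zero
          intro i' _
          rw [(hHOM (g i') (e i') (hg i') P).1 l, hgP i', mul_zero, mul_zero]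
        have h4 : ∑ j, c (Sum.inr j) *
            (∑ i : Fin (N l + 1), P ⟨l, i⟩ * grd (h j) P ⟨l, i⟩) = 0 := by
          apply Finset.sum_eq_zero
          intro j _
          rw [(hHOM (h j) (d j) (hh j) P).1 l]
          by_cases h5 : eval P (h j) = 0
          · rw [h5, mul_zero, mul_zero]
          · rw [hA j h5, zero_mul]
        rw [h3, h4, sub_zero]
      rw [Fin.sum_univ_succ] at h1
      rw [Finset.sum_eq_zero (fun i _ => hV1 l i), add_zero] at h1
      exact h1
    have hVs : ∀ s : Coord N, P s * V s = 0 := by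
      rintro ⟨l, i⟩
      exact Fin.cases (motive := fun i => P ⟨l, i⟩ * V ⟨l, i⟩ = 0) (hV0 l) (fun i => hV1 l i) i
    -- the relation
    have hN := hNCT P hP hgP
    rw [Fintype.linearIndependent_iff] at hN
    have hrel := hN (Sum.elim (Sum.elim (fun i => c (Sum.inl i)) fun j => - c (Sum.inr j.1))
      fun s => - V s.1) (by
        funext t
        rw [Finset.sum_apply, Fintype.sum_sum_type, Fintype.sum_sum_type]
        simp only [Sum.elim_inl, Sum.elim_inr, Pi.smul_apply, smul_eq_mul, Pi.zero_apply]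
        have h1 : ∑ j : {j // eval P (h j) = 0}, - c (Sum.inr j.1) * grd (h j.1) P t =
            ∑ j, - c (Sum.inr j) * grd (h j) P t := by
          rw [← Finset.sum_subtype (Finset.univ.filter fun j => eval P (h j) = 0) (by simp)
            (fun j => - c (Sum.inr j) * grd (h j) P t)]
          rw [Finset.sum_filter_of_ne]
          intro j _ hne
          by_contra h5
          rw [hA j h5, neg_zero, zero_mul] at hne
          exact hne rfl
        have h2 : ∑ s : {s // P s = 0}, - V s.1 * (Pi.single s.1 (1 : ℂ) : Coord N → ℂ) t =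
            - V t := by
          rw [← Finset.sum_subtype (Finset.univ.filter fun s => P s = 0) (by simp)
            (fun s => - V s * (Pi.single s (1 : ℂ) : Coord N → ℂ) t)]
          by_cases h5 : P t = 0
          · rw [Finset.sum_eq_single t]
            · rw [Pi.single_eq_same, mul_one]
            · intro s _ hne
              rw [Pi.single_eq_of_ne' hne, mul_zero]
            · intro h6
              exact absurd (Finset.mem_filter.2 ⟨Finset.mem_univ t, h5⟩) h6
          · have h7 : V t = 0 := (mul_eq_zero.1 (hVs t)).resolve_left h5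
            rw [h7, neg_zero]
            apply Finset.sum_eq_zero
            intro s hs
            have hne : s ≠ t := by
              rintro rfl
              exact h5 (Finset.mem_filter.1 hs).2
            rw [Pi.single_eq_of_ne' hne, mul_zero]
        rw [h1, h2]
        simp only [hV, neg_mul, Finset.sum_neg_distrib]
        ring)
    rintro (i | j)
    · exact hrel (Sum.inl (Sum.inl i))
    · by_cases h5 : eval P (h j) = 0
      · have := hrel (Sum.inl (Sum.inr ⟨j, h5⟩))
        exact neg_eq_zero.1 this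
      · exact hA j h5

end

end NCC
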