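import Pool.Agent.NCC.Defs

/-!
# A complex point of `Z_0`
-/

set_option autoImplicit false

namespace NCC

open MvPolynomial

namespace NUL_aux

theorem exists_point {σ : Type} [Finite σ] {K : Type} [Field K] [Algebra ℂ K] (x : σ → K) :
    ∃ p : σ → ℂ, ∀ f : MvPolynomial σ ℂ, aeval x f = 0 → eval p f = 0 := by
  classical
  by_contra hcon
  push Not at hcon
  let I : Ideal (MvPolynomial σ ℂ) := RingHom.ker (aeval x : MvPolynomial σ ℂ →ₐ[ℂ] K)
  have h1 : zeroLocus ℂ I = ∅ := by
    rw [Set.eq_empty_iff_forall_notMem]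
    intro p hp
    obtain ⟨f, hf, hne⟩ := hcon p
    apply hne
    have h2 := hp f (by rw [RingHom.mem_ker]; exact hf)
    simpa [MvPolynomial.aeval_eq_eval] using h2
  have h2 := MvPolynomial.vanishingIdeal_zeroLocus_eq_radical (K := ℂ) I
  rw [h1, vanishingIdeal_empty] at h2
  have h3 : I.radical = ⊤ := h2.symm
  rw [Ideal.radical_eq_top] at h3
  have h4 : (1 : MvPolynomial σ ℂ) ∈ I := by rw [h3]; trivial
  rw [RingHom.mem_ker, map_one] at h4
  exact one_ne_zero h4

end NUL_aux

/-- The equations of a smooth complete intersection with a point in `K` are not zero. -/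
theorem g_ne_zero {k q r : ℕ} {N : Fin k → ℕ} (g : Fin r → Poly N) (h : Fin q → Poly N)
    (hnc : NormalCrossings g h) {K : Type} [Field K] [Algebra ℂ K] (x : Coord N → K)
    (hx : ∀ l, ∃ i, x ⟨l, i⟩ = 1) (hz : ∀ i, aeval x (g i) = 0) (i : Fin r) : g i ≠ 0 := by
  obtain ⟨p, hp⟩ := NUL_aux.exists_point x
  have h1 : IsPoint p := by
    intro l
    obtain ⟨j, hj⟩ := hx l
    refine ⟨j, ?_⟩
    have h2 := hp (X ⟨l, j⟩ - 1) (by simp [hj])
    have h3 : p ⟨l, j⟩ = 1 := by
      simpa [sub_eq_zero] using h2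
    rw [h3]
    exact one_ne_zero
  have h2 := hnc p h1 fun j => hp _ (hz j)
  have h3 := h2.ne_zero (Sum.inl i)
  intro h0
  apply h3
  funext s
  simp [grd, h0]

end NCC
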