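import Pool.Agent.NCC.Stmts

/-!
# NCC: module PUL, pull back of a nondegenerate system to a finer lattice of characters
-/

set_option autoImplicit false

namespace NCC

open MvPolynomial MMCI

namespace PUL_aux

variable {ι : Type} [Fintype ι] {M : ℕ}

theorem zpow_sum'' {K : Type*} [Field K] {x : K} (hx : x ≠ 0) {σ : Type*} (s : Finset σ)
    (f : σ → ℤ) : x ^ (∑ j ∈ s, f j) = ∏ j ∈ s, x ^ f j := by
  classical
  induction s using Finset.induction_on with
  | empty => simp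
  | insert a s ha ih => rw [Finset.sum_insert ha, Finset.prod_insert ha, zpow_add₀ hx, ih]

/-- the map of the exponents -/
def Phi (μ : ι → Fin M → ℤ) (m : ι → ℤ) : Fin M → ℤ := ∑ i, m i • μ i

theorem Phi_apply (μ : ι → Fin M → ℤ) (m : ι → ℤ) (j : Fin M) :
    Phi μ m j = ∑ i, m i * μ i j := by
  unfold Phi
  rw [Finset.sum_apply]
  exact Finset.sum_congr rfl fun i _ => by rw [Pi.smul_apply, smul_eq_mul]

theorem Phi_inj (μ : ι → Fin M → ℤ) (h : LinearIndependent ℤ μ) : Function.Injective (Phi μ) := by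
  intro m m' hm
  have h1 : ∑ i, (m i - m' i) • μ i = 0 := by
    have h2 : ∑ i, m i • μ i = ∑ i, m' i • μ i := hm
    simp only [sub_smul, Finset.sum_sub_distrib, h2, sub_self]
  funext i
  exact sub_eq_zero.1 (Fintype.linearIndependent_iff.1 h _ h1 i)

theorem pull_coeff (ζ : ι → ℂ) (μ : ι → Fin M → ℤ) (f : LaurI ι) :
    (pull ζ μ f).coeff = f.coeff.sum fun m c => Finsupp.single (Phi μ m) (c * monI ζ m) := by
  unfold pull
  rw [AddMonoidAlgebra.coeff_finsuppSum]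
  rfl

/-- a sum over the terms of the pull back -/
theorem pull_sum {A : Type*} [AddCommMonoid A] (ζ : ι → ℂ) (μ : ι → Fin M → ℤ) (f : LaurI ι)
    (F : (Fin M → ℤ) → ℂ → A) (h0 : ∀ m, F m 0 = 0) (ha : ∀ m a b, F m (a + b) = F m a + F m b) :
    (pull ζ μ f).coeff.sum F = f.coeff.sum fun m c => F (Phi μ m) (c * monI ζ m) := by
  rw [pull_coeff, Finsupp.sum_sum_index h0 ha]
  exact Finsupp.sum_congr fun m _ => Finsupp.sum_single_index (h0 _)

theorem monI_ne (ζ : ι → ℂ) (hζ : ∀ i, ζ i ≠ 0) (m : ι → ℤ) : monI ζ m ≠ 0 :=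
  Finset.prod_ne_zero_iff.2 fun i _ => zpow_ne_zero _ (hζ i)

theorem pull_coeff_Phi (ζ : ι → ℂ) (μ : ι → Fin M → ℤ) (h : LinearIndependent ℤ μ) (f : LaurI ι)
    (m : ι → ℤ) : (pull ζ μ f).coeff (Phi μ m) = f.coeff m * monI ζ m := by
  classical
  rw [pull_coeff, Finsupp.sum_apply]
  simp only [Finsupp.single_apply, (Phi_inj μ h).eq_iff]
  rw [Finsupp.sum]
  rw [Finset.sum_ite_eq' f.coeff.support m]
  split_ifs with hm
  · rfl
  · rw [Finsupp.notMem_support_iff.1 hm, zero_mul]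

theorem pull_coeff_ne (ζ : ι → ℂ) (μ : ι → Fin M → ℤ) (f : LaurI ι)
    (x : Fin M → ℤ) (hx : ∀ m, Phi μ m ≠ x) : (pull ζ μ f).coeff x = 0 := by
  classical
  rw [pull_coeff, Finsupp.sum_apply]
  refine Finset.sum_eq_zero fun m _ => ?_
  change (Finsupp.single (Phi μ m) _ : (Fin M → ℤ) →₀ ℂ) x = 0
  rw [Finsupp.single_apply, if_neg (hx m)]

theorem mem_support (ζ : ι → ℂ) (hζ : ∀ i, ζ i ≠ 0) (μ : ι → Fin M → ℤ)
    (h : LinearIndependent ℤ μ) (f : LaurI ι) (x : Fin M → ℤ) :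
    x ∈ (pull ζ μ f).coeff.support ↔ ∃ m ∈ f.coeff.support, Phi μ m = x := by
  constructor
  · intro hx
    rw [Finsupp.mem_support_iff] at hx
    by_contra hc
    push Not at hc
    by_cases hr : ∃ m, Phi μ m = x
    · obtain ⟨m, rfl⟩ := hr
      rw [pull_coeff_Phi ζ μ h] at hx
      exact hc m (Finsupp.mem_support_iff.2 (left_ne_zero_of_mul hx)) rfl
    · exact hx (pull_coeff_ne ζ μ f x fun m hm => hr ⟨m, hm⟩)
  · rintro ⟨m, hm, rfl⟩
    rw [Finsupp.mem_support_iff, pull_coeff_Phi ζ μ h]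
    exact mul_ne_zero (Finsupp.mem_support_iff.1 hm) (monI_ne ζ hζ m)

/-- the weight on the coarser lattice -/
def nuI (μ : ι → Fin M → ℤ) (ν : Fin M → ℤ) (i : ι) : ℤ := pair ν (μ i)

theorem pair_Phi (μ : ι → Fin M → ℤ) (ν : Fin M → ℤ) (m : ι → ℤ) :
    pair ν (Phi μ m) = pairI (nuI μ ν) m := by
  unfold pair pairI nuI pair
  simp only [Phi_apply, Finset.mul_sum, Finset.sum_mul]
  rw [Finset.sum_comm]
  exact Finset.sum_congr rfl fun i _ => Finset.sum_congr rfl fun j _ => by ring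

theorem minOn_pull (ζ : ι → ℂ) (hζ : ∀ i, ζ i ≠ 0) (μ : ι → Fin M → ℤ)
    (h : LinearIndependent ℤ μ) (f : LaurI ι) (ν : Fin M → ℤ) :
    MMCI.minOn (pull ζ μ f) ν = minOnI f (nuI μ ν) := by
  unfold MMCI.minOn minOnI
  congr 1
  ext a
  constructor
  · rintro ⟨x, hx, rfl⟩
    obtain ⟨m, hm, rfl⟩ := (mem_support ζ hζ μ h f x).1 hx
    exact ⟨m, hm, (pair_Phi μ ν m).symm⟩
  · rintro ⟨m, hm, rfl⟩
    exact ⟨Phi μ m, (mem_support ζ hζ μ h f _).2 ⟨m, hm, rfl⟩, pair_Phi μ ν m⟩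

theorem init_pull (ζ : ι → ℂ) (hζ : ∀ i, ζ i ≠ 0) (μ : ι → Fin M → ℤ)
    (h : LinearIndependent ℤ μ) (f : LaurI ι) (ν : Fin M → ℤ) :
    initForm (pull ζ μ f) ν = pull ζ μ (initI f (nuI μ ν)) := by
  classical
  refine AddMonoidAlgebra.coeff_injective ?_
  ext x
  have h1 : (initForm (pull ζ μ f) ν).coeff x =
      if pair ν x = MMCI.minOn (pull ζ μ f) ν then (pull ζ μ f).coeff x else 0 := by
    unfold initForm
    rw [AddMonoidAlgebra.coeff_ofCoeff, Finsupp.filter_apply]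
  rw [h1]
  by_cases hr : ∃ m, Phi μ m = x
  · obtain ⟨m, rfl⟩ := hr
    rw [pull_coeff_Phi ζ μ h, pull_coeff_Phi ζ μ h, minOn_pull ζ hζ μ h, pair_Phi]
    have h2 : (initI f (nuI μ ν)).coeff m =
        if pairI (nuI μ ν) m = minOnI f (nuI μ ν) then f.coeff m else 0 := by
      unfold initI
      rw [AddMonoidAlgebra.coeff_ofCoeff, Finsupp.filter_apply]
    rw [h2]
    split_ifs
    · rfl
    · rw [zero_mul]
  · rw [pull_coeff_ne ζ μ f x fun m hm => hr ⟨m, hm⟩,
      pull_coeff_ne ζ μ _ x fun m hm => hr ⟨m, hm⟩, ite_self]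

section value

variable {K : Type*} [Field K] [Algebra ℂ K]

omit [Algebra ℂ K] in
theorem mon_Phi (μ : ι → Fin M → ℤ) (y : Fin M → K) (hy : ∀ j, y j ≠ 0) (m : ι → ℤ) :
    mon y (Phi μ m) = ∏ i, mon y (μ i) ^ m i := by
  unfold mon
  have h1 : ∀ i, (∏ j, y j ^ μ i j) ^ m i = ∏ j, y j ^ (m i * μ i j) := by
    intro i
    rw [← Finset.prod_zpow]
    exact Finset.prod_congr rfl fun j _ => by rw [← zpow_mul, mul_comm]
  simp only [h1]
  rw [Finset.prod_comm]
  refine Finset.prod_congr rfl fun j _ => ?_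
  rw [Phi_apply, zpow_sum'' (hy j)]

theorem monI_mul (ζ : ι → ℂ) (μ : ι → Fin M → ℤ) (y : Fin M → K) (hy : ∀ j, y j ≠ 0)
    (m : ι → ℤ) : monI (fun i => algebraMap ℂ K (ζ i) * mon y (μ i)) m =
      algebraMap ℂ K (monI ζ m) * mon y (Phi μ m) := by
  rw [mon_Phi μ y hy]
  unfold monI
  rw [map_prod, ← Finset.prod_mul_distrib]
  exact Finset.prod_congr rfl fun i _ => by rw [mul_zpow, map_zpow₀]

theorem ev_pull (ζ : ι → ℂ) (μ : ι → Fin M → ℤ) (y : Fin M → K) (hy : ∀ j, y j ≠ 0)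
    (f : LaurI ι) : ev y (pull ζ μ f) = evI (fun i => algebraMap ℂ K (ζ i) * mon y (μ i)) f := by
  unfold ev evI
  rw [pull_sum ζ μ f (fun m c => algebraMap ℂ K c * mon y m) (fun m => by simp)
    (fun m a b => by rw [map_add, add_mul])]
  refine Finsupp.sum_congr fun m _ => ?_
  rw [monI_mul ζ μ y hy, map_mul]
  ring

end value

theorem grad_pull (ζ : ι → ℂ) (μ : ι → Fin M → ℤ) (p : Fin M → ℂ) (hp : ∀ j, p j ≠ 0)
    (f : LaurI ι) (j : Fin M) : grad p (pull ζ μ f) j =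
      ∑ i, (μ i j : ℂ) * gradI (fun i => ζ i * mon p (μ i)) f i := by
  unfold grad gradI
  rw [pull_sum ζ μ f (fun m c => algebraMap ℂ ℂ c * (m j : ℂ) * mon p m) (fun m => by simp)
    (fun m a b => by rw [map_add, add_mul, add_mul])]
  simp only [Finsupp.sum, Finset.mul_sum]
  rw [Finset.sum_comm]
  refine Finset.sum_congr rfl fun m _ => ?_
  have h1 := monI_mul (K := ℂ) ζ μ p hp m
  simp only [Algebra.algebraMap_self, RingHom.id_apply] at h1 ⊢
  rw [h1, Phi_apply, Int.cast_sum, Finset.mul_sum, Finset.sum_mul]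
  refine Finset.sum_congr rfl fun i _ => ?_
  push_cast
  ring

/-- independence over the complex numbers -/
theorem indep (μ : ι → Fin M → ℤ) (h : LinearIndependent ℤ μ) (v : ι → ℂ)
    (hv : ∀ j, ∑ i, (μ i j : ℂ) * v i = 0) : v = 0 := by
  have hZ : LinearIndependent ℤ fun i => (fun j => (μ i j : ℚ) : Fin M → ℚ) := by
    rw [Fintype.linearIndependent_iff] at h ⊢
    intro g hg
    refine h g ?_
    funext j
    have h1 := congrFun hg j
    rw [Finset.sum_apply] at h1 ⊢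
    have h2 : ((∑ i, (g i • μ i) j : ℤ) : ℚ) = 0 := by
      rw [Int.cast_sum, ← Pi.zero_apply (M := fun _ => ℚ) j, ← h1]
      exact Finset.sum_congr rfl fun i _ => by simp
    exact_mod_cast h2
  have hQ : LinearIndependent ℚ fun i => (fun j => (μ i j : ℚ) : Fin M → ℚ) :=
    (LinearIndependent.iff_fractionRing ℤ ℚ).1 hZ
  funext i
  rw [Pi.zero_apply, ← Module.forall_dual_apply_eq_zero_iff ℚ]
  intro θ
  refine Fintype.linearIndependent_iff.1 hQ (fun i => θ (v i)) ?_ i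
  funext j
  rw [Finset.sum_apply]
  have h1 := congrArg θ (hv j)
  rw [map_sum, map_zero] at h1
  rw [Pi.zero_apply, ← h1]
  refine Finset.sum_congr rfl fun i _ => ?_
  have h2 : (μ i j : ℂ) * v i = (μ i j : ℚ) • v i := by
    rw [Rat.smul_def]
    norm_num
  rw [h2, map_smul, Pi.smul_apply, smul_eq_mul, smul_eq_mul, mul_comm]

/-- the linear map on the gradients -/
noncomputable def Lm (μ : ι → Fin M → ℤ) : (ι → ℂ) →ₗ[ℂ] (Fin M → ℂ) where
  toFun v j := ∑ i, (μ i j : ℂ) * v i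
  map_add' v w := by
    funext j
    simp only [Pi.add_apply, mul_add, Finset.sum_add_distrib]
  map_smul' c v := by
    funext j
    simp only [Pi.smul_apply, smul_eq_mul, RingHom.id_apply, Finset.mul_sum]
    exact Finset.sum_congr rfl fun i _ => by ring

theorem Lm_ker (μ : ι → Fin M → ℤ) (h : LinearIndependent ℤ μ) : LinearMap.ker (Lm μ) = ⊥ := by
  rw [LinearMap.ker_eq_bot']
  intro v hv
  exact indep μ h v fun j => congrFun hv j

end PUL_aux

open PUL_aux in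
/-- (PUL) -/
theorem t_PUL : S_PUL := by
  intro ι _ M ζ μ hζ hμ
  refine ⟨fun y hy f => ev_pull ζ μ y hy f, fun f hf h => hf ?_, fun {κ} f hf ν p hp hz => ?_⟩
  · refine AddMonoidAlgebra.coeff_injective ?_
    ext m
    have h1 := pull_coeff_Phi ζ μ hμ f m
    rw [h] at h1
    exact (mul_eq_zero.1 h1.symm).resolve_right (monI_ne ζ hζ m)
  · have h1 : ∀ i, evI (fun i => ζ i * mon p (μ i)) (initI (f i) (nuI μ ν)) = 0 := by
      intro i
      have h2 := hz i
      rw [init_pull ζ hζ μ hμ, ev_pull ζ μ p hp] at h2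
      exact h2
    have h3 := hf (nuI μ ν) (fun i => ζ i * mon p (μ i))
      (fun i => mul_ne_zero (hζ i) (Finset.prod_ne_zero_iff.2 fun j _ => zpow_ne_zero _ (hp j))) h1
    have h4 := h3.map' (Lm μ) (Lm_ker μ hμ)
    have h5 : (fun i => grad p (initForm (pull ζ μ (f i)) ν)) =
        ⇑(Lm μ) ∘ fun i => gradI (fun i => ζ i * mon p (μ i)) (initI (f i) (nuI μ ν)) := by
      funext i
      funext j
      rw [init_pull ζ hζ μ hμ, grad_pull ζ μ p hp]
      rfl
    rw [h5]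
    exact h4

end NCC
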