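import Pool.Agent.NCC.Stmts

/-!
Module NCC_SCL (MP_fa3f7f_ag): scaling of the coordinates.
-/

set_option autoImplicit false

namespace NCC

open MvPolynomial MMCI

noncomputable section

namespace SCL_aux

variable {k : ℕ} {N : Fin k → ℕ}

/-- the diagonal automorphism -/
def dg (τ : Fin k → ℂ) : (Coord N → ℂ) →ₗ[ℂ] (Coord N → ℂ) where
  toFun v t := τ t.1 * v t
  map_add' v w := by funext t; simp only [Pi.add_apply]; ring
  map_smul' c v := by funext t; simp only [Pi.smul_apply, smul_eq_mul, RingHom.id_apply]; ring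

theorem dg_apply (τ : Fin k → ℂ) (v : Coord N → ℂ) (t : Coord N) :
    dg τ v t = τ t.1 * v t := rfl

theorem dg_ker (τ : Fin k → ℂ) (hτ : ∀ l, τ l ≠ 0) : LinearMap.ker (dg (N := N) τ) = ⊥ := by
  refine LinearMap.ker_eq_bot.2 fun v w h => ?_
  funext t
  have h1 := congrFun h t
  rw [dg_apply, dg_apply] at h1
  exact mul_left_cancel₀ (hτ _) h1

theorem prod_ne (τ : Fin k → ℂ) (hτ : ∀ l, τ l ≠ 0) (d : Fin k → ℕ) : (∏ l, τ l ^ d l) ≠ 0 :=
  Finset.prod_ne_zero_iff.2 fun l _ => pow_ne_zero _ (hτ l)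

theorem row_sum (Λ : Matrix (Coord N) (Coord N) ℂ) (hΛ : IsBlock Λ) (τ : Fin k → ℂ)
    (p : Coord N → ℂ) (s : Coord N) :
    ∑ t, Λ s t * (τ t.1 * p t) = τ s.1 * ∑ t, Λ s t * p t := by
  rw [Finset.mul_sum]
  refine Finset.sum_congr rfl fun t _ => ?_
  by_cases h : s.1 = t.1
  · rw [h]; ring
  · rw [hΛ s t h]; ring

end SCL_aux

open SCL_aux in
/-- **SCL.** -/
theorem t_SCL : S_HOM → S_SCL := by
  intro hHOM k q r N g h e d hg hh Λ hΛ hTC p hp hz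
  choose i₀ hi₀ using hp
  let τ : Fin k → ℂ := fun l => (p ⟨l, i₀ l⟩)⁻¹
  have hτ : ∀ l, τ l ≠ 0 := fun l => inv_ne_zero (hi₀ l)
  let p' : Coord N → ℂ := fun s => τ s.1 * p s
  have hzero : ∀ (f : Poly N) (c : Fin k → ℕ), IsMultiHom f c → eval p f = 0 → eval p' f = 0 :=
    fun f c hf h0 => by
      rw [((hHOM f c hf p).2 τ hτ).1, h0, mul_zero]
  have hzero' : ∀ (f : Poly N) (c : Fin k → ℕ), IsMultiHom f c → ∀ s,
      grd f p s = (∏ l, τ l ^ c l)⁻¹ * (τ s.1 * grd f p' s) :=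
    fun f c hf s => by
      rw [((hHOM f c hf p).2 τ hτ).2 s, ← mul_assoc, inv_mul_cancel₀ (prod_ne τ hτ c), one_mul]
  have hT : TC g h Λ p' := hTC p' (fun l => ⟨i₀ l, inv_mul_cancel₀ (hi₀ l)⟩)
    fun i => hzero _ _ (hg i) (hz i)
  unfold TC at hT ⊢
  let φ : (Fin r ⊕ {j // eval p (h j) = 0}) ⊕ {s // ∑ t, Λ s t * p t = 0} →
      (Fin r ⊕ {j // eval p' (h j) = 0}) ⊕ {s // ∑ t, Λ s t * p' t = 0} :=
    Sum.map (Sum.map id fun j => ⟨j.1, hzero _ _ (hh j.1) j.2⟩)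
      fun s => ⟨s.1, by rw [row_sum Λ hΛ τ p s.1, s.2, mul_zero]⟩
  have hφ : Function.Injective φ :=
    Sum.map_injective.2 ⟨Sum.map_injective.2 ⟨Function.injective_id, fun a b hab => by
      have h9 := Subtype.mk.inj hab
      exact Subtype.ext h9⟩, fun a b hab => by
      have h9 := Subtype.mk.inj hab
      exact Subtype.ext h9⟩
  let u : (Fin r ⊕ {j // eval p (h j) = 0}) ⊕ {s // ∑ t, Λ s t * p t = 0} → ℂˣ :=
    Sum.elim (Sum.elim (fun i => Units.mk0 (∏ l, τ l ^ e i l)⁻¹ (inv_ne_zero (prod_ne τ hτ _)))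
      fun j => Units.mk0 (∏ l, τ l ^ d j.1 l)⁻¹ (inv_ne_zero (prod_ne τ hτ _)))
      fun s => Units.mk0 (τ s.1.1)⁻¹ (inv_ne_zero (hτ _))
  have h3 := ((hT.comp φ hφ).map' (dg τ) (dg_ker τ hτ)).units_smul u
  refine (Eq.subst (motive := fun v => LinearIndependent ℂ v) ?_ h3)
  funext x
  rcases x with (i | j) | s
  · funext t
    show (∏ l, τ l ^ e i l)⁻¹ * (τ t.1 * grd (g i) p' t) = grd (g i) p t
    exact (hzero' _ _ (hg i) t).symm
  · funext t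
    show (∏ l, τ l ^ d j.1 l)⁻¹ * (τ t.1 * grd (h j.1) p' t) = grd (h j.1) p t
    exact (hzero' _ _ (hh j.1) t).symm
  · funext t
    show (τ s.1.1)⁻¹ * (τ t.1 * Λ s.1 t) = Λ s.1 t
    by_cases hst : s.1.1 = t.1
    · rw [hst, ← mul_assoc, inv_mul_cancel₀ (hτ _), one_mul]
    · rw [hΛ _ _ hst, mul_zero, mul_zero]

end

end NCC
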