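import Pool.Agent.NCC.Stmts

/-!
# Project NCC, module SUB: substitution
-/

set_option autoImplicit false

namespace NCC

open MvPolynomial

namespace SUB_aux

variable {k : ℕ} {N : Fin k → ℕ}

theorem multiHom_zero (d : Fin k → ℕ) : IsMultiHom (0 : Poly N) d := by
  intro a ha
  simp at ha

theorem multiHom_add {f g : Poly N} {d : Fin k → ℕ} (hf : IsMultiHom f d) (hg : IsMultiHom g d) :
    IsMultiHom (f + g) d := by
  classical
  intro a ha
  rcases Finset.mem_union.1 (support_add ha) with h | h
  · exact hf a h
  · exact hg a h

theorem multiHom_sum {ι : Type} (s : Finset ι) (f : ι → Poly N) (d : Fin k → ℕ)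
    (h : ∀ i ∈ s, IsMultiHom (f i) d) : IsMultiHom (∑ i ∈ s, f i) d := by
  classical
  induction s using Finset.induction_on with
  | empty => simpa using multiHom_zero d
  | insert i s hi ih =>
    rw [Finset.sum_insert hi]
    exact multiHom_add (h i (Finset.mem_insert_self i s))
      (ih fun j hj => h j (Finset.mem_insert_of_mem hj))

theorem multiHom_mul {f g : Poly N} {d d' : Fin k → ℕ} (hf : IsMultiHom f d)
    (hg : IsMultiHom g d') : IsMultiHom (f * g) (d + d') := by
  classical
  intro a ha l
  obtain ⟨b, hb, c, hc, rfl⟩ := Finset.mem_add.1 (support_mul f g ha)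
  have h1 := hf b hb l
  have h2 := hg c hc l
  simp only [Finsupp.add_apply, Pi.add_apply, Finset.sum_add_distrib, h1, h2]

theorem multiHom_C (c : ℂ) : IsMultiHom (C c : Poly N) 0 := by
  classical
  intro a ha l
  have h1 : a = 0 := by
    by_contra hne
    have h2 : coeff a (C c : Poly N) = 0 := by
      rw [coeff_C, if_neg (fun h => hne h.symm)]
    exact (mem_support_iff.1 ha) h2
  subst h1
  simp

theorem multiHom_pow {f : Poly N} {d : Fin k → ℕ} (hf : IsMultiHom f d) (n : ℕ) :
    IsMultiHom (f ^ n) (n • d) := by
  induction n with
  | zero =>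
    rw [pow_zero, zero_smul]
    have h1 := multiHom_C (N := N) 1
    rwa [C_1] at h1
  | succ n ih =>
    rw [pow_succ, succ_nsmul]
    exact multiHom_mul ih hf

theorem multiHom_prod {ι : Type} (s : Finset ι) (f : ι → Poly N) (d : ι → Fin k → ℕ)
    (h : ∀ i ∈ s, IsMultiHom (f i) (d i)) : IsMultiHom (∏ i ∈ s, f i) (∑ i ∈ s, d i) := by
  classical
  induction s using Finset.induction_on with
  | empty =>
    rw [Finset.prod_empty, Finset.sum_empty]
    have h1 := multiHom_C (N := N) 1
    rwa [C_1] at h1
  | insert i s hi ih =>
    rw [Finset.prod_insert hi, Finset.sum_insert hi]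
    exact multiHom_mul (h i (Finset.mem_insert_self i s))
      (ih fun j hj => h j (Finset.mem_insert_of_mem hj))

/-- the multidegree of a variable -/
def dg (s : Coord N) : Fin k → ℕ := fun l => if s.1 = l then 1 else 0

theorem multiHom_X (s : Coord N) : IsMultiHom (X s : Poly N) (dg s) := by
  classical
  intro a ha l
  have h1 : a = Finsupp.single s 1 := by
    by_contra hne
    have h2 : coeff a (X s : Poly N) = 0 := by
      rw [coeff_X, if_neg (fun h => hne h.symm)]
    exact (mem_support_iff.1 ha) h2
  subst h1
  unfold dg
  obtain ⟨m, i⟩ := s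
  by_cases hm : m = l
  · subst hm
    rw [if_pos rfl, Finset.sum_eq_single i]
    · simp
    · intro j _ hj
      rw [Finsupp.single_apply, if_neg]
      intro h
      exact hj (by simpa using (Sigma.mk.inj_iff.1 h).2.symm)
    · intro h
      exact absurd (Finset.mem_univ i) h
  · rw [if_neg hm]
    apply Finset.sum_eq_zero
    intro j _
    rw [Finsupp.single_apply, if_neg]
    intro h
    exact hm (Sigma.mk.inj_iff.1 h).1

theorem multiHom_lin {A : Matrix (Coord N) (Coord N) ℂ} (hA : IsBlock A) (s : Coord N) :
    IsMultiHom (∑ t, C (A s t) * X t : Poly N) (dg s) := by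
  classical
  apply multiHom_sum
  intro t _
  by_cases hst : s.1 = t.1
  · have h1 := multiHom_mul (multiHom_C (A s t)) (multiHom_X t)
    rw [zero_add] at h1
    have h2 : dg s = dg t := by
      funext l
      unfold dg
      rw [hst]
    rw [h2]
    exact h1
  · rw [hA s t hst, C_0, zero_mul]
    exact multiHom_zero _

theorem sub_eq (A : Matrix (Coord N) (Coord N) ℂ) (f : Poly N) :
    sub A f = ∑ a ∈ f.support, C (f.coeff a) *
      ∏ s : Coord N, (∑ t, C (A s t) * X t : Poly N) ^ a s := by
  classical
  unfold sub
  rw [aeval_def, eval₂_eq']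
  rfl

theorem sub_multiHom {A : Matrix (Coord N) (Coord N) ℂ} (hA : IsBlock A) (f : Poly N)
    (d : Fin k → ℕ) (hf : IsMultiHom f d) : IsMultiHom (sub A f) d := by
  classical
  rw [sub_eq]
  apply multiHom_sum
  intro a ha
  have h1 := multiHom_mul (multiHom_C (f.coeff a)) (multiHom_prod Finset.univ
    (fun s : Coord N => (∑ t, C (A s t) * X t : Poly N) ^ a s) (fun s => a s • dg s)
    (fun s _ => multiHom_pow (multiHom_lin hA s) (a s)))
  rw [zero_add] at h1
  have h2 : ∑ s : Coord N, a s • dg s = d := by
    funext l
    rw [← hf a ha l, Finset.sum_apply, Fintype.sum_sigma, Finset.sum_eq_single l]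
    · apply Finset.sum_congr rfl
      intro i _
      simp [dg]
    · intro m _ hm
      apply Finset.sum_eq_zero
      intro i _
      simp [dg, hm]
    · intro h
      exact absurd (Finset.mem_univ l) h
  rw [h2] at h1
  exact h1

theorem sub_aeval (A : Matrix (Coord N) (Coord N) ℂ) (f : Poly N) {R : Type} [CommRing R]
    [Algebra ℂ R] (x : Coord N → R) : aeval x (sub A f) = aeval (act A x) f := by
  have h1 : (aeval x).comp (aeval (fun s : Coord N => (∑ t, C (A s t) * X t : Poly N))) =
      aeval (act A x) := by
    apply MvPolynomial.algHom_ext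
    intro s
    rw [AlgHom.comp_apply, aeval_X, aeval_X, map_sum]
    unfold act
    apply Finset.sum_congr rfl
    intro t _
    rw [map_mul, aeval_C, aeval_X]
  have h2 := congrArg (fun φ => φ f) h1
  exact h2

theorem sub_grd (A : Matrix (Coord N) (Coord N) ℂ) (f : Poly N) (p : Coord N → ℂ) (t : Coord N) :
    grd (sub A f) p t = ∑ s, A s t * grd f (act A p) s := by
  classical
  have h0 : ∀ f : Poly N, pderiv t (sub A f) = ∑ s, C (A s t) * sub A (pderiv s f) := by
    intro f
    induction f using MvPolynomial.induction_on with
    | C c =>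
      have e : sub A (C c) = C c := by
        unfold sub
        rw [aeval_C]
        rfl
      rw [e, pderiv_C]
      symm
      apply Finset.sum_eq_zero
      intro s _
      rw [pderiv_C]
      unfold sub
      rw [map_zero, mul_zero]
    | add f g hf hg =>
      have e : sub A (f + g) = sub A f + sub A g := by
        unfold sub
        rw [map_add]
      rw [e, map_add, hf, hg, ← Finset.sum_add_distrib]
      apply Finset.sum_congr rfl
      intro s _
      rw [map_add]
      unfold sub
      rw [map_add, mul_add]
    | mul_X f u hf =>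
      have hm : ∀ g h : Poly N, sub A (g * h) = sub A g * sub A h := by
        intro g h
        unfold sub
        rw [map_mul]
      have ha : ∀ g h : Poly N, sub A (g + h) = sub A g + sub A h := by
        intro g h
        unfold sub
        rw [map_add]
      have hX : sub A (X u) = ∑ s, C (A u s) * X s := by
        unfold sub
        rw [aeval_X]
      have hd : pderiv t (sub A (X u)) = C (A u t) := by
        rw [hX, map_sum, Finset.sum_eq_single t]
        · rw [pderiv_mul, pderiv_C, pderiv_X_self]
          ring
        · intro s _ hs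
          rw [pderiv_mul, pderiv_C, pderiv_X_of_ne hs]
          ring
        · intro h
          exact absurd (Finset.mem_univ t) h
      rw [hm, pderiv_mul, hf, hd]
      have e1 : ∀ s, C (A s t) * sub A (pderiv s (f * X u)) =
          C (A s t) * sub A (pderiv s f) * sub A (X u) +
            C (A s t) * (sub A f * sub A (pderiv s (X u))) := by
        intro s
        rw [pderiv_mul, ha, hm, hm]
        ring
      rw [Finset.sum_congr rfl (fun s _ => e1 s), Finset.sum_add_distrib, ← Finset.sum_mul]
      congr 1
      rw [Finset.sum_eq_single u]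
      · rw [pderiv_X_self]
        have e2 : sub A (1 : Poly N) = 1 := by
          unfold sub
          rw [map_one]
        rw [e2]
        ring
      · intro s _ hs
        rw [pderiv_X_of_ne (Ne.symm hs)]
        have e2 : sub A (0 : Poly N) = 0 := by
          unfold sub
          rw [map_zero]
        rw [e2]
        ring
      · intro h
        exact absurd (Finset.mem_univ u) h
  have h3 : ∀ g : Poly N, eval p (sub A g) = eval (act A p) g := by
    intro g
    have h4 := sub_aeval A g p
    have h5 : ∀ (q : Coord N → ℂ) (g : Poly N), aeval q g = eval q g := by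
      intro q g
      rw [aeval_def, eval₂_eq', eval_eq']
      rfl
    rw [h5, h5] at h4
    exact h4
  unfold grd
  rw [h0, map_sum]
  apply Finset.sum_congr rfl
  intro s _
  rw [map_mul, eval_C, h3]

end SUB_aux

theorem t_SUB : S_SUB := by
  intro k N A f
  exact ⟨fun hA d hf => SUB_aux.sub_multiHom hA f d hf,
    fun x => SUB_aux.sub_aeval A f x, fun p t => SUB_aux.sub_grd A f p t⟩

end NCC
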