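import Pool.Agent.NCC.Stmts

/-!
# TC: generic hyperplanes are transversal to a normal crossings divisor
-/

set_option autoImplicit false

namespace NCC

open MvPolynomial MMCI

open scoped Classical in
theorem t_TC : S_TRV → S_CHN → S_TC := by
  intro hTRV hCHN k q r N F g h hNC hg hh Λ hΛ hind p hp hpg
  have hpt : IsPoint p := by
    intro l
    obtain ⟨i, hi⟩ := hp l
    exact ⟨i, by rw [hi]; exact one_ne_zero⟩
  have hli := hNC p hpt hpg
  unfold TC
  rw [Fintype.linearIndependent_iff]
  rw [Fintype.linearIndependent_iff] at hli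
  intro a ha
  rw [Fintype.sum_sum_type] at ha
  simp only [Sum.elim_inl, Sum.elim_inr] at ha
  -- the coefficients of the rows
  set c : Coord N → ℂ := fun s =>
    if hs : ∑ t, Λ s t * p t = 0 then a (Sum.inr ⟨s, hs⟩) else 0 with hc
  have hcs : ∀ s, c s ≠ 0 → ∑ t, Λ s t * p t = 0 := by
    intro s hs
    by_contra hne
    exact hs (by simp [hc, hne])
  have hcsub : ∀ s : {s // ∑ t, Λ s t * p t = 0}, c s.1 = a (Sum.inr s) := by
    intro s
    simp only [hc]
    rw [dif_pos s.2]
  -- the sum over the rows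
  have hrow : ∀ t, (∑ s : {s // ∑ t, Λ s t * p t = 0}, a (Sum.inr s) • Λ s.1) t =
      ∑ s, c s * Λ s t := by
    intro t
    rw [Finset.sum_apply]
    have h1 : ∑ s, c s * Λ s t = ∑ s ∈ Finset.univ.filter (fun s => ∑ t, Λ s t * p t = 0),
        c s * Λ s t := by
      rw [Finset.sum_filter]
      apply Finset.sum_congr rfl
      intro s _
      by_cases hs : ∑ t, Λ s t * p t = 0
      · rw [if_pos hs]
      · rw [if_neg hs]
        have : c s = 0 := by simp [hc, hs]
        rw [this, zero_mul]
    rw [h1, Finset.sum_subtype (Finset.univ.filter (fun s => ∑ t, Λ s t * p t = 0))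
      (p := fun s => ∑ t, Λ s t * p t = 0) (fun s => by simp)]
    apply Finset.sum_congr rfl
    intro s _
    rw [hcsub s, Pi.smul_apply, smul_eq_mul]
  -- the derivations
  have hgD : ∀ D : Derivation F ℂ ℂ, ∀ x : Fin r ⊕ {j // eval p (h j) = 0},
      ∑ s, (Sum.elim (fun i => grd (g i) p) (fun j : {j // eval p (h j) = 0} => grd (h j.1) p) x) s
        * D (p s) = 0 := by
    intro D x
    rcases x with i | j
    · exact hCHN F (g i) (hg i) p (hpg i) D
    · exact hCHN F (h j.1) (hh j.1) p j.2 D
  have hV : ∀ t, ∑ s, c s * Λ s t =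
      -(∑ x : Fin r ⊕ {j // eval p (h j) = 0}, a (Sum.inl x) * (Sum.elim (fun i => grd (g i) p)
        (fun j : {j // eval p (h j) = 0} => grd (h j.1) p) x) t) := by
    intro t
    have h1 := congrFun ha t
    rw [Pi.add_apply, hrow t, Finset.sum_apply] at h1
    simp only [Pi.smul_apply, smul_eq_mul, Pi.zero_apply] at h1
    linear_combination h1
  have hc0 : c = 0 := by
    apply hTRV F Λ hΛ hind p (fun t => ∑ s, c s * Λ s t) c hp ?_ hcs (fun t => rfl)
    intro D
    have h2 : ∀ t, (∑ s, c s * Λ s t) * D (p t) =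
        -(∑ x : Fin r ⊕ {j // eval p (h j) = 0}, a (Sum.inl x) * ((Sum.elim
          (fun i => grd (g i) p)
          (fun j : {j // eval p (h j) = 0} => grd (h j.1) p) x) t * D (p t))) := by
      intro t
      rw [hV t, neg_mul, Finset.sum_mul]
      congr 1
      apply Finset.sum_congr rfl
      intro x _
      ring
    simp only [h2]
    rw [Finset.sum_neg_distrib, Finset.sum_comm]
    have h3 : ∀ x : Fin r ⊕ {j // eval p (h j) = 0}, ∑ t, a (Sum.inl x) * ((Sum.elim
          (fun i => grd (g i) p)
          (fun j : {j // eval p (h j) = 0} => grd (h j.1) p) x) t * D (p t)) = 0 := by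
      intro x
      rw [← Finset.mul_sum, hgD D x, mul_zero]
    rw [Finset.sum_eq_zero (fun x _ => h3 x), neg_zero]
  have har : ∀ s : {s // ∑ t, Λ s t * p t = 0}, a (Sum.inr s) = 0 := by
    intro s
    rw [← hcsub s, hc0]
    rfl
  have hal : ∀ x, a (Sum.inl x) = 0 := by
    apply hli (fun x => a (Sum.inl x))
    have h4 : ∑ s : {s // ∑ t, Λ s t * p t = 0}, a (Sum.inr s) • Λ s.1 = 0 := by
      apply Finset.sum_eq_zero
      intro s _
      rw [har s, zero_smul]
    rw [h4, add_zero] at ha
    exact ha
  intro x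
  rcases x with x | s
  · exact hal x
  · exact har s

end NCC
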