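import Pool.Agent.NCC.Stmts

set_option autoImplicit false

namespace NCC

open MvPolynomial MMCI

namespace TRC_aux

noncomputable section

variable {k : ℕ} {N : Fin k → ℕ}

/-- the transposed matrix as a linear map -/
def L (A : Matrix (Coord N) (Coord N) ℂ) : (Coord N → ℂ) →ₗ[ℂ] (Coord N → ℂ) :=
  Matrix.toLin' A.transpose

theorem L_apply (A : Matrix (Coord N) (Coord N) ℂ) (v : Coord N → ℂ) (t : Coord N) :
    L A v t = ∑ s, A s t * v s := by
  simp [L, Matrix.toLin'_apply, Matrix.mulVec, dotProduct, Matrix.transpose_apply]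

theorem L_ker (A Λ : Matrix (Coord N) (Coord N) ℂ) (h : A * Λ = 1) : LinearMap.ker (L A) = ⊥ := by
  rw [LinearMap.ker_eq_bot]
  intro v w hvw
  have h1 : Λ.transpose * A.transpose = 1 := by
    rw [← Matrix.transpose_mul, h, Matrix.transpose_one]
  have h2 := congrArg (Matrix.toLin' Λ.transpose) hvw
  unfold L at h2
  rwa [← Matrix.toLin'_mul_apply, ← Matrix.toLin'_mul_apply, h1, Matrix.toLin'_one] at h2

theorem act_inv (A Λ : Matrix (Coord N) (Coord N) ℂ) (h : Λ * A = 1) (p : Coord N → ℂ)
    (s : Coord N) : ∑ t, Λ s t * act A p t = p s := by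
  have h1 : (∑ t, Λ s t * act A p t) = Matrix.mulVec Λ (Matrix.mulVec A p) s := by
    simp [Matrix.mulVec, dotProduct, act]
  rw [h1, Matrix.mulVec_mulVec, h, Matrix.one_mulVec]

theorem eval_sub (hSUB : S_SUB) (A : Matrix (Coord N) (Coord N) ℂ) (f : Poly N)
    (p : Coord N → ℂ) : eval p (sub A f) = eval (act A p) f := by
  have := (hSUB A f).2.1 p
  simpa [MvPolynomial.aeval_eq_eval] using this

end

end TRC_aux

open TRC_aux in
theorem t_TRC : S_SUB → S_TRC := by
  classical
  intro hSUB k q r N g h A Λ hA hΛ hAΛ hΛA hTC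
  intro p hp hg
  have hev : ∀ f : Poly N, eval p (sub A f) = eval (act A p) f := fun f => eval_sub hSUB A f p
  have hinv : ∀ s, ∑ t, Λ s t * act A p t = p s := act_inv A Λ hΛA p
  have hp' : IsPoint (act A p) := by
    intro l
    by_contra hcon
    push Not at hcon
    obtain ⟨i, hi⟩ := hp l
    apply hi
    rw [← hinv ⟨l, i⟩]
    refine Finset.sum_eq_zero fun t _ => ?_
    by_cases ht : l = t.1
    · obtain ⟨l', i'⟩ := t
      subst ht
      rw [hcon i', mul_zero]
    · rw [hΛ ⟨l, i⟩ t ht, zero_mul]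
  have key := hTC (act A p) hp' (fun i => by rw [← hev]; exact hg i)
  unfold TC at key
  have key2 := key.map' (L A) (L_ker A Λ hAΛ)
  let e : (Fin r ⊕ {j // eval p (sub A (h j)) = 0}) ⊕ {s // p s = 0} ≃
      (Fin r ⊕ {j // eval (act A p) (h j) = 0}) ⊕ {s // ∑ t, Λ s t * act A p t = 0} :=
    Equiv.sumCongr (Equiv.sumCongr (Equiv.refl _)
      (Equiv.subtypeEquivRight fun j => by rw [hev]))
      (Equiv.subtypeEquivRight fun s => by rw [hinv])
  have key3 := key2.comp e e.injective
  refine Eq.subst (motive := fun v : (Fin r ⊕ {j // eval p (sub A (h j)) = 0}) ⊕ {s // p s = 0} →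
    (Coord N → ℂ) => LinearIndependent ℂ v) (Eq.symm ?_) key3
  funext z
  rcases z with (i | j) | s
  · funext t
    simp only [Sum.elim_inl, Function.comp_apply, e, Equiv.sumCongr_apply, Sum.map_inl,
      Equiv.refl_apply, L_apply]
    exact (hSUB A (g i)).2.2 p t
  · funext t
    simp only [Sum.elim_inl, Sum.elim_inr, Function.comp_apply, e, Equiv.sumCongr_apply,
      Sum.map_inl, Sum.map_inr, L_apply, Equiv.subtypeEquivRight_apply_coe]
    exact (hSUB A (h j.1)).2.2 p t
  · funext t
    simp only [Sum.elim_inr, Function.comp_apply, e, Equiv.sumCongr_apply,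
      Sum.map_inr, L_apply, Equiv.subtypeEquivRight_apply_coe]
    have : (∑ u, A u t * Λ s.1 u) = (Λ * A) s.1 t := by
      rw [Matrix.mul_apply]
      exact Finset.sum_congr rfl fun u _ => mul_comm _ _
    rw [this, hΛA, Matrix.one_apply, Pi.single_apply]
    by_cases hst : t = s.1
    · rw [if_pos hst, if_pos hst.symm]
    · rw [if_neg hst, if_neg fun h => hst h.symm]

end NCC
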