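import Pool.Agent.NCC.Stmts

/-! # NCC: TRV, generic hyperplanes are transversal -/

set_option autoImplicit false

namespace NCC

open MvPolynomial MMCI

noncomputable section

namespace TRV_aux

/-- the elements algebraic over `F(S)` -/
def Acl (F : Subfield ℂ) (S : Set ℂ) : IntermediateField F ℂ :=
  (algebraicClosure (IntermediateField.adjoin F S) ℂ).restrictScalars F

theorem mem_Acl {F : Subfield ℂ} {S : Set ℂ} {z : ℂ} :
    z ∈ Acl F S ↔ IsAlgebraic (IntermediateField.adjoin F S) z := by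
  rw [Acl, IntermediateField.mem_restrictScalars, mem_algebraicClosure_iff]

theorem Acl_mono {F : Subfield ℂ} {S T : Set ℂ} (h : S ⊆ T) : Acl F S ≤ Acl F T := by
  intro z hz
  rw [mem_Acl, IntermediateField.isAlgebraic_adjoin_iff] at hz ⊢
  exact hz.adjoin_of_forall_isAlgebraic fun x hx => (hx.2 (h hx.1)).elim

theorem subset_Acl {F : Subfield ℂ} {S : Set ℂ} {z : ℂ} (h : z ∈ S) : z ∈ Acl F S := by
  rw [mem_Acl]
  exact isAlgebraic_algebraMap
    (⟨z, IntermediateField.subset_adjoin F S h⟩ : IntermediateField.adjoin F S)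

/-- a transcendence basis among finitely many elements -/
theorem basis {F : Subfield ℂ} (S : Set ℂ) (hS : S.Finite) :
    ∃ (e : ℕ) (b : Fin e → ℂ), (∀ a, b a ∈ S) ∧ AlgebraicIndependent F b ∧
      ∀ z ∈ S, z ∈ Acl F (Set.range b) := by
  obtain ⟨B, hB⟩ := (AlgebraicIndependent.matroid F ℂ).exists_isBasis S
  rw [AlgebraicIndependent.matroid_isBasis_iff] at hB
  obtain ⟨h1, h2, h3⟩ := hB
  have hBf : B.Finite := hS.subset h2
  have := hBf.fintype
  let eq := Fintype.equivFin B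
  have hr : Set.range (fun a : Fin (Fintype.card B) => ((eq.symm a : B) : ℂ)) = B := by
    ext z
    constructor
    · rintro ⟨a, rfl⟩
      exact (eq.symm a).2
    · intro hz
      exact ⟨eq ⟨z, hz⟩, by simp⟩
  refine ⟨Fintype.card B, fun a => ((eq.symm a : B) : ℂ), fun a => h2 (eq.symm a).2, ?_, ?_⟩
  · exact AlgebraicIndependent.comp h1 eq.symm eq.symm.injective
  · intro z hz
    rw [mem_Acl, hr, IntermediateField.isAlgebraic_adjoin_iff]
    exact h3 z hz

theorem sumQ {k : ℕ} {N : Fin k → ℕ} (c : Coord N → ℂ)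
    [Fintype {z : Coord N × Coord N // c z.1 ≠ 0 ∧ z.1.1 = z.2.1}]
    (Λ : Matrix (Coord N) (Coord N) ℂ) (hΛ : IsBlock Λ) (g : Coord N → Coord N → ℂ)
    (hg : ∀ s t, c s = 0 → g s t = 0) :
    ∑ z : {z : Coord N × Coord N // c z.1 ≠ 0 ∧ z.1.1 = z.2.1}, g z.1.1 z.1.2 * Λ z.1.1 z.1.2 =
      ∑ s, ∑ t, g s t * Λ s t := by
  classical
  rw [← Fintype.sum_prod_type' (f := fun s t => g s t * Λ s t)]
  rw [← Finset.sum_subtype (Finset.univ.filter fun z : Coord N × Coord N =>
    c z.1 ≠ 0 ∧ z.1.1 = z.2.1) (by simp) (fun z : Coord N × Coord N => g z.1 z.2 * Λ z.1 z.2)]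
  refine Finset.sum_subset (Finset.subset_univ _) ?_
  intro z _ hz
  rw [Finset.mem_filter] at hz
  by_cases h1 : c z.1 = 0
  · rw [hg _ _ h1, zero_mul]
  · by_cases h2 : z.1.1 = z.2.1
    · exact (hz ⟨Finset.mem_univ _, h1, h2⟩).elim
    · rw [hΛ _ _ h2, mul_zero]

end TRV_aux

open TRV_aux in
theorem t_TRV : S_DER2 → S_CNT → S_LIN → S_TRV := by
  classical
  intro hDER hCNT hLIN k N F Λ hΛ hind p V c hp hV hrow hcol
  by_contra hc
  obtain ⟨s₁, hs₁⟩ : ∃ s, c s ≠ 0 := by
    by_contra h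
    exact hc (funext fun s => by_contra fun h2 => h ⟨s, h2⟩)
  -- the elements `p t`
  let S : Set ℂ := p '' {t | ∃ s, c s ≠ 0 ∧ s.1 = t.1}
  have hS : S.Finite := (Set.toFinite _).image p
  obtain ⟨e, b, hbS, hbI, hbA⟩ := basis (F := F) S hS
  let E : IntermediateField F ℂ := Acl F (Set.range b)
  obtain ⟨D, hD1, hD2⟩ := hDER F E b (fun a => subset_Acl ⟨a, rfl⟩) hbI fun z hz => mem_Acl.1 hz
  have hpE : ∀ s t : Coord N, c s ≠ 0 → s.1 = t.1 → p t ∈ E := fun s t h1 h2 =>
    hbA _ ⟨t, ⟨s, h1, h2⟩, rfl⟩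
  let c' : Coord N → ℂ := fun s => c s / c s₁
  have hc' : ∀ s, c s ≠ 0 → c' s ≠ 0 := fun s h => div_ne_zero h hs₁
  let φ : {s : Coord N // c s ≠ 0} ⊕ Fin e →
      {z : Coord N × Coord N // c z.1 ≠ 0 ∧ z.1.1 = z.2.1} → ℂ :=
    Sum.elim (fun s z => if z.1.1 = s.1 then p z.1.2 else 0)
      fun a z => c' z.1.1 * D a (p z.1.2)
  let lam : {z : Coord N × Coord N // c z.1 ≠ 0 ∧ z.1.1 = z.2.1} → ℂ := fun z => Λ z.1.1 z.1.2
  let G : IntermediateField F ℂ :=
    Acl F (Set.range b ∪ c' '' {s | c s ≠ 0 ∧ s ≠ s₁})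
  have hEG : E ≤ G := Acl_mono Set.subset_union_left
  have hφG : ∀ a s, φ a s ∈ G.toSubfield := by
    rintro (s | a) z
    · change (if z.1.1 = s.1 then p z.1.2 else 0) ∈ G
      split_ifs
      · exact hEG (hpE _ _ z.2.1 z.2.2)
      · exact G.zero_mem
    · change c' z.1.1 * D a (p z.1.2) ∈ G
      refine G.mul_mem ?_ (hEG (hD2 a _ (hpE _ _ z.2.1 z.2.2)))
      by_cases h : z.1.1 = s₁
      · have : c' z.1.1 = 1 := by
          change c z.1.1 / c s₁ = 1
          rw [h]
          exact div_self hs₁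
        rw [this]
        exact G.one_mem
      · exact subset_Acl (Or.inr ⟨z.1.1, ⟨z.2.1, h⟩, rfl⟩)
  have hφI : LinearIndependent ℂ φ := by
    rw [Fintype.linearIndependent_iff]
    intro g hg
    have h1 : ∀ z : {z : Coord N × Coord N // c z.1 ≠ 0 ∧ z.1.1 = z.2.1},
        g (Sum.inl ⟨z.1.1, z.2.1⟩) * p z.1.2 +
          ∑ a, g (Sum.inr a) * (c' z.1.1 * D a (p z.1.2)) = 0 := by
      intro z
      have h := congrFun hg z
      rw [Finset.sum_apply, Fintype.sum_sum_type] at h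
      simp only [Pi.smul_apply, smul_eq_mul, Pi.zero_apply] at h
      refine Eq.trans ?_ h
      congr 1
      rw [Finset.sum_eq_single (⟨z.1.1, z.2.1⟩ : {s : Coord N // c s ≠ 0})]
      · change _ = _ * (if z.1.1 = z.1.1 then p z.1.2 else 0)
        rw [if_pos rfl]
      · intro s _ hs
        change _ * (if z.1.1 = s.1 then p z.1.2 else 0) = 0
        rw [if_neg, mul_zero]
        intro h
        exact hs (Subtype.ext h.symm)
      · intro h
        exact (h (Finset.mem_univ _)).elim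
    have h2 : ∀ s : {s : Coord N // c s ≠ 0}, g (Sum.inl s) = 0 := by
      intro s
      obtain ⟨i, hi⟩ := hp s.1.1
      have h := h1 ⟨(s.1, ⟨s.1.1, i⟩), s.2, rfl⟩
      simp only [hi, mul_one, Derivation.map_one_eq_zero, mul_zero, Finset.sum_const_zero,
        add_zero] at h
      exact h
    have h3 : ∀ a, g (Sum.inr a) = 0 := by
      intro a
      obtain ⟨t, ⟨s, hs1, hs2⟩, ht⟩ := hbS a
      have h := h1 ⟨(s, t), hs1, hs2⟩
      rw [h2, zero_mul, zero_add] at h
      have h4 : c' s * ∑ a, g (Sum.inr a) * D a (p t) = 0 := by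
        refine Eq.trans ?_ h
        rw [Finset.mul_sum]
        refine Finset.sum_congr rfl fun a _ => ?_
        ring
      have h5 := (mul_eq_zero.1 h4).resolve_left (hc' s hs1)
      rw [ht] at h5
      simp only [hD1, mul_ite, mul_one, mul_zero, Finset.sum_ite_eq', Finset.mem_univ,
        if_true] at h5
      exact h5
    rintro (s | a)
    · exact h2 s
    · exact h3 a
  have hφ0 : ∀ a, ∑ s, φ a s * lam s = 0 := by
    rintro (s | a)
    · have h := sumQ c Λ hΛ (fun s' t => if s' = s.1 then p t else 0) (by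
        intro s' t h
        rw [if_neg]
        intro h2
        rw [h2] at h
        exact s.2 h)
      refine Eq.trans h ?_
      rw [Finset.sum_eq_single s.1]
      · refine Eq.trans ?_ (hrow s.1 s.2)
        refine Finset.sum_congr rfl fun t _ => ?_
        rw [if_pos rfl, mul_comm]
      · intro s' _ hs'
        refine Finset.sum_eq_zero fun t _ => ?_
        rw [if_neg hs', zero_mul]
      · intro h
        exact (h (Finset.mem_univ _)).elim
    · have h := sumQ c Λ hΛ (fun s' t => c' s' * D a (p t)) (by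
        intro s' t h
        change c s' / c s₁ * D a (p t) = 0
        rw [h, zero_div, zero_mul])
      refine Eq.trans h ?_
      rw [Finset.sum_comm]
      have h2 : ∑ t, V t * D a (p t) / c s₁ = 0 := by
        rw [← Finset.sum_div, hV (D a), zero_div]
      refine Eq.trans ?_ h2
      refine Finset.sum_congr rfl fun t _ => ?_
      rw [← hcol t, Finset.sum_mul, Finset.sum_div]
      refine Finset.sum_congr rfl fun s _ => ?_
      change c s / c s₁ * D a (p t) * Λ s t = _
      ring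
  obtain ⟨T, hT1, hT2⟩ := hLIN G.toSubfield φ hφG hφI lam hφ0
  let b' : (Fin e ⊕ {s : Coord N // c s ≠ 0 ∧ s ≠ s₁}) ⊕ T → ℂ :=
    Sum.elim (Sum.elim b fun s => c' s.1) fun t => lam t.1
  have hGb : G ≤ Acl F (Set.range b') := by
    refine Acl_mono ?_
    rintro z (⟨a, rfl⟩ | ⟨s, hs, rfl⟩)
    · exact ⟨Sum.inl (Sum.inl a), rfl⟩
    · exact ⟨Sum.inl (Sum.inr ⟨s, hs⟩), rfl⟩
  have hlamI : AlgebraicIndependent F lam := by
    have := hind.comp (fun z : {z : Coord N × Coord N // c z.1 ≠ 0 ∧ z.1.1 = z.2.1} =>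
      (⟨z.1, z.2.2⟩ : {z : Coord N × Coord N // z.1.1 = z.2.1})) (by
        intro x y h
        exact Subtype.ext (Subtype.mk.inj h))
    exact this
  have hcard := hCNT F lam b' hlamI (by
    intro z
    rw [← mem_Acl]
    obtain ⟨d, hd1, hd2⟩ := hT2 z
    rw [hd2]
    refine sum_mem fun t ht => mul_mem (hGb (hd1 t)) (subset_Acl ⟨Sum.inr ⟨t, ht⟩, rfl⟩))
  have hlt : Fintype.card {s : Coord N // c s ≠ 0 ∧ s ≠ s₁} <
      Fintype.card {s : Coord N // c s ≠ 0} := by
    refine Fintype.card_lt_of_injective_of_notMem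
      (fun s : {s : Coord N // c s ≠ 0 ∧ s ≠ s₁} => (⟨s.1, s.2.1⟩ : {s : Coord N // c s ≠ 0}))
      (fun x y h => Subtype.ext (Subtype.mk.inj h)) (b := ⟨s₁, hs₁⟩) ?_
    rintro ⟨s, hs⟩
    exact s.2.2 (congrArg Subtype.val hs)
  simp only [Fintype.card_sum, Fintype.card_fin, Fintype.card_coe] at hcard hT1
  omega

end

end NCC
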