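import Pool.Agent.NCC.Stmts

/-!
# Project NCC, module VTX: the values at the vertices
-/

set_option autoImplicit false

namespace NCC

open MvPolynomial

namespace VTX_aux

variable {k : ℕ} {N : Fin k → ℕ}

/-- `A` at the vertex `v` -/
theorem act_vert {A : Matrix (Coord N) (Coord N) ℂ} (v : (l : Fin k) → Fin (N l + 1))
    (hA : IsBlock A) (s : Coord N) : act A (vert v) s = A s ⟨s.1, v s.1⟩ := by
  classical
  unfold act vert
  rw [Finset.sum_eq_single (⟨s.1, v s.1⟩ : Coord N)]
  · simp
  · intro t _ ht
    by_cases hst : s.1 = t.1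
    · have h1 : ¬ t.2 = v t.1 := by
        intro h
        apply ht
        obtain ⟨l, i⟩ := s
        obtain ⟨m, j⟩ := t
        simp only at hst h
        subst hst
        rw [h]
      rw [if_neg h1, mul_zero]
    · rw [hA s t hst]
      simp
  · intro h
    exact absurd (Finset.mem_univ _) h

end VTX_aux

theorem t_VTX : S_SUB → S_VTX := by
  classical
  intro hSUB k N F A hA hind f hf hc v h0
  have h1 := (hSUB A f).2.1 (vert v)
  have h5 : ∀ (q : Coord N → ℂ) (g : Poly N), aeval q g = eval q g := by
    intro q g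
    rw [aeval_def, eval₂_eq', eval_eq']
    rfl
  rw [h5, h5, h0] at h1
  have h2 : act A (vert v) = fun s : Coord N => A s ⟨s.1, v s.1⟩ :=
    funext fun s => VTX_aux.act_vert v hA s
  rw [h2] at h1
  -- the family `s ↦ A s (s.1, v s.1)` is a subfamily
  have h3 : AlgebraicIndependent F (fun s : Coord N => A s ⟨s.1, v s.1⟩) := by
    have h4 := hind.comp
      (fun s : Coord N => (⟨(s, ⟨s.1, v s.1⟩), rfl⟩ : {z : Coord N × Coord N // z.1.1 = z.2.1}))
      (by
        intro s t hst
        have h6 := congrArg Subtype.val hst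
        exact congrArg Prod.fst h6)
    exact h4
  -- lift `f` to `F`
  have h6 : ∃ f' : MvPolynomial (Coord N) F, MvPolynomial.map F.subtype f' = f := by
    have h7 : f ∈ Set.range (MvPolynomial.map F.subtype : MvPolynomial (Coord N) F →+* Poly N) := by
      rw [MvPolynomial.mem_range_map_iff_coeffs_subset]
      intro c hc'
      obtain ⟨a, _, rfl⟩ := MvPolynomial.mem_coeffs_iff.1 hc'
      exact ⟨⟨f.coeff a, hc a⟩, rfl⟩
    exact h7
  obtain ⟨f', hf'⟩ := h6
  have h8 : aeval (fun s : Coord N => A s ⟨s.1, v s.1⟩) f' = 0 := by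
    rw [← hf', MvPolynomial.eval_map] at h1
    rw [MvPolynomial.aeval_def]
    exact h1.symm
  have h9 := (algebraicIndependent_iff.1 h3) f' h8
  apply hf
  rw [← hf', h9, map_zero]

end NCC
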