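import Pool.Agent.NCC.AsmA
import Pool.Agent.NCC.SUB
import Pool.Agent.NCC.HOM
import Pool.Agent.NCC.CHN
import Pool.Agent.NCC.DER1
import Pool.Agent.NCC.DER2
import Pool.Agent.NCC.CNT
import Pool.Agent.NCC.LIN
import Pool.Agent.NCC.TRV
import Pool.Agent.NCC.TC
import Pool.Agent.NCC.SCL
import Pool.Agent.NCC.TRC
import Pool.Agent.NCC.IND
import Pool.Agent.NCC.INV
import Pool.Agent.NCC.VTX
import Pool.Agent.NCC.HYP
import Pool.Agent.NCC.CRD
import Pool.Agent.NCC.PUL
import Pool.Agent.NCC.LAB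
import Pool.Agent.NCC.LAT
import Pool.Agent.NCC.INI
import Pool.Agent.NCC.INJ
import Pool.Agent.NCC.NDG
import Pool.Agent.NCC.AFF
import Pool.Agent.NCC.GEN
import Pool.Agent.NCC.NZP

/-!
# The theorem for abelian covers
-/

set_option autoImplicit false

namespace NCC

open MvPolynomial MMCI MMCX

noncomputable section

theorem c_TRV : S_TRV := t_TRV (t_DER2 t_DER1) t_CNT t_LIN

theorem c_CRD : S_CRD :=
  t_CRD t_SUB (t_TC c_TRV t_CHN) (t_SCL t_HOM) (t_TRC t_SUB) t_IND (t_INV t_CNT) (t_VTX t_SUB) t_HYP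

theorem c_NDG : S_NDG := t_NDG t_HOM t_INI t_INJ

/-- Every abelian cover of a smooth complete intersection in a product of projective spaces which is
branched only along a normal crossings divisor is birational to a projective terminal variety with
nef and semiample canonical divisor, or to a Mori fibre space. -/
theorem main {k q r n u : ℕ} {N : Fin k → ℕ} (g : Fin r → Poly N)
    (h : Fin q → Poly N) (e : Fin r → Fin k → ℕ) (d : Fin q → Fin k → ℕ)
    (hg : ∀ i, IsMultiHom (g i) (e i)) (hh : ∀ j, IsMultiHom (h j) (d j))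
    (hnc : NormalCrossings g h) {K : Type} [Field K] [Algebra ℂ K]
    (x : Coord N → K) (w : Fin u → K) (m : Fin u → ℕ) (κ : Fin u → Fin q → ℤ)
    (hK : IsAbelianCover n g h d x w m κ) :
    ∃ Y : ProjModel K, MMCX.Terminal n Y ∧
      ((MMCX.Semiample n Y ∧ MMCX.Nef n Y) ∨ MMCX.MoriFibre n Y) :=
  main_of t_SUB c_CRD t_PUL (t_LAT t_LAB) c_NDG t_AFF t_GEN g h e d hg hh hnc
    (g_ne_zero g h hnc x hK.one hK.zero) x w m κ hK

end

end NCC
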