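import Pool.Agent.MMCI.DefsX

/-!
# MP_fa3f7f_ag: abelian covers branched along normal crossings divisors

Definitions. `ℙ = ℙ^(N 0) × … × ℙ^(N (k-1))` is a product of projective spaces, `g_1, …, g_r` and
`h_1, …, h_q` are multihomogeneous polynomials. The variety `Z_0 = {g_1 = … = g_r = 0} ⊆ ℙ` is a smooth
complete intersection, and the divisors `D_j = Z_0 ∩ {h_j = 0}` on it have normal crossings. `K` is the
function field of a finite abelian cover of a component of `Z_0` which is branched only along the
`D_j`.
-/

set_option autoImplicit false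

namespace NCC

open MvPolynomial

noncomputable section

variable {k q r : ℕ}

/-- The indices of the homogeneous coordinates of `ℙ^(N 0) × … × ℙ^(N (k-1))`. -/
abbrev Coord (N : Fin k → ℕ) : Type := (l : Fin k) × Fin (N l + 1)

/-- Polynomials in the homogeneous coordinates. -/
abbrev Poly (N : Fin k → ℕ) : Type := MvPolynomial (Coord N) ℂ

variable {N : Fin k → ℕ}

/-- `f` is multihomogeneous of the multidegree `d`. -/
def IsMultiHom (f : Poly N) (d : Fin k → ℕ) : Prop :=
  ∀ a ∈ f.support, ∀ l, ∑ i, a ⟨l, i⟩ = d l

/-- The gradient of `f` at `p`. -/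
def grd (f : Poly N) (p : Coord N → ℂ) : Coord N → ℂ := fun s => eval p (pderiv s f)

/-- `p` gives the homogeneous coordinates of a point of `ℙ`. -/
def IsPoint {R : Type} [Zero R] (p : Coord N → R) : Prop := ∀ l, ∃ i, p ⟨l, i⟩ ≠ 0

/-- `Z_0 = {g_1 = … = g_r = 0}` is smooth of codimension `r`, and the divisors `D_j = Z_0 ∩ {h_j = 0}`
on it have normal crossings: at every point of `Z_0` the gradients of the `g_i` and of those `h_j` which
are zero at the point are linearly independent. -/
def NormalCrossings (g : Fin r → Poly N) (h : Fin q → Poly N) : Prop :=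
  ∀ p : Coord N → ℂ, IsPoint p → (∀ i, eval p (g i) = 0) →
    LinearIndependent ℂ (Sum.elim (fun i => grd (g i) p)
      fun j : {j // eval p (h j) = 0} => grd (h j.1) p)

/-- `K` is the function field of a variety `X` of dimension `n = ∑ N_l - r > 0` with a finite morphism to
an irreducible component `Z` of `Z_0`; `x` are homogeneous coordinates of the generic point of `Z` (one
of the coordinates in each factor is one), which does not lie on the `D_j`. The extension
`K / ℂ(Z)` is generated by the functions `w_a`, `w_a ^ m_a = ∏_j h_j(x) ^ κ_(a, j)`, where `m_a` divides the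
multidegree of this product: it is abelian, and `X` (normal) is étale over the complement of the
divisors `D_j`. -/
structure IsAbelianCover (n : ℕ) (g : Fin r → Poly N) (h : Fin q → Poly N) (d : Fin q → Fin k → ℕ)
    {K : Type} [Field K] [Algebra ℂ K] (x : Coord N → K) {u : ℕ} (w : Fin u → K) (m : Fin u → ℕ)
    (κ : Fin u → Fin q → ℤ) : Prop where
  dim_eq : ∑ l, N l = r + n
  pos : 0 < n
  dim : Algebra.trdeg ℂ K = (n : Cardinal)
  one : ∀ l, ∃ i, x ⟨l, i⟩ = 1
  zero : ∀ i, aeval x (g i) = 0
  ne : ∀ j, aeval x (h j) ≠ 0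
  root : ∀ a, 0 < m a ∧ w a ^ m a = ∏ j, aeval x (h j) ^ κ a j
  unram : ∀ a l, (m a : ℤ) ∣ ∑ j, κ a j * d j l
  gen : IntermediateField.adjoin ℂ (Set.range x ∪ Set.range w) = ⊤

end

end NCC
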