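import Pool.Agent.NCC.Defs

/-!
# MP_fa3f7f_ag: abelian covers branched along normal crossings divisors: the plan

Theorem. `K` the function field of an abelian cover (`IsAbelianCover`) of a smooth complete intersection
in a product of projective spaces, branched along a normal crossings divisor. Then `K` has a
projective terminal model with `K_Y` nef (and semiample) or a Mori fibre space.

Proof. Coordinates `A` (block matrices) with entries algebraically independent over a countable field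
`F` of definition. In the new coordinates the divisors and the coordinate hyperplanes have normal
crossings on `Z_0` (`S_TRV`, `S_TC`, `S_SCL`, `S_TRC`), and the hypersurfaces avoid the vertices (`S_VTX`).
In the torus with the coordinates `x_(l, i) = X_(l, i) / X_(l, 0)` and `z_j = h_j / (monomial)` the system
`g_i(x)`, `z_j - h_j(x)` is nondegenerate for all weights (`S_NDG`), and so is its pull back to the finer
lattice of characters of the cover (`S_LAT`, `S_PUL`). Then `MMCI.main_nci` applies.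

Every module proves one statement `S_XXX` as `theorem t_XXX : S_XXX` (or with other `S_YYY` as
hypotheses, as indicated).
-/

set_option autoImplicit false

namespace NCC

open MvPolynomial MMCI

noncomputable section

/-! ### linear changes of coordinates -/

section Coordinates

variable {k q r : ℕ} {N : Fin k → ℕ}

/-- The matrix is block diagonal. -/
def IsBlock (A : Matrix (Coord N) (Coord N) ℂ) : Prop := ∀ s t, s.1 ≠ t.1 → A s t = 0

/-- The entries of the blocks. -/
def ent (A : Matrix (Coord N) (Coord N) ℂ) : {z : Coord N × Coord N // z.1.1 = z.2.1} → ℂ :=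
  fun z => A z.1.1 z.1.2

/-- The vector `A p`. -/
def act {R : Type} [CommRing R] [Algebra ℂ R] (A : Matrix (Coord N) (Coord N) ℂ)
    (p : Coord N → R) : Coord N → R := fun s => ∑ t, algebraMap ℂ R (A s t) * p t

/-- `f(A X)`. -/
def sub (A : Matrix (Coord N) (Coord N) ℂ) (f : Poly N) : Poly N :=
  aeval (fun s : Coord N => ∑ t, C (A s t) * X t) f

/-- The vertex `v` of the product of simplices. -/
def vert (v : (l : Fin k) → Fin (N l + 1)) : Coord N → ℂ := fun s => if s.2 = v s.1 then 1 else 0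

/-- The gradients of the `g_i`, of the `h_j` which are zero at `p`, and the rows of `Λ` which are zero
at `p`, are linearly independent. -/
def TC (g : Fin r → Poly N) (h : Fin q → Poly N) (Λ : Matrix (Coord N) (Coord N) ℂ)
    (p : Coord N → ℂ) : Prop :=
  LinearIndependent ℂ (Sum.elim (Sum.elim (fun i => grd (g i) p)
    fun j : {j // eval p (h j) = 0} => grd (h j.1) p)
    fun s : {s // ∑ t, Λ s t * p t = 0} => Λ s.1)

/-- The same for the coordinate hyperplanes, at all points of `Z_0`. -/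
def NCT (g : Fin r → Poly N) (h : Fin q → Poly N) : Prop :=
  ∀ p : Coord N → ℂ, IsPoint p → (∀ i, eval p (g i) = 0) →
    LinearIndependent ℂ (Sum.elim (Sum.elim (fun i => grd (g i) p)
      fun j : {j // eval p (h j) = 0} => grd (h j.1) p)
      fun s : {s // p s = 0} => (Pi.single s.1 (1 : ℂ) : Coord N → ℂ))

/-- The hypersurfaces do not contain the vertices. -/
def VTX (g : Fin r → Poly N) (h : Fin q → Poly N) : Prop :=
  ∀ v : (l : Fin k) → Fin (N l + 1), (∀ i, eval (vert v) (g i) ≠ 0) ∧ ∀ j, eval (vert v) (h j) ≠ 0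

end Coordinates

/-- (SUB) Substitution. (1) The variables of block `l` are replaced by linear forms in the same
block. (2) `aeval` of `aeval`. (3) Chain rule. All three by `MvPolynomial.induction_on` or directly. -/
def S_SUB : Prop :=
  ∀ {k : ℕ} {N : Fin k → ℕ} (A : Matrix (Coord N) (Coord N) ℂ) (f : Poly N),
    (IsBlock A → ∀ d, IsMultiHom f d → IsMultiHom (sub A f) d) ∧
    (∀ {R : Type} [CommRing R] [Algebra ℂ R] (x : Coord N → R),
      aeval x (sub A f) = aeval (act A x) f) ∧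
    ∀ (p : Coord N → ℂ) (t : Coord N), grd (sub A f) p t = ∑ s, A s t * grd f (act A p) s

/-- (HOM) Euler and scaling for multihomogeneous polynomials. -/
def S_HOM : Prop :=
  ∀ {k : ℕ} {N : Fin k → ℕ} (f : Poly N) (d : Fin k → ℕ), IsMultiHom f d → ∀ p : Coord N → ℂ,
    (∀ l, ∑ i, p ⟨l, i⟩ * grd f p ⟨l, i⟩ = d l * eval p f) ∧
    ∀ τ : Fin k → ℂ, (∀ l, τ l ≠ 0) →
      eval (fun s => τ s.1 * p s) f = (∏ l, τ l ^ d l) * eval p f ∧
      ∀ s : Coord N, τ s.1 * grd f (fun s => τ s.1 * p s) s = (∏ l, τ l ^ d l) * grd f p s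

/-- (CHN) Chain rule for a derivation which is zero on the coefficients:
`0 = D(f(p)) = ∑_s (∂f/∂X_s)(p) D(p_s)`. Lift `f` to `MvPolynomial (Coord N) F`, or use induction. -/
def S_CHN : Prop :=
  ∀ {k : ℕ} {N : Fin k → ℕ} (F : Subfield ℂ) (f : Poly N), (∀ a, f.coeff a ∈ F) →
    ∀ p : Coord N → ℂ, eval p f = 0 → ∀ D : Derivation F ℂ ℂ, ∑ s, grd f p s * D (p s) = 0

/-! ### transcendence degrees -/

/-- (DER1) The differentials of a transcendence basis are a basis of the differentials,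
characteristic zero. Port of `Pool/Agent/MldGeo/TBAS.lean` (`TBAS.main`: there `F = ℂ` and a finite index
set). -/
def S_DER1 : Prop :=
  ∀ {F E ι : Type} [Field F] [Field E] [CharZero F] [Algebra F E] (x : ι → E),
    IsTranscendenceBasis F x →
    ∃ b : Module.Basis ι E (Ω[E⁄F]), ∀ i, b i = KaehlerDifferential.D F E (x i)

/-- (DER2) from S_DER1. `E` is algebraic over `F(b)`, `b` algebraically independent: the derivations
`∂/∂b_a` extend to `ℂ` and map `E` to `E`. Proof. Extend `b` to a transcendence basis of `ℂ / F`, and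
let `D a` be the derivation of `ℂ` dual to `b a` (S_DER1 for `ℂ`). Let `δ a` be the derivation of `E` dual
to `b a` (S_DER1 for `E`, `b` is a transcendence basis of `E`). The derivations `D a` and `δ a` from `E` to
`ℂ` agree on `b`, hence are equal, as `Ω[E⁄F]` is spanned by the `d b_a`. -/
def S_DER2 : Prop :=
  ∀ (F : Subfield ℂ) (E : IntermediateField F ℂ) {e : ℕ} (b : Fin e → ℂ), (∀ a, b a ∈ E) →
    AlgebraicIndependent F b →
    (∀ z ∈ E, IsAlgebraic (IntermediateField.adjoin F (Set.range b)) z) →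
    ∃ D : Fin e → Derivation F ℂ ℂ, (∀ a c, D a (b c) = if a = c then 1 else 0) ∧
      ∀ a, ∀ z ∈ E, D a z ∈ E

/-- (CNT) Algebraically independent elements which are algebraic over `F(b)`: at most as many as the
`b`. -/
def S_CNT : Prop :=
  ∀ (F : Subfield ℂ) {ι κ : Type} [Fintype ι] [Fintype κ] (a : ι → ℂ) (b : κ → ℂ),
    AlgebraicIndependent F a →
    (∀ i, IsAlgebraic (IntermediateField.adjoin F (Set.range b)) (a i)) →
    Fintype.card ι ≤ Fintype.card κ

/-- (LIN) A solution of `R` independent homogeneous linear equations with coefficients in the field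
`E`: all but `R` of the entries determine the others over `E`. Proof. The columns of the matrix `φ`
span `E^κ` (over `E`); choose a basis of columns `S`, `#S = #κ`, `T` the complement. For `t ∈ T` the
column `t` is a combination with coefficients in `E` of the columns in `S`; substitute in
`∑_s λ_s (column s) = 0` and use that the columns in `S` are independent over `ℂ`. -/
def S_LIN : Prop :=
  ∀ (E : Subfield ℂ) {ι κ : Type} [Fintype ι] [Fintype κ] [DecidableEq ι] (φ : κ → ι → ℂ),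
    (∀ a s, φ a s ∈ E) → LinearIndependent ℂ φ → ∀ lam : ι → ℂ, (∀ a, ∑ s, φ a s * lam s = 0) →
    ∃ T : Finset ι, T.card + Fintype.card κ = Fintype.card ι ∧
      ∀ s, ∃ c : ι → ℂ, (∀ t, c t ∈ E) ∧ lam s = ∑ t ∈ T, c t * lam t

/-- (TRV) from S_DER2, S_CNT, S_LIN. Generic hyperplanes are transversal.
Proof. Let `I = {s : c s ≠ 0}`, suppose `s₁ ∈ I`, let `P` be the set of the `l` with `(l, i) ∈ I` for
some `i`, `F₁ = F(p_t : t.1 ∈ P)`, `E` the algebraic closure of `F₁` in `ℂ`, `b_1, …, b_e` a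
transcendence basis of `E / F` consisting of elements `p_t`, `t.1 ∈ P`, and `D_a` as in S_DER2. Let
`c'_s = c_s / c_(s₁)`, `G = E(c'_s)`. The unknown `Λ s t`, `s ∈ I`, `t.1 = s.1` (index set `Q`), are a solution
of the linear equations `φ_s : ∑_t p_t Λ s t = 0` (`s ∈ I`) and `ψ_a : ∑_(s, t) c'_s D_a(p_t) Λ s t = 0`
(`a = 1, …, e`; this is `∑_t D_a(p_t) V_t / c_(s₁) = 0`), with coefficients in `G`. They are independent:
in a relation `∑ α_s φ_s + ∑ β_a ψ_a = 0` the coefficient of `Λ s t`, `p_t = 1`, gives `α_s = 0` as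
`D_a(1) = 0`; then `∑ β_a D_a` is zero at all `p_t`, `t.1 ∈ P`, hence at the `b_a`, so `β = 0`. By S_LIN all the
`Λ s t` in `Q` are in the field generated by `G` and `#Q - #I - e` of them. So they are algebraic over
the field generated over `F` by the `e` elements `b_a`, the `#I - 1` elements `c'_s`, `s ≠ s₁`, and
`#Q - #I - e` of the `Λ s t`: this contradicts S_CNT, as the sum of the three numbers is `#Q - 1`. -/
def S_TRV : Prop :=
  ∀ {k : ℕ} {N : Fin k → ℕ} (F : Subfield ℂ) (Λ : Matrix (Coord N) (Coord N) ℂ), IsBlock Λ →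
    AlgebraicIndependent F (ent Λ) → ∀ p V c : Coord N → ℂ, (∀ l, ∃ i, p ⟨l, i⟩ = 1) →
    (∀ D : Derivation F ℂ ℂ, ∑ s, V s * D (p s) = 0) →
    (∀ s, c s ≠ 0 → ∑ t, Λ s t * p t = 0) → (∀ t, ∑ s, c s * Λ s t = V t) → c = 0

/-- (TC) from S_TRV, S_CHN. Proof. In a linear relation between the vectors the part of the rows of
`Λ` is `∑_s c s Λ s = V`, `V` a linear combination of gradients; `V` is as in S_TRV by S_CHN. So
`c = 0`, and the rest is `NormalCrossings`. -/
def S_TC : Prop :=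
  ∀ {k q r : ℕ} {N : Fin k → ℕ} (F : Subfield ℂ) (g : Fin r → Poly N) (h : Fin q → Poly N),
    NormalCrossings g h → (∀ i a, (g i).coeff a ∈ F) → (∀ j a, (h j).coeff a ∈ F) →
    ∀ Λ : Matrix (Coord N) (Coord N) ℂ, IsBlock Λ → AlgebraicIndependent F (ent Λ) →
    ∀ p : Coord N → ℂ, (∀ l, ∃ i, p ⟨l, i⟩ = 1) → (∀ i, eval p (g i) = 0) → TC g h Λ p

/-- (SCL) from S_HOM. `TC` for the normalized points implies `TC` for all points: scale the
coordinates `p_(l, i)` by `τ_l`; the gradients are multiplied by scalars, after the linear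
automorphism `v_(l, i) ↦ τ_l v_(l, i)`. -/
def S_SCL : Prop :=
  ∀ {k q r : ℕ} {N : Fin k → ℕ} (g : Fin r → Poly N) (h : Fin q → Poly N)
    (e : Fin r → Fin k → ℕ) (d : Fin q → Fin k → ℕ), (∀ i, IsMultiHom (g i) (e i)) →
    (∀ j, IsMultiHom (h j) (d j)) → ∀ Λ : Matrix (Coord N) (Coord N) ℂ, IsBlock Λ →
    (∀ p : Coord N → ℂ, (∀ l, ∃ i, p ⟨l, i⟩ = 1) → (∀ i, eval p (g i) = 0) → TC g h Λ p) →
    ∀ p : Coord N → ℂ, IsPoint p → (∀ i, eval p (g i) = 0) → TC g h Λ p

/-- (TRC) from S_SUB. Transport to the new coordinates: `grd (sub A f) p = Aᵀ grd f (A p)`,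
`Pi.single s 1 = Aᵀ (Λ s)`, `p_s = ∑_t Λ s t (A p)_t`. -/
def S_TRC : Prop :=
  ∀ {k q r : ℕ} {N : Fin k → ℕ} (g : Fin r → Poly N) (h : Fin q → Poly N)
    (A Λ : Matrix (Coord N) (Coord N) ℂ), IsBlock A → IsBlock Λ → A * Λ = 1 → Λ * A = 1 →
    (∀ p : Coord N → ℂ, IsPoint p → (∀ i, eval p (g i) = 0) → TC g h Λ p) →
    NCT (fun i => sub A (g i)) fun j => sub A (h j)

/-- (IND) Over a countable subfield of `ℂ` there are algebraically independent families. (`F` is the
subfield generated by `S`; `#ℂ` is the cardinality of the algebraic closure of `F(B)`, `B` a transcendence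
basis, so `B` is infinite.) -/
def S_IND : Prop :=
  ∀ (S : Set ℂ), S.Countable → ∀ (ι : Type) [Finite ι],
    ∃ (F : Subfield ℂ) (a : ι → ℂ), S ⊆ F ∧ AlgebraicIndependent F a

/-- (INV) from S_CNT. The inverse of a block matrix with algebraically independent entries: `det A ≠ 0`
(the determinant polynomial is not zero: specialize to `1`), the inverse is a block matrix (`A`
commutes with the projections to the blocks), and its entries are algebraically independent: they
generate the field of the entries of `A`; if they were dependent then a proper subfamily would be a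
transcendence basis of it, against S_CNT. -/
def S_INV : Prop :=
  ∀ {k : ℕ} {N : Fin k → ℕ} (F : Subfield ℂ) (A : Matrix (Coord N) (Coord N) ℂ), IsBlock A →
    AlgebraicIndependent F (ent A) →
    ∃ Λ : Matrix (Coord N) (Coord N) ℂ, IsBlock Λ ∧ A * Λ = 1 ∧ Λ * A = 1 ∧
      AlgebraicIndependent F (ent Λ)

/-- (VTX) `sub A f` at the vertex `v` is `f` at the columns `(l, v l)` of the blocks of `A`, and these are
distinct members of an algebraically independent family. -/
def S_VTX : Prop :=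
  ∀ {k : ℕ} {N : Fin k → ℕ} (F : Subfield ℂ) (A : Matrix (Coord N) (Coord N) ℂ), IsBlock A →
    AlgebraicIndependent F (ent A) → ∀ f : Poly N, f ≠ 0 → (∀ a, f.coeff a ∈ F) →
    ∀ v : (l : Fin k) → Fin (N l + 1), eval (vert v) (sub A f) ≠ 0

/-- (HYP) The complex solutions of a linear equation with coefficients in `K` satisfy an equation with
complex coefficients: `μ_i = θ(x_i / x_(i₀))`, `θ : K → ℂ` linear with `θ(1) = 1`. -/
def S_HYP : Prop :=
  ∀ {K : Type} [Field K] [Algebra ℂ K] {M : ℕ} (x : Fin M → K), (∃ i, x i ≠ 0) →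
    ∃ μ : Fin M → ℂ, (∃ i, μ i ≠ 0) ∧
      ∀ lam : Fin M → ℂ, ∑ i, algebraMap ℂ K (lam i) * x i = 0 → ∑ i, μ i * lam i = 0

/-- (CRD) from S_TC, S_SCL, S_TRC, S_IND, S_INV, S_VTX, S_HYP. `S` is the set of the coefficients of the
`g_i`, `h_j` and of the `μ_(l, i)` of S_HYP for the vectors `x_l`; `A` has the entries given by S_IND.
If `(Λ x)_s = 0` then `∑_i μ_(l, i) Λ s (l, i) = 0`, `s = (l, _)`, against algebraic independence. -/
def S_CRD : Prop :=
  ∀ {k q r : ℕ} {N : Fin k → ℕ} (g : Fin r → Poly N) (h : Fin q → Poly N)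
    (e : Fin r → Fin k → ℕ) (d : Fin q → Fin k → ℕ), (∀ i, IsMultiHom (g i) (e i)) →
    (∀ j, IsMultiHom (h j) (d j)) → NormalCrossings g h → (∀ i, g i ≠ 0) → (∀ j, h j ≠ 0) →
    ∀ {K : Type} [Field K] [Algebra ℂ K] (x : Coord N → K), IsPoint x →
    ∃ A Λ : Matrix (Coord N) (Coord N) ℂ, IsBlock A ∧ IsBlock Λ ∧ A * Λ = 1 ∧ Λ * A = 1 ∧
      NCT (fun i => sub A (g i)) (fun j => sub A (h j)) ∧
      VTX (fun i => sub A (g i)) (fun j => sub A (h j)) ∧ ∀ s, act Λ x s ≠ 0

/-! ### Laurent polynomials with any finite set of variables -/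

section Laurent

variable {ι : Type} [Fintype ι]

/-- Laurent polynomials in the variables `ι`. -/
abbrev LaurI (ι : Type) : Type := AddMonoidAlgebra ℂ (ι → ℤ)

/-- The monomial `x^m`. -/
def monI {F : Type*} [Field F] (x : ι → F) (m : ι → ℤ) : F := ∏ i, x i ^ m i

/-- The value of a Laurent polynomial. -/
def evI {F : Type*} [Field F] [Algebra ℂ F] (x : ι → F) (f : LaurI ι) : F :=
  f.coeff.sum fun m c => algebraMap ℂ F c * monI x m

/-- The value of `x_j ∂f/∂x_j`. -/
def gradI (x : ι → ℂ) (f : LaurI ι) (j : ι) : ℂ := f.coeff.sum fun m c => c * (m j : ℂ) * monI x m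

/-- The pairing. -/
def pairI (ν m : ι → ℤ) : ℤ := ∑ i, ν i * m i

/-- The minimum of `ν` on the exponents. -/
def minOnI (f : LaurI ι) (ν : ι → ℤ) : ℤ := sInf ((fun m => pairI ν m) '' f.coeff.support)

/-- The initial form. -/
def initI (f : LaurI ι) (ν : ι → ℤ) : LaurI ι :=
  AddMonoidAlgebra.ofCoeff (f.coeff.filter fun m => pairI ν m = minOnI f ν)

/-- Nondegeneracy for the weight `ν`. -/
def NondegI {κ : Type} (f : κ → LaurI ι) (ν : ι → ℤ) : Prop :=
  ∀ p : ι → ℂ, (∀ i, p i ≠ 0) → (∀ i, evI p (initI (f i) ν) = 0) →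
    LinearIndependent ℂ fun i => gradI p (initI (f i) ν)

/-- The Laurent polynomial `f(ζ_i y^(μ_i))` in the variables `y`. -/
def pull {M : ℕ} (ζ : ι → ℂ) (μ : ι → Fin M → ℤ) (f : LaurI ι) : Laurent M :=
  f.coeff.sum fun m c => AddMonoidAlgebra.single (∑ i, m i • μ i) (c * monI ζ m)

end Laurent

/-- (PUL) The pull back of a nondegenerate system to a finer lattice of characters is nondegenerate.
Proof. `m ↦ ∑ m_i μ_i` is injective, so the exponents of `pull f` are the images of those of `f`,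
`pair ν (∑ m_i μ_i) = pairI ν' m` with `ν'_i = pair ν (μ i)`, and `initForm (pull f) ν = pull (initI f ν')`.
For `p ∈ (ℂ^*)^M` and `ξ_i = ζ_i p^(μ_i)`: `ev p (pull f) = evI ξ f`, and
`grad p (pull f) j = ∑_i μ i j * gradI ξ f i`. The linear map with the matrix `μ` is injective on `ℂ^ι`
(the `μ i` are independent over `ℤ`, hence over `ℂ`). -/
def S_PUL : Prop :=
  ∀ {ι : Type} [Fintype ι] {M : ℕ} (ζ : ι → ℂ) (μ : ι → Fin M → ℤ), (∀ i, ζ i ≠ 0) →
    LinearIndependent ℤ μ →
    (∀ {K : Type} [Field K] [Algebra ℂ K] (y : Fin M → K), (∀ j, y j ≠ 0) → ∀ f : LaurI ι,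
      ev y (pull ζ μ f) = evI (fun i => algebraMap ℂ K (ζ i) * mon y (μ i)) f) ∧
    (∀ f : LaurI ι, f ≠ 0 → pull ζ μ f ≠ 0) ∧
    ∀ {κ : Type} (f : κ → LaurI ι), (∀ ν, NondegI f ν) → ∀ (ν : Fin M → ℤ) (p : Fin M → ℂ),
      (∀ j, p j ≠ 0) → (∀ i, ev p (initForm (pull ζ μ (f i)) ν) = 0) →
      LinearIndependent ℂ fun i => grad p (initForm (pull ζ μ (f i)) ν)

/-- (LAB) A basis of the lattice `M' = ℤ^ι + ∑_a ℤ (κ_a / m_a) ⊆ ℚ^ι`: it is finitely generated, torsion
free and spans `ℚ^ι`, so it is free of rank `M = #ι`; `b_j = α_j + ∑_a c_(j, a) κ_a / m_a` a basis, `μ` and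
`ρ` the coordinates of the unit vectors and of the `κ_a / m_a`. -/
def S_LAB : Prop :=
  ∀ {ι : Type} [Fintype ι] [DecidableEq ι] {M u : ℕ}, Fintype.card ι = M →
    ∀ (m : Fin u → ℕ) (κ : Fin u → ι → ℤ), (∀ a, 0 < m a) →
    ∃ (α : Fin M → ι → ℤ) (c : Fin M → Fin u → ℤ) (μ : ι → Fin M → ℤ) (ρ : Fin u → Fin M → ℤ),
      LinearIndependent ℤ μ ∧
      (∀ i i' : ι, (if i = i' then (1 : ℚ) else 0) =
        ∑ j, (μ i j : ℚ) * (α j i' + ∑ a, (c j a : ℚ) * κ a i' / m a)) ∧
      ∀ (a : Fin u) (i' : ι), (κ a i' : ℚ) / m a =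
        ∑ j, (ρ a j : ℚ) * (α j i' + ∑ a, (c j a : ℚ) * κ a i' / m a)

/-- (LAT) from S_LAB. The lattice of characters of an abelian cover. Proof. `M' = ℤ^ι + ∑_a ℤ (κ_a / m_a) ⊆ ℚ^ι`
is a free abelian group of rank `M = #ι`. Let `b_1, …, b_M` be a basis, `b_j = α_j + ∑_a c_(j, a) κ_a / m_a`,
`α_j ∈ ℤ^ι`, `c_(j, a) ∈ ℤ`, and `y_j = X^(α_j) ∏_a w_a^(c_(j, a))`. If `β + ∑_a C_a κ_a / m_a = 0` in `ℚ^ι` then
`X^β ∏ w_a^(C_a)` has the power `1` with the exponent `∏ m_a`, so it is a complex root of unity. Write the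
unit vectors `e_i`, and the `κ_a / m_a`, in the basis `b`: `X_i = ζ_i y^(μ_i)`, `w_a = ζ'_a y^(ρ_a)`. -/
def S_LAT : Prop :=
  ∀ {ι : Type} [Fintype ι] [DecidableEq ι] {M u : ℕ}, Fintype.card ι = M →
    ∀ {K : Type} [Field K] [Algebra ℂ K] (X : ι → K) (w : Fin u → K) (m : Fin u → ℕ)
      (κ : Fin u → ι → ℤ), (∀ i, X i ≠ 0) → (∀ a, 0 < m a ∧ w a ^ m a = monI X (κ a)) →
    ∃ (y : Fin M → K) (μ : ι → Fin M → ℤ) (ζ : ι → ℂ), (∀ j, y j ≠ 0) ∧ LinearIndependent ℤ μ ∧
      (∀ i, ζ i ≠ 0) ∧ (∀ i, X i = algebraMap ℂ K (ζ i) * mon y (μ i)) ∧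
      IntermediateField.adjoin ℂ (Set.range X ∪ Set.range w) ≤
        IntermediateField.adjoin ℂ (Set.range y)

/-! ### the affine system -/

section Affine

variable {k q r : ℕ} {N : Fin k → ℕ}

/-- The indices of the coordinates `x_(l, i)`, `i ≥ 1`, and `z_j`. -/
abbrev Aff (N : Fin k → ℕ) (q : ℕ) : Type := ((l : Fin k) × Fin (N l)) ⊕ Fin q

/-- The exponent of the dehomogenized monomial. -/
def affExp (q : ℕ) (a : Coord N →₀ ℕ) : Aff N q → ℤ := Sum.elim (fun s => (a ⟨s.1, s.2.succ⟩ : ℤ)) 0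

/-- The dehomogenized polynomial. -/
def aff (q : ℕ) (f : Poly N) : LaurI (Aff N q) :=
  ∑ a ∈ f.support, AddMonoidAlgebra.single (affExp q a) (f.coeff a)

/-- The system `g_i(x)`, `z_j - h_j(x)`. -/
def sys (g : Fin r → Poly N) (h : Fin q → Poly N) : Fin r ⊕ Fin q → LaurI (Aff N q) :=
  Sum.elim (fun i => aff q (g i))
    fun j => AddMonoidAlgebra.single (Pi.single (Sum.inr j) 1) 1 - aff q (h j)

end Affine

section Weights

variable {k q : ℕ} {N : Fin k → ℕ}

/-- The weights of the homogeneous coordinates: `ν(l, 0) = 0`. -/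
def wt (ν : Aff N q → ℤ) (s : Coord N) : ℤ :=
  Fin.cases (motive := fun _ => ℤ) 0 (fun i => ν (Sum.inl ⟨s.1, i⟩)) s.2

/-- The minimum of the weights in the block `l`. -/
def wmin (ν : Aff N q → ℤ) (l : Fin k) : ℤ :=
  Finset.univ.inf' Finset.univ_nonempty fun i => wt ν ⟨l, i⟩

/-- The point `p` of the coordinate stratum: `p_(l, i) = ξ_(l, i)` (`ξ_(l, 0) = 1`) if the weight is
minimal in the block, and `0` otherwise. -/
def pt (ν : Aff N q → ℤ) (ξ : Aff N q → ℂ) (s : Coord N) : ℂ :=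
  if wt ν s = wmin ν s.1 then Fin.cases (motive := fun _ => ℂ) 1 (fun i => ξ (Sum.inl ⟨s.1, i⟩)) s.2
  else 0

end Weights

/-- (INI) The initial forms of `aff f`, for a multihomogeneous `f` which is not zero at the vertices.
The exponents `a` of `f` have `∑_s wt ν s * a s ≥ ∑ d_l wmin l` with equality iff `a` is supported
in the set of the `s` with minimal weights, and the exponent `a` of a vertex (`a (l, v l) = d l`, all other
entries `0`) occurs. `a ↦ affExp q a` is injective on the support of `f` (multihomogeneous). The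
monomial `a` at the point `pt ν ξ` is `0` if `a` is not supported in that set, and otherwise
`monI ξ (affExp q a)`. -/
def S_INI : Prop :=
  ∀ {k q : ℕ} {N : Fin k → ℕ} (f : Poly N) (d : Fin k → ℕ), IsMultiHom f d →
    (∀ v : (l : Fin k) → Fin (N l + 1), eval (vert v) f ≠ 0) → ∀ ν : Aff N q → ℤ,
    minOnI (aff q f) ν = ∑ l, d l * wmin ν l ∧
    ∀ ξ : Aff N q → ℂ, (∀ i, ξ i ≠ 0) →
      evI ξ (initI (aff q f) ν) = eval (pt ν ξ) f ∧
      (∀ s : (l : Fin k) × Fin (N l), gradI ξ (initI (aff q f) ν) (Sum.inl s) =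
        pt ν ξ ⟨s.1, s.2.succ⟩ * grd f (pt ν ξ) ⟨s.1, s.2.succ⟩) ∧
      ∀ j, gradI ξ (initI (aff q f) ν) (Sum.inr j) = 0

/-- (INJ) The initial forms of `z_j - f`, `f` a Laurent polynomial in the `x` only (all exponents have the
`z`-components `0`), not zero: three cases, according to the weight of `z_j`. -/
def S_INJ : Prop :=
  ∀ {k q : ℕ} {N : Fin k → ℕ} (f : LaurI (Aff N q)), f ≠ 0 →
    (∀ a ∈ f.coeff.support, ∀ j, a (Sum.inr j) = 0) → ∀ (ν : Aff N q → ℤ) (j : Fin q)
    (ξ : Aff N q → ℂ), (∀ i, ξ i ≠ 0) →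
    (ν (Sum.inr j) < minOnI f ν →
      evI ξ (initI (AddMonoidAlgebra.single (Pi.single (Sum.inr j) 1) 1 - f) ν) = ξ (Sum.inr j)) ∧
    (ν (Sum.inr j) = minOnI f ν →
      evI ξ (initI (AddMonoidAlgebra.single (Pi.single (Sum.inr j) 1) 1 - f) ν) =
        ξ (Sum.inr j) - evI ξ (initI f ν) ∧
      ∀ i, gradI ξ (initI (AddMonoidAlgebra.single (Pi.single (Sum.inr j) 1) 1 - f) ν) i =
        (if i = Sum.inr j then ξ (Sum.inr j) else 0) - gradI ξ (initI f ν) i) ∧
    (minOnI f ν < ν (Sum.inr j) →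
      evI ξ (initI (AddMonoidAlgebra.single (Pi.single (Sum.inr j) 1) 1 - f) ν) =
        - evI ξ (initI f ν) ∧
      ∀ i, gradI ξ (initI (AddMonoidAlgebra.single (Pi.single (Sum.inr j) 1) 1 - f) ν) i =
        - gradI ξ (initI f ν) i)

/-- (NDG) from S_HOM, S_INI, S_INJ. The system is nondegenerate for all weights. Proof. Let `ν` be a weight,
`ν(l, 0) = 0`, `μ_l` the minimum of the `ν(l, i)`, `i = 0, …, N_l`, and `I_l` the set of the `i` with
`ν(l, i) = μ_l`. For a multihomogeneous `f` of multidegree `d` which is not zero at the vertices the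
minimum of `ν` on the exponents of `aff f` is `∑ d_l μ_l`, and the initial form is the sum of the terms
with the exponents `a` supported in the `(l, i)`, `i ∈ I_l`. (`a ↦ affExp a` is injective on the support.)
For a point `(ξ, ζ)` of the torus let `p_(l, i) = ξ_(l, i)` for `i ∈ I_l` (`ξ_(l, 0) = 1`) and `0` otherwise.
Then the value of the initial form at `ξ` is `eval p f`, and the value of its derivative
`x_s ∂/∂x_s` is `p_s * grd f p s`. For `z_j - h_j(x)` the initial form is `z_j` (not zero at the point),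
`z_j - in(h_j)` (then `h_j(p) ≠ 0`), or `- in(h_j)` (then `h_j(p) = 0`). In a linear relation
`∑ α_i grad + ∑ β_j grad = 0` the component `z_j` gives `β_j = 0` in the second case. So
`V = ∑ α_i grd g_i - ∑_(h_j(p) = 0) β_j grd h_j` has `p_s V_s = 0` for all `s = (l, i)`, `i ≥ 1`, and for
`s = (l, 0)` by Euler's relation. So `V` is a combination of the unit vectors `s`, `p_s = 0`, and NCT
gives `α = β = 0`. -/
def S_NDG : Prop :=
  ∀ {k q r : ℕ} {N : Fin k → ℕ} (g : Fin r → Poly N) (h : Fin q → Poly N)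
    (e : Fin r → Fin k → ℕ) (d : Fin q → Fin k → ℕ), (∀ i, IsMultiHom (g i) (e i)) →
    (∀ j, IsMultiHom (h j) (d j)) → NCT g h → VTX g h →
    (∀ i, sys g h i ≠ 0) ∧ ∀ ν, NondegI (sys g h) ν

/-- (AFF) The point with the coordinates `x_(l, i) / x_(l, 0)`, `h_j(x) / ∏ x_(l, 0)^(d_(j, l))` is a
solution of the system. -/
def S_AFF : Prop :=
  ∀ {k q r : ℕ} {N : Fin k → ℕ} (g : Fin r → Poly N) (h : Fin q → Poly N)
    (e : Fin r → Fin k → ℕ) (d : Fin q → Fin k → ℕ), (∀ i, IsMultiHom (g i) (e i)) →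
    (∀ j, IsMultiHom (h j) (d j)) → ∀ {K : Type} [Field K] [Algebra ℂ K] (x : Coord N → K),
    (∀ s, x s ≠ 0) → (∀ i, aeval x (g i) = 0) → ∀ i,
      evI (Sum.elim (fun s => x ⟨s.1, s.2.succ⟩ / x ⟨s.1, 0⟩)
        fun j => aeval x (h j) / ∏ l, x ⟨l, 0⟩ ^ d j l) (sys g h i) = 0

/-- (GEN) Generators. `x' = Λ x` has no zero coordinate. Then `K` is generated by the `x'_(l, i) / x'_(l, 0)`
and the `w'_a = w_a / ∏_l x'_(l, 0)^(n_(a, l))`, `m_a n_(a, l) = ∑_j κ_(a, j) d_(j, l)`, and
`w'_a ^ m_a = ∏_j z_j^(κ_(a, j))`. (One of the `x_(l, i)` is `1`, a linear combination of the `x'_(l, i)`, so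
`x'_(l, 0)` is a rational function of the quotients.) -/
def S_GEN : Prop :=
  ∀ {k q r n u : ℕ} {N : Fin k → ℕ} (g : Fin r → Poly N) (h : Fin q → Poly N)
    (d : Fin q → Fin k → ℕ) {K : Type} [Field K] [Algebra ℂ K] (x : Coord N → K) (w : Fin u → K)
    (m : Fin u → ℕ) (κ : Fin u → Fin q → ℤ), IsAbelianCover n g h d x w m κ →
    ∀ A Λ : Matrix (Coord N) (Coord N) ℂ, IsBlock A → IsBlock Λ → A * Λ = 1 →
    (∀ s, act Λ x s ≠ 0) →
    ∃ w' : Fin u → K,
      (∀ a, w' a ^ m a = monI (Sum.elim (fun s : (l : Fin k) × Fin (N l) =>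
          act Λ x ⟨s.1, s.2.succ⟩ / act Λ x ⟨s.1, 0⟩)
        fun j => aeval x (h j) / ∏ l, act Λ x ⟨l, 0⟩ ^ d j l) (Sum.elim 0 (κ a))) ∧
      IntermediateField.adjoin ℂ (Set.range (fun s : (l : Fin k) × Fin (N l) =>
        act Λ x ⟨s.1, s.2.succ⟩ / act Λ x ⟨s.1, 0⟩) ∪ Set.range w') = ⊤

end

end NCC
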