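import Pool.Agent.NCC.Stmts
import Pool.Agent.MMCI.FinalT2
import Pool.Agent.MMCI.BridgeX

/-!
# Assembly: the theorem for abelian covers, from the statements
-/

set_option autoImplicit false

namespace NCC

open MvPolynomial MMCI MMCX

noncomputable section

/-- The theorem for nondegenerate complete intersections in tori, in the final definitions. -/
theorem torus {e n r : ℕ} {K : Type} [Field K] [Algebra ℂ K] (f : Fin r → Laurent n)
    (x : Fin n → K) (h : IsNCI e f x) : ∃ Y : ProjModel K, MMCX.Terminal e Y ∧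
      ((MMCX.Semiample e Y ∧ MMCX.Nef e Y) ∨ MMCX.MoriFibre e Y) := by
  have hd := h.dim
  obtain ⟨Y, h1, h2⟩ := main_nci f x h
  refine ⟨Y, terminal_of hd h1, ?_⟩
  rcases h2 with h2 | h2
  · exact Or.inl ⟨semiample_of hd h2.1, nef_of hd h2.2⟩
  · exact Or.inr (moriFibre_of hd h2.1)

theorem adjoin_top_of_le {K : Type} [Field K] [Algebra ℂ K] {S T : Set K} (h : S ⊆ T)
    (hS : IntermediateField.adjoin ℂ S = ⊤) : IntermediateField.adjoin ℂ T = ⊤ := by
  refine top_le_iff.1 ?_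
  rw [← hS]
  exact IntermediateField.adjoin.mono ℂ _ _ h

/-- The system of the cover in the torus of the coordinates `y`. -/
theorem isNCI (hSUB : S_SUB) (hCRD : S_CRD) (hPUL : S_PUL) (hLAT : S_LAT) (hNDG : S_NDG)
    (hAFF : S_AFF) (hGEN : S_GEN) {k q r n u : ℕ} {N : Fin k → ℕ} (g : Fin r → Poly N)
    (h : Fin q → Poly N) (e : Fin r → Fin k → ℕ) (d : Fin q → Fin k → ℕ)
    (hg : ∀ i, IsMultiHom (g i) (e i)) (hh : ∀ j, IsMultiHom (h j) (d j))
    (hnc : NormalCrossings g h) (hg0 : ∀ i, g i ≠ 0) {K : Type} [Field K] [Algebra ℂ K]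
    (x : Coord N → K) (w : Fin u → K) (m : Fin u → ℕ) (κ : Fin u → Fin q → ℤ)
    (hK : IsAbelianCover n g h d x w m κ) :
    ∃ (M r' : ℕ) (f : Fin r' → Laurent M) (y : Fin M → K), IsNCI n f y := by
  classical
  have hh0 : ∀ j, h j ≠ 0 := by
    intro j hj
    apply hK.ne j
    rw [hj, map_zero]
  have hx : IsPoint x := by
    intro l
    obtain ⟨i, hi⟩ := hK.one l
    exact ⟨i, by rw [hi]; exact one_ne_zero⟩
  obtain ⟨A, Λ, hA, hΛ, hAΛ, hΛA, hNCT, hVTX, hx'⟩ := hCRD g h e d hg hh hnc hg0 hh0 x hx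
  set g' : Fin r → Poly N := fun i => sub A (g i) with hg'
  set h' : Fin q → Poly N := fun j => sub A (h j) with hh'
  have hgm : ∀ i, IsMultiHom (g' i) (e i) := fun i => (hSUB A (g i)).1 hA _ (hg i)
  have hhm : ∀ j, IsMultiHom (h' j) (d j) := fun j => (hSUB A (h j)).1 hA _ (hh j)
  set x' : Coord N → K := act Λ x with hx'd
  have hact : act A x' = x := by
    funext s
    simp only [hx'd, act, Finset.mul_sum]
    rw [Finset.sum_comm]
    have h1 : ∀ t, ∑ v, algebraMap ℂ K (A s v) * (algebraMap ℂ K (Λ v t) * x t) =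
        algebraMap ℂ K ((A * Λ) s t) * x t := by
      intro t
      rw [Matrix.mul_apply, map_sum, Finset.sum_mul]
      exact Finset.sum_congr rfl fun v _ => by rw [map_mul, mul_assoc]
    rw [Finset.sum_congr rfl fun t _ => h1 t, hAΛ]
    simp [Matrix.one_apply]
  have haev : ∀ f : Poly N, aeval x' (sub A f) = aeval x f := by
    intro f
    rw [(hSUB A f).2.1, hact]
  obtain ⟨hs0, hnd⟩ := hNDG g' h' e d hgm hhm hNCT hVTX
  have hz0 : ∀ i, aeval x' (g' i) = 0 := fun i => by rw [hg', haev]; exact hK.zero i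
  have hzh : ∀ j, aeval x' (h' j) = aeval x (h j) := fun j => by rw [hh', haev]
  have haff := hAFF g' h' e d hgm hhm x' hx' hz0
  obtain ⟨w', hw', hgen⟩ := hGEN g h d x w m κ hK A Λ hA hΛ hAΛ hx'
  set X : Aff N q → K := Sum.elim (fun s : (l : Fin k) × Fin (N l) =>
      act Λ x ⟨s.1, s.2.succ⟩ / act Λ x ⟨s.1, 0⟩)
    fun j => aeval x (h j) / ∏ l, act Λ x ⟨l, 0⟩ ^ d j l with hX
  have hX0 : ∀ i, X i ≠ 0 := by
    rintro (s | j)
    · simp only [hX, Sum.elim_inl]
      exact div_ne_zero (hx' _) (hx' _)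
    · simp only [hX, Sum.elim_inr]
      exact div_ne_zero (hK.ne j) (Finset.prod_ne_zero_iff.2 fun l _ => pow_ne_zero _ (hx' _))
  have hXe : ∀ i, evI X (sys g' h' i) = 0 := by
    intro i
    have h1 := haff i
    have h2 : (Sum.elim (fun s : (l : Fin k) × Fin (N l) => x' ⟨s.1, s.2.succ⟩ / x' ⟨s.1, 0⟩)
        fun j => aeval x' (h' j) / ∏ l, x' ⟨l, 0⟩ ^ d j l) = X := by
      rw [hX]
      congr 1
      funext j
      rw [hzh]
    rw [h2] at h1
    exact h1
  set M := Fintype.card (Aff N q) with hM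
  obtain ⟨y, μ, ζ, hy0, hμ, hζ, hXy, hadj⟩ := hLAT (ι := Aff N q) (M := M) rfl X w' m
    (fun a => Sum.elim 0 (κ a)) hX0 fun a => ⟨(hK.root a).1, hw' a⟩
  obtain ⟨hev, hne, hPN⟩ := hPUL ζ μ hζ hμ
  refine ⟨M, r + q, fun i => pull ζ μ (sys g' h' (finSumFinEquiv.symm i)), y, ?_⟩
  refine
    { dim_eq := ?_
      pos := hK.pos
      f_ne := fun i => hne _ (hs0 _)
      ne := hy0
      gen := ?_
      dim := hK.dim
      zero := fun i => ?_
      nondeg := fun ν p hp hz => ?_ }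
  · rw [hM]
    simp only [Fintype.card_sum, Fintype.card_sigma, Fintype.card_fin]
    have := hK.dim_eq
    omega
  · refine top_le_iff.1 ?_
    refine le_trans ?_ hadj
    rw [top_le_iff]
    refine adjoin_top_of_le ?_ hgen
    refine Set.union_subset_union_left _ ?_
    rintro _ ⟨s, rfl⟩
    exact ⟨Sum.inl s, rfl⟩
  · rw [hev y hy0]
    have h1 : (fun i => algebraMap ℂ K (ζ i) * mon y (μ i)) = X := by
      funext i
      rw [hXy i]
    rw [h1]
    exact hXe _
  · have h1 := hPN (sys g' h') hnd ν p hp fun i => by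
      have := hz (finSumFinEquiv i)
      simpa using this
    exact (linearIndependent_equiv (finSumFinEquiv (m := r) (n := q)).symm).2 h1

/-- The theorem. -/
theorem main_of (hSUB : S_SUB) (hCRD : S_CRD) (hPUL : S_PUL) (hLAT : S_LAT) (hNDG : S_NDG)
    (hAFF : S_AFF) (hGEN : S_GEN) {k q r n u : ℕ} {N : Fin k → ℕ} (g : Fin r → Poly N)
    (h : Fin q → Poly N) (e : Fin r → Fin k → ℕ) (d : Fin q → Fin k → ℕ)
    (hg : ∀ i, IsMultiHom (g i) (e i)) (hh : ∀ j, IsMultiHom (h j) (d j))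
    (hnc : NormalCrossings g h) (hg0 : ∀ i, g i ≠ 0) {K : Type} [Field K] [Algebra ℂ K]
    (x : Coord N → K) (w : Fin u → K) (m : Fin u → ℕ) (κ : Fin u → Fin q → ℤ)
    (hK : IsAbelianCover n g h d x w m κ) :
    ∃ Y : ProjModel K, MMCX.Terminal n Y ∧
      ((MMCX.Semiample n Y ∧ MMCX.Nef n Y) ∨ MMCX.MoriFibre n Y) := by
  obtain ⟨M, r', f, y, hf⟩ := isNCI hSUB hCRD hPUL hLAT hNDG hAFF hGEN g h e d hg hh hnc hg0 x w m
    κ hK
  exact torus f y hf

end

end NCC
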