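import Pool.Agent.NCC.Stmts

/-!
# NCC, module LAB: a basis of the lattice of characters
-/

set_option autoImplicit false

namespace NCC

namespace LAB_aux

variable {ι : Type} [DecidableEq ι] {u : ℕ}

/-- the generators of the lattice -/
def gn (m : Fin u → ℕ) (κ : Fin u → ι → ℤ) : ι ⊕ Fin u → ι → ℚ :=
  Sum.elim (fun i => Pi.single i 1) (fun a i' => (κ a i' : ℚ) / m a)

/-- the lattice -/
def Lt (m : Fin u → ℕ) (κ : Fin u → ι → ℤ) : Submodule ℤ (ι → ℚ) :=
  Submodule.span ℤ (Set.range (gn m κ))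

theorem isLattice [Fintype ι] (m : Fin u → ℕ) (κ : Fin u → ι → ℤ) :
    Submodule.IsLattice ℚ (Lt m κ) where
  fg := Submodule.fg_span (Set.finite_range _)
  span_eq_top := by
    rw [eq_top_iff]
    intro x _
    have h : x = ∑ i, x i • (Pi.single i (1 : ℚ) : ι → ℚ) := by
      funext i'
      simp [Finset.sum_apply, Pi.single_apply]
    rw [h]
    refine Submodule.sum_mem _ fun i _ => Submodule.smul_mem _ _ (Submodule.subset_span ?_)
    exact Submodule.subset_span ⟨Sum.inl i, rfl⟩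

theorem indep [Fintype ι] (m : Fin u → ℕ) (κ : Fin u → ι → ℤ) :
    LinearIndependent ℤ (fun i : ι =>
      (⟨gn m κ (Sum.inl i), Submodule.subset_span ⟨_, rfl⟩⟩ : Lt m κ)) := by
  rw [Fintype.linearIndependent_iff]
  intro g hg i
  have h1 := congrArg (fun z : Lt m κ => (z : ι → ℚ) i) hg
  simp only [Submodule.coe_sum, Submodule.coe_smul, Finset.sum_apply, Pi.smul_apply, gn,
    Sum.elim_inl, Pi.single_apply, ZeroMemClass.coe_zero, Pi.zero_apply] at h1
  rw [Finset.sum_eq_single i (fun j _ hj => by simp [Ne.symm hj]) (by simp)] at h1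
  simpa using h1

end LAB_aux

open LAB_aux in
/-- **LAB**. -/
theorem t_LAB : S_LAB := by
  intro ι _ _ M u hM m κ _
  have hL := isLattice m κ
  have hr : Module.finrank ℤ (Lt m κ) = M :=
    (Submodule.IsLattice.finrank_of_pi ℚ (Lt m κ)).trans hM
  let b : Module.Basis (Fin M) ℤ (Lt m κ) := Module.finBasisOfFinrankEq ℤ (Lt m κ) hr
  have hc : ∀ j : Fin M, ∃ c : ι ⊕ Fin u → ℤ, ∑ s, c s • gn m κ s = (b j : ι → ℚ) := fun j =>
    (Submodule.mem_span_range_iff_exists_fun ℤ).1 (b j).2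
  choose c hc using hc
  have hb : ∀ j i', (b j : ι → ℚ) i' = (c j (Sum.inl i') : ℚ) +
      ∑ a, (c j (Sum.inr a) : ℚ) * κ a i' / m a := by
    intro j i'
    rw [← hc j, Fintype.sum_sum_type, Pi.add_apply, Finset.sum_apply, Finset.sum_apply]
    congr 1
    · rw [Finset.sum_eq_single i' (fun i _ hi => by simp [gn, Ne.symm hi]) (by simp)]
      simp [gn]
    · apply Finset.sum_congr rfl
      intro a _
      simp only [gn, Sum.elim_inr, Pi.smul_apply, zsmul_eq_mul, mul_div_assoc]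
  have hx : ∀ (x : Lt m κ) i', (x : ι → ℚ) i' = ∑ j, (b.equivFun x j : ℚ) *
      ((c j (Sum.inl i') : ℚ) + ∑ a, (c j (Sum.inr a) : ℚ) * κ a i' / m a) := by
    intro x i'
    have h1 := congrArg (fun z : Lt m κ => (z : ι → ℚ) i') (b.sum_equivFun x)
    simp only [Submodule.coe_sum, Submodule.coe_smul, Finset.sum_apply, Pi.smul_apply] at h1
    rw [← h1]
    apply Finset.sum_congr rfl
    intro j _
    rw [← hb j i', zsmul_eq_mul]
  refine ⟨fun j i => c j (Sum.inl i), fun j a => c j (Sum.inr a),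
    fun i => b.equivFun ⟨gn m κ (Sum.inl i), Submodule.subset_span ⟨_, rfl⟩⟩,
    fun a => b.equivFun ⟨gn m κ (Sum.inr a), Submodule.subset_span ⟨_, rfl⟩⟩, ?_, ?_, ?_⟩
  · exact (indep m κ).map' b.equivFun.toLinearMap b.equivFun.ker
  · intro i i'
    have h := hx ⟨gn m κ (Sum.inl i), Submodule.subset_span ⟨_, rfl⟩⟩ i'
    rw [← h]
    simp [gn, Pi.single_apply, eq_comm]
  · intro a i'
    have h := hx ⟨gn m κ (Sum.inr a), Submodule.subset_span ⟨_, rfl⟩⟩ i'
    rw [← h]
    simp [gn]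

end NCC
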